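import Pool.Agent.H76.DTO.Defs

/-!
The second singular value of a Label Cover instance and perfect solutions of the plain basic
semidefinite relaxation (without nonnegativity constraints).
-/

namespace Pool.Agent.H76.DTO

open Finset
open scoped RealInnerProductSpace

noncomputable section

/-- The second singular value of the constraint graph is at most `σ`: functions `f` on the left
vertices of mean zero and functions `g` on the right vertices have correlation at most `σ` along a
uniformly random edge. -/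
def LabelCover.SecondSingular {V W : Type} {d R : ℕ} (Φ : LabelCover V W d R) (σ : ℝ) : Prop :=
  ∀ (f : V → ℝ) (g : W → ℝ), ∑ e ∈ Φ.E, f e.1 = 0 →
    ∑ e ∈ Φ.E, f e.1 * g e.2 ≤
      σ * √(∑ e ∈ Φ.E, f e.1 ^ 2) * √(∑ e ∈ Φ.E, g e.2 ^ 2)

/-- A solution in `ℝ ^ N` of value one of the basic semidefinite relaxation: for every vertex the
vectors of the labels are orthogonal and their squared norms sum up to one, and every edge attains
the maximum of the objective. -/
structure PerfectSolution {V W : Type} {d R : ℕ} (Φ : LabelCover V W d R) (N : ℕ) where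
  x : V → Fin R → EuclideanSpace ℝ (Fin N)
  y : W → Fin (d * R) → EuclideanSpace ℝ (Fin N)
  orth_x : ∀ v a a', a ≠ a' → ⟪x v a, x v a'⟫ = 0
  orth_y : ∀ w b b', b ≠ b' → ⟪y w b, y w b'⟫ = 0
  norm_x : ∀ v, ∑ a, ‖x v a‖ ^ 2 = 1
  norm_y : ∀ w, ∑ b, ‖y w b‖ ^ 2 = 1
  perfect : ∀ e ∈ Φ.E, ∑ b, ⟪x e.1 (Φ.π e b), y e.2 b⟫ = 1

/-- The vectors of the labels of every vertex sum up to one and the same unit vector. -/
def PerfectSolution.CommonSum {V W : Type} {d R N : ℕ} {Φ : LabelCover V W d R}
    (S : PerfectSolution Φ N) : Prop :=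
  ∃ z : EuclideanSpace ℝ (Fin N), ‖z‖ = 1 ∧ (∀ v, ∑ a, S.x v a = z) ∧ (∀ w, ∑ b, S.y w b = z)

end

end Pool.Agent.H76.DTO
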