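import Pool.Agent.H76.DTO.Sound
import Pool.Agent.H76.DTO.SharpDefs

/-!
The gap instances for the plain basic relaxation at the critical second singular value.
-/

namespace Pool.Agent.H76.DTO

open Finset Module
open scoped Classical RealInnerProductSpace

noncomputable section

set_option linter.unusedSectionVars false

section Vec

variable {G : Type} [Fintype G]

/-- A complex function as a real vector. -/
def vec (u : G → ℂ) : EuclideanSpace ℝ (Fin (Fintype.card (G × Bool))) :=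
  WithLp.toLp 2 (fun i => if ((Fintype.equivFin (G × Bool)).symm i).2 then
    (u ((Fintype.equivFin (G × Bool)).symm i).1).re
    else (u ((Fintype.equivFin (G × Bool)).symm i).1).im)

lemma inner_vec (u v : G → ℂ) :
    ⟪vec u, vec v⟫ = (∑ x, u x * starRingEnd ℂ (v x)).re := by
  rw [PiLp.inner_apply]
  have h1 := Equiv.sum_comp (Fintype.equivFin (G × Bool)).symm
    (fun p : G × Bool => if p.2 then (u p.1).re * (v p.1).re else (u p.1).im * (v p.1).im)
  rw [Fintype.sum_prod_type] at h1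
  have h2 : ∀ i, ⟪(vec u).ofLp i, (vec v).ofLp i⟫ =
      (fun p : G × Bool => if p.2 then (u p.1).re * (v p.1).re else (u p.1).im * (v p.1).im)
        ((Fintype.equivFin (G × Bool)).symm i) := by
    intro i
    simp only [vec]
    split_ifs
    · simp [mul_comm]
    · simp [mul_comm]
  rw [Finset.sum_congr rfl fun i _ => h2 i, h1, Complex.re_sum]
  refine Finset.sum_congr rfl fun x _ => ?_
  simp [Complex.mul_re]

lemma vec_sum {ι : Type} (s : Finset ι) (u : ι → G → ℂ) :
    ∑ b ∈ s, vec (u b) = vec (fun x => ∑ b ∈ s, u b x) := by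
  ext i
  rw [WithLp.ofLp_sum, Finset.sum_apply]
  simp only [vec]
  split_ifs
  · rw [Complex.re_sum]
  · rw [Complex.im_sum]

end Vec

variable {F : Type} [Field F] [Fintype F] {n κ : ℕ}

/-- The vector space underlying the labels. -/
abbrev GG (F : Type) (κ : ℕ) : Type := Fin (κ + 1) → F

lemma card_GG : Fintype.card (GG F κ) = Fintype.card F * Fintype.card F ^ κ := by
  rw [Fintype.card_fun, Fintype.card_fin, pow_succ, mul_comm]

/-- The right labels are the functionals. -/
def tau (F : Type) [Field F] [Fintype F] (κ : ℕ) :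
    Fin (Fintype.card F * Fintype.card F ^ κ) ≃ Dual F (GG F κ) :=
  (Fintype.equivFinOfCardEq (card_dual.trans card_GG)).symm

lemma card_quot (S : NZ F (GG F κ)) :
    Nat.card (Dual F (GG F κ) ⧸ Submodule.span F {S.1}) = Fintype.card F ^ κ := by
  have h1 := Submodule.card_eq_card_quotient_mul_card (Submodule.span F {S.1})
  have h2 : Nat.card (Submodule.span F {S.1}) = Fintype.card F := by
    rw [Nat.card_eq_fintype_card, Module.card_eq_pow_finrank (K := F), finrank_span_singleton S.2,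
      pow_one]
  rw [h2, Nat.card_eq_fintype_card, card_dual, card_GG] at h1
  exact Nat.eq_of_mul_eq_mul_left Fintype.card_pos h1.symm

/-- The left labels are the functionals modulo the functional of the vertex. -/
def rho (S : NZ F (GG F κ)) :
    (Dual F (GG F κ) ⧸ Submodule.span F {S.1}) ≃ Fin (Fintype.card F ^ κ) :=
  Finite.equivFinOfCardEq (card_quot S)

/-- The left label of a functional. -/
def lft (S : NZ F (GG F κ)) (A : Dual F (GG F κ)) : Fin (Fintype.card F ^ κ) :=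
  rho S (Submodule.Quotient.mk A)

lemma lft_eq_iff (S : NZ F (GG F κ)) (A B : Dual F (GG F κ)) :
    lft S A = lft S B ↔ ∃ c : F, A = B + c • S.1 := by
  rw [lft, lft, (rho S).injective.eq_iff, Submodule.Quotient.eq, Submodule.mem_span_singleton]
  constructor
  · rintro ⟨c, hc⟩
    exact ⟨c, by rw [hc]; abel⟩
  · rintro ⟨c, hc⟩
    exact ⟨c, by rw [hc]; abel⟩

lemma fib_eq (S : NZ F (GG F κ)) (A : Dual F (GG F κ)) :
    Finset.univ.filter (fun b => lft S (tau F κ b) = lft S A) =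
      Finset.univ.image (fun c : F => (tau F κ).symm (A + c • S.1)) := by
  ext b
  rw [Finset.mem_filter, Finset.mem_image, lft_eq_iff]
  constructor
  · rintro ⟨_, c, hc⟩
    exact ⟨c, Finset.mem_univ _, by rw [← hc, Equiv.symm_apply_apply]⟩
  · rintro ⟨c, _, hc⟩
    exact ⟨Finset.mem_univ _, c, by rw [← hc, Equiv.apply_symm_apply]⟩

lemma fib_inj (S : NZ F (GG F κ)) (A : Dual F (GG F κ)) :
    Function.Injective (fun c : F => (tau F κ).symm (A + c • S.1)) := by
  intro c c' h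
  have h1 := (tau F κ).symm.injective h
  exact smul_left_injective F S.2 (add_left_cancel h1)

variable (P : Frame F (GG F κ) n)

/-- The functional relating the functions of the two vertices of an edge. -/
def shf (v : NZ F (GG F κ) × (Fin n → F)) (f : Fin n → F) : Dual F (GG F κ) :=
  if h : f - v.2 ∈ P.LL v.1.1 then Classical.choose ((P.mem_LL _ _).1 h) else 0

lemma shf_spec {v : NZ F (GG F κ) × (Fin n → F)} {f : Fin n → F} (h : f - v.2 ∈ P.LL v.1.1)
    (i : Fin n) (hi : v.1.1 (P.pt i) = 0) : f i - v.2 i = shf P v f (P.pt i) := by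
  rw [shf, dif_pos h]
  exact Classical.choose_spec ((P.mem_LL _ _).1 h) i hi

/-- The gap instance. -/
def inst : LabelCover (NZ F (GG F κ) × (Fin n → F)) (Fin n → F) (Fintype.card F)
    (Fintype.card F ^ κ) where
  E := P.edges
  π e b := lft e.1.1 (tau F κ b + shf P e.1 e.2)
  dto1 := by
    intro e _ a
    rcases (Finset.univ.filter
      (fun b => lft e.1.1 (tau F κ b + shf P e.1 e.2) = a)).eq_empty_or_nonempty with h | ⟨b₀, hb₀⟩
    · rw [h]; simp
    · have h0 := (Finset.mem_filter.1 hb₀).2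
      have h1 : Finset.univ.filter (fun b => lft e.1.1 (tau F κ b + shf P e.1 e.2) = a) ⊆
          Finset.univ.image (fun c : F => (tau F κ).symm (tau F κ b₀ + c • e.1.1.1)) := by
        intro b hb
        have h2 := (Finset.mem_filter.1 hb).2
        obtain ⟨c, hc⟩ := (lft_eq_iff _ _ _).1 (h2.trans h0.symm)
        refine Finset.mem_image.2 ⟨c, Finset.mem_univ _, ?_⟩
        have h3 : tau F κ b = tau F κ b₀ + c • e.1.1.1 := by
          have h4 : tau F κ b + shf P e.1 e.2 = (tau F κ b₀ + c • e.1.1.1) + shf P e.1 e.2 := by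
            rw [hc]; abel
          exact add_right_cancel h4
        rw [← h3, Equiv.symm_apply_apply]
      exact (Finset.card_le_card h1).trans (Finset.card_image_le.trans (by rw [Finset.card_univ]))

/-- The vectors of the right labels. -/
def yv (ψ : AddChar F ℂ) (f : Fin n → F) (b : Fin (Fintype.card F * Fintype.card F ^ κ)) :
    EuclideanSpace ℝ (Fin (Fintype.card (GG F κ × Bool))) :=
  vec (fun x => (1 / (Fintype.card (GG F κ) : ℂ)) * ψ (P.ext f x + tau F κ b x))

/-- The vectors of the left labels. -/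
def xv (ψ : AddChar F ℂ) (v : NZ F (GG F κ) × (Fin n → F)) (a : Fin (Fintype.card F ^ κ)) :
    EuclideanSpace ℝ (Fin (Fintype.card (GG F κ × Bool))) :=
  ∑ b ∈ Finset.univ.filter (fun b => lft v.1 (tau F κ b) = a), yv P ψ v.2 b

lemma inner_yv (ψ : AddChar F ℂ) (f f' : Fin n → F)
    (b b' : Fin (Fintype.card F * Fintype.card F ^ κ)) :
    ⟪yv P ψ f b, yv P ψ f' b'⟫ = (1 / (Fintype.card (GG F κ) : ℝ) ^ 2) *
      (∑ x, ψ ((P.ext f x - P.ext f' x) + (tau F κ b - tau F κ b') x)).re := by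
  rw [yv, yv, inner_vec]
  have h1 : ∀ x, (1 / (Fintype.card (GG F κ) : ℂ)) * ψ (P.ext f x + tau F κ b x) *
      starRingEnd ℂ ((1 / (Fintype.card (GG F κ) : ℂ)) * ψ (P.ext f' x + tau F κ b' x)) =
      (((1 / (Fintype.card (GG F κ) : ℝ) ^ 2 : ℝ)) : ℂ) *
        ψ ((P.ext f x - P.ext f' x) + (tau F κ b - tau F κ b') x) := by
    intro x
    have e1 : (P.ext f x - P.ext f' x) + (tau F κ b - tau F κ b') x =
        (P.ext f x + tau F κ b x) + -(P.ext f' x + tau F κ b' x) := by
      rw [LinearMap.sub_apply]; ring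
    rw [e1, AddChar.map_add_eq_mul ψ (P.ext f x + tau F κ b x) (-(P.ext f' x + tau F κ b' x)),
      map_mul, ← AddChar.map_neg_eq_conj]
    push_cast
    simp only [map_div₀, map_one, Complex.conj_natCast]
    ring
  rw [Finset.sum_congr rfl fun x _ => h1 x, ← Finset.mul_sum, Complex.re_ofReal_mul]

/-- Character sums of functionals. -/
lemma sum_psi_dual (ψ : AddChar F ℂ) (hψ : ψ.IsPrimitive) {A : Dual F (GG F κ)} (hA : A ≠ 0) :
    ∑ x, ψ (A x) = 0 := by
  set u : Fin (κ + 1) → F := fun i => A (fun j => if i = j then 1 else 0) with hu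
  have h1 : ∀ x : GG F κ, A x = dot x u := by
    intro x
    rw [LinearMap.pi_apply_eq_sum_univ A x, dot]
    rfl
  have h2 : u ≠ 0 := by
    intro h
    apply hA
    refine LinearMap.ext fun x => ?_
    rw [h1 x, h]
    simp [dot]
  rw [Finset.sum_congr rfl fun x _ => by rw [h1 x], sum_psi_dot ψ hψ, if_neg h2]

lemma sum_psi_eval (ψ : AddChar F ℂ) (hψ : ψ.IsPrimitive) {x : GG F κ} (hx : x ≠ 0) :
    ∑ T : Dual F (GG F κ), ψ (T x) = 0 := by
  obtain ⟨A, hA⟩ : ∃ A : Dual F (GG F κ), A x ≠ 0 := by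
    by_contra hc
    push Not at hc
    exact hx ((Module.forall_dual_apply_eq_zero_iff F _).1 hc)
  obtain ⟨t, ht⟩ : ∃ t, ψ (1 * t) ≠ 1 := by
    have := hψ one_ne_zero
    by_contra hc
    push Not at hc
    exact this (by ext t; rw [AddChar.mulShift_apply, hc t]; rfl)
  rw [one_mul] at ht
  set B : Dual F (GG F κ) := (t / A x) • A with hB
  have h1 : B x = t := by
    rw [hB, LinearMap.smul_apply, smul_eq_mul, div_mul_cancel₀ _ hA]
  have h2 : ∑ T : Dual F (GG F κ), ψ (T x) = ψ t * ∑ T : Dual F (GG F κ), ψ (T x) := by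
    rw [Finset.mul_sum, ← Equiv.sum_comp (Equiv.addLeft B) (fun T : Dual F (GG F κ) => ψ (T x))]
    refine Finset.sum_congr rfl fun T _ => ?_
    rw [← AddChar.map_add_eq_mul, Equiv.coe_addLeft, LinearMap.add_apply, h1]
  have h3 : (ψ t - 1) * ∑ T : Dual F (GG F κ), ψ (T x) = 0 := by rw [sub_mul, ← h2]; ring
  rcases mul_eq_zero.1 h3 with h4 | h4
  · exact absurd (sub_eq_zero.1 h4) ht
  · exact h4

/-- The common sum of the vectors of a vertex. -/
def zv (F : Type) [Field F] [Fintype F] (κ : ℕ) :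
    EuclideanSpace ℝ (Fin (Fintype.card (GG F κ × Bool))) :=
  vec (fun x : GG F κ => if x = 0 then 1 else 0)

lemma norm_zv : ‖zv F κ‖ = 1 := by
  have h1 : ‖zv F κ‖ ^ 2 = 1 := by
    rw [← real_inner_self_eq_norm_sq, zv, inner_vec, Finset.sum_eq_single 0]
    · simp
    · intro x _ hx; simp [hx]
    · intro h; exact absurd (Finset.mem_univ _) h
  have h2 := norm_nonneg (zv F κ)
  nlinarith

lemma sum_yv (ψ : AddChar F ℂ) (hψ : ψ.IsPrimitive) (f : Fin n → F) :
    ∑ b, yv P ψ f b = zv F κ := by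
  simp only [yv]
  rw [vec_sum, zv]
  congr 1
  funext x
  rw [← Finset.mul_sum]
  have h1 : ∀ b, ψ (P.ext f x + tau F κ b x) = ψ (P.ext f x) * ψ (tau F κ b x) := fun b =>
    AddChar.map_add_eq_mul _ _ _
  rw [Finset.sum_congr rfl fun b _ => h1 b, ← Finset.mul_sum,
    Equiv.sum_comp (tau F κ) (fun T : Dual F (GG F κ) => ψ (T x))]
  by_cases hx : x = 0
  · subst hx
    rw [if_pos rfl, Frame.ext, P.lead_zero, zero_mul, AddChar.map_zero_eq_one, one_mul]
    have h2 : ∀ T : Dual F (GG F κ), ψ (T 0) = 1 := fun T => by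
      rw [map_zero, AddChar.map_zero_eq_one]
    rw [Finset.sum_congr rfl fun T _ => h2 T, Finset.sum_const, Finset.card_univ, card_dual,
      nsmul_eq_mul, mul_one, one_div, inv_mul_cancel₀]
    exact_mod_cast Fintype.card_ne_zero
  · rw [if_neg hx, sum_psi_eval ψ hψ hx, mul_zero, mul_zero]

lemma sum_xv (ψ : AddChar F ℂ) (hψ : ψ.IsPrimitive) (v : NZ F (GG F κ) × (Fin n → F)) :
    ∑ a, xv P ψ v a = zv F κ := by
  simp only [xv]
  rw [Finset.sum_fiberwise Finset.univ (fun b => lft v.1 (tau F κ b)) (fun b => yv P ψ v.2 b)]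
  exact sum_yv P ψ hψ v.2

lemma norm_sq_yv (ψ : AddChar F ℂ) (f : Fin n → F)
    (b : Fin (Fintype.card F * Fintype.card F ^ κ)) :
    ⟪yv P ψ f b, yv P ψ f b⟫ = 1 / (Fintype.card (GG F κ) : ℝ) := by
  rw [inner_yv]
  have h1 : ∀ x, ψ ((P.ext f x - P.ext f x) + (tau F κ b - tau F κ b) x) = 1 := fun x => by
    rw [sub_self, sub_self, LinearMap.zero_apply, add_zero, AddChar.map_zero_eq_one]
  rw [Finset.sum_congr rfl fun x _ => h1 x, Finset.sum_const, Finset.card_univ, nsmul_eq_mul,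
    mul_one, Complex.natCast_re]
  have : (0 : ℝ) < (Fintype.card (GG F κ) : ℝ) := by exact_mod_cast Fintype.card_pos
  field_simp

lemma orth_yv (ψ : AddChar F ℂ) (hψ : ψ.IsPrimitive) (f : Fin n → F)
    (b b' : Fin (Fintype.card F * Fintype.card F ^ κ)) (hb : b ≠ b') :
    ⟪yv P ψ f b, yv P ψ f b'⟫ = 0 := by
  rw [inner_yv]
  have h1 : ∀ x, ψ ((P.ext f x - P.ext f x) + (tau F κ b - tau F κ b') x) =
      ψ ((tau F κ b - tau F κ b') x) := fun x => by rw [sub_self, zero_add]
  rw [Finset.sum_congr rfl fun x _ => h1 x, sum_psi_dual ψ hψ, Complex.zero_re, mul_zero]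
  rw [sub_ne_zero]
  exact fun h => hb ((tau F κ).injective h)

/-- The correlation of the vectors along an edge. -/
lemma inner_xy (ψ : AddChar F ℂ) (hψ : ψ.IsPrimitive) (v : NZ F (GG F κ) × (Fin n → F))
    (f : Fin n → F) (he : f - v.2 ∈ P.LL v.1.1)
    (b : Fin (Fintype.card F * Fintype.card F ^ κ)) :
    ⟪xv P ψ v (lft v.1 (tau F κ b + shf P v f)), yv P ψ f b⟫ =
      1 / (Fintype.card (GG F κ) : ℝ) := by
  set A : Dual F (GG F κ) := tau F κ b + shf P v f with hA
  have hN : (0 : ℝ) < (Fintype.card (GG F κ) : ℝ) := by exact_mod_cast Fintype.card_pos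
  rw [xv, fib_eq, sum_inner, Finset.sum_image (fun c _ c' _ h => fib_inj v.1 A h)]
  have h1 : ∀ c : F, ⟪yv P ψ v.2 ((tau F κ).symm (A + c • v.1.1)), yv P ψ f b⟫ =
      (1 / (Fintype.card (GG F κ) : ℝ) ^ 2) *
      (∑ x, ψ ((P.ext v.2 x - P.ext f x) + shf P v f x) * ψ (c * v.1.1 x)).re := by
    intro c
    rw [inner_yv]
    congr 2
    refine Finset.sum_congr rfl fun x _ => ?_
    rw [← AddChar.map_add_eq_mul]
    congr 1
    rw [Equiv.apply_symm_apply, hA, LinearMap.sub_apply, LinearMap.add_apply, LinearMap.add_apply,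
      LinearMap.smul_apply, smul_eq_mul]
    ring
  rw [Finset.sum_congr rfl fun c _ => h1 c, ← Finset.mul_sum, ← Complex.re_sum, Finset.sum_comm]
  have h2 : ∀ x : GG F κ, ∑ c : F, ψ ((P.ext v.2 x - P.ext f x) + shf P v f x) *
      ψ (c * v.1.1 x) = if x ∈ LinearMap.ker v.1.1 then (Fintype.card F : ℂ) else 0 := by
    intro x
    rw [← Finset.mul_sum, AddChar.sum_mulShift _ hψ]
    by_cases hx : v.1.1 x = 0
    · rw [if_pos hx, if_pos (LinearMap.mem_ker.2 hx)]
      have h3 : (P.ext v.2 x - P.ext f x) + shf P v f x = 0 := by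
        by_cases hx0 : P.lead x = 0
        · have : x = 0 := by rw [P.eq x, hx0, zero_smul]
          rw [Frame.ext, Frame.ext, hx0, this, map_zero]
          ring
        · have h4 : v.1.1 (P.pt (P.cls x)) = 0 := by
            have h5 := hx
            rw [P.eq x, map_smul, smul_eq_mul] at h5
            exact (mul_eq_zero.1 h5).resolve_left hx0
          have h6 := shf_spec P he (P.cls x) h4
          have h7 : shf P v f x = P.lead x * shf P v f (P.pt (P.cls x)) := by
            conv_lhs => rw [P.eq x]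
            rw [map_smul, smul_eq_mul]
          rw [h7, ← h6, Frame.ext, Frame.ext]
          ring
      rw [h3, AddChar.map_zero_eq_one, one_mul]
    · rw [if_neg hx, if_neg (fun h => hx (LinearMap.mem_ker.1 h)), Nat.cast_zero, mul_zero]
  rw [Finset.sum_congr rfl fun x _ => h2 x, ← Finset.sum_filter, Finset.sum_const, nsmul_eq_mul]
  have h3 : (Finset.univ.filter (fun x => x ∈ LinearMap.ker v.1.1)).card * Fintype.card F =
      Fintype.card (GG F κ) := by
    rw [← Frame.card_ker v.1.2, Fintype.card_subtype]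
  have h4 : (((Finset.univ.filter (fun x => x ∈ LinearMap.ker v.1.1)).card : ℂ) *
      (Fintype.card F : ℂ)).re = (Fintype.card (GG F κ) : ℝ) := by
    rw [← Nat.cast_mul, h3, Complex.natCast_re]
  rw [h4]
  field_simp

lemma card_labels : ((Fintype.card (Fin (Fintype.card F * Fintype.card F ^ κ)) : ℕ) : ℝ) =
    (Fintype.card (GG F κ) : ℝ) := by
  rw [Fintype.card_fin, card_GG]

lemma sum_const_labels : ∑ _b : Fin (Fintype.card F * Fintype.card F ^ κ),
    1 / (Fintype.card (GG F κ) : ℝ) = 1 := by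
  rw [Finset.sum_const, Finset.card_univ, nsmul_eq_mul, card_labels]
  have : (0 : ℝ) < (Fintype.card (GG F κ) : ℝ) := by exact_mod_cast Fintype.card_pos
  field_simp

/-- The perfect solution of the gap instance. -/
def perf (ψ : AddChar F ℂ) (hψ : ψ.IsPrimitive) :
    PerfectSolution (inst P) (Fintype.card (GG F κ × Bool)) where
  x := xv P ψ
  y := yv P ψ
  orth_x := by
    intro v a a' h
    rw [xv, xv, sum_inner]
    refine Finset.sum_eq_zero fun b hb => ?_
    rw [inner_sum]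
    refine Finset.sum_eq_zero fun b' hb' => ?_
    refine orth_yv P ψ hψ v.2 b b' ?_
    rintro rfl
    exact h ((Finset.mem_filter.1 hb).2.symm.trans (Finset.mem_filter.1 hb').2)
  orth_y := orth_yv P ψ hψ
  norm_x := by
    intro v
    rw [← sum_const_labels (F := F) (κ := κ),
      ← Finset.sum_fiberwise Finset.univ (fun b => lft v.1 (tau F κ b))]
    refine Finset.sum_congr rfl fun a _ => ?_
    rw [← real_inner_self_eq_norm_sq, xv, sum_inner]
    refine Finset.sum_congr rfl fun b hb => ?_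
    rw [inner_sum, Finset.sum_eq_single b]
    · exact norm_sq_yv P ψ v.2 b
    · intro b' _ hne; exact orth_yv P ψ hψ v.2 b b' (Ne.symm hne)
    · intro h; exact absurd hb h
  norm_y := by
    intro f
    rw [← sum_const_labels (F := F) (κ := κ)]
    refine Finset.sum_congr rfl fun b _ => ?_
    rw [← real_inner_self_eq_norm_sq]
    exact norm_sq_yv P ψ f b
  perfect := by
    intro e he
    rw [← sum_const_labels (F := F) (κ := κ)]
    refine Finset.sum_congr rfl fun b _ => ?_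
    exact inner_xy P ψ hψ e.1 e.2 ((P.mem_edges e).1 he) b

/-- A labelling of the gap instance satisfies few edges. -/
lemma frac_le (ψ : AddChar F ℂ) (hψ : ψ.IsPrimitive) (S₀ : NZ F (GG F κ)) (s : ℕ)
    (Fl : NZ F (GG F κ) × (Fin n → F) → Fin (Fintype.card F ^ κ))
    (gl : (Fin n → F) → Fin (Fintype.card F * Fintype.card F ^ κ)) :
    (inst P).frac Fl gl ^ 2 ≤ (Fintype.card F : ℝ) *
      (√((16 * (Fintype.card F : ℝ) ^ 2) ^ s / (Fintype.card (GG F κ) : ℝ)) +
        1 / ((s : ℝ) + 1)) := by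
  set B : ℝ := (Fintype.card F : ℝ) *
      (√((16 * (Fintype.card F : ℝ) ^ 2) ^ s / (Fintype.card (GG F κ) : ℝ)) +
        1 / ((s : ℝ) + 1)) with hB
  have hB0 : 0 ≤ B := by positivity
  set Sat := (inst P).E.filter (fun e => (inst P).π e (gl e.2) = Fl e.1) with hSat
  have h1 : (Sat.card : ℝ) ^ 2 ≤ ((P.edges.card : ℝ)) ^ 2 * B := by
    refine P.sound ψ hψ (fun f => tau F κ (gl f)) (Fintype.card (P.LL S₀.1) : ℝ)
      (Fintype.card (P.CC S₀.1) : ℝ) (by exact_mod_cast Fintype.card_pos) ?_ ?_ ?_ Sat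
      (Finset.filter_subset _ _) ?_ s
    · intro S; rw [P.card_LL_eq S.2 S₀.2]
    · intro S; rw [P.card_CC_eq S.2 S₀.2]
    · exact_mod_cast P.card_LL S₀.2
    · intro v f f' hf hf' i hi
      have e1 : lft v.1 (tau F κ (gl f) + shf P v f) = Fl v := (Finset.mem_filter.1 hf).2
      have e2 : lft v.1 (tau F κ (gl f') + shf P v f') = Fl v := (Finset.mem_filter.1 hf').2
      obtain ⟨c, hc⟩ := (lft_eq_iff _ _ _).1 (e2.trans e1.symm)
      have e3 := shf_spec P ((P.mem_edges (v, f)).1 (Finset.mem_filter.1 hf).1) i hi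
      have e4 := shf_spec P ((P.mem_edges (v, f')).1 (Finset.mem_filter.1 hf').1) i hi
      have e5 : tau F κ (gl f') (P.pt i) + shf P v f' (P.pt i) =
          tau F κ (gl f) (P.pt i) + shf P v f (P.pt i) + c * v.1.1 (P.pt i) := by
        have := congrArg (fun A : Dual F (GG F κ) => A (P.pt i)) hc
        simpa using this
      rw [hi, mul_zero, add_zero, ← e3, ← e4] at e5
      have e6 : f' i + tau F κ (gl f') (P.pt i) = f i + tau F κ (gl f) (P.pt i) := by
        linear_combination e5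
      rw [Frame.lab, Frame.lab, Pi.sub_apply, Pi.add_apply, Pi.add_apply, P.ev_apply, P.ev_apply,
        e6, sub_self]
  rw [LabelCover.frac, ← hSat, div_pow]
  rcases (sq_nonneg (P.edges.card : ℝ)).eq_or_lt with h0 | h0
  · change (Sat.card : ℝ) ^ 2 / (P.edges.card : ℝ) ^ 2 ≤ B
    rw [← h0, div_zero]; exact hB0
  · change (Sat.card : ℝ) ^ 2 / (P.edges.card : ℝ) ^ 2 ≤ B
    rw [div_le_iff₀ h0, mul_comm]; exact h1

/-- The choice of the parameters of the gap instances. -/
lemma params (q : ℕ) (hq : 1 < q) (κ : ℕ) (hκ : 0 < κ) :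
    (q : ℝ) * (√((16 * (q : ℝ) ^ 2) ^ (κ / 12) / (q : ℝ) ^ (κ + 1)) +
      1 / (((κ / 12 : ℕ) : ℝ) + 1)) ≤ 24 * q / κ := by
  have hq2 : (2 : ℝ) ≤ q := by exact_mod_cast hq
  have hq0 : (0 : ℝ) < q := by linarith
  have hκ0 : (0 : ℝ) < κ := by exact_mod_cast hκ
  set s : ℕ := κ / 12 with hs
  have hs1 : 12 * s ≤ κ := Nat.mul_div_le κ 12
  have hs2 : κ < 12 * (s + 1) := by omega
  have h1 : 16 * (q : ℝ) ^ 2 ≤ (q : ℝ) ^ 6 := by
    have : (16 : ℝ) ≤ (q : ℝ) ^ 4 := by
      calc (16 : ℝ) = 2 ^ 4 := by norm_num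
        _ ≤ (q : ℝ) ^ 4 := pow_le_pow_left₀ (by norm_num) hq2 4
    calc 16 * (q : ℝ) ^ 2 ≤ (q : ℝ) ^ 4 * (q : ℝ) ^ 2 :=
          mul_le_mul_of_nonneg_right this (by positivity)
      _ = (q : ℝ) ^ 6 := by ring
  have h2 : (16 * (q : ℝ) ^ 2) ^ s / (q : ℝ) ^ (κ + 1) ≤ (1 / ((s : ℝ) + 1)) ^ 2 := by
    have e1 : (16 * (q : ℝ) ^ 2) ^ s ≤ (q : ℝ) ^ (6 * s) := by
      rw [pow_mul]; exact pow_le_pow_left₀ (by positivity) h1 s
    have e2 : (q : ℝ) ^ (12 * s) ≤ (q : ℝ) ^ (κ + 1) :=
      pow_le_pow_right₀ (by linarith) (by omega)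
    have e3 : ((s : ℝ) + 1) ≤ (q : ℝ) ^ (3 * s) := by
      have e4 : (s : ℝ) + 1 ≤ 2 ^ s := by
        have := Nat.lt_two_pow_self (n := s)
        exact_mod_cast this
      have e5 : (2 : ℝ) ^ s ≤ (q : ℝ) ^ s := pow_le_pow_left₀ (by norm_num) hq2 s
      have e6 : (q : ℝ) ^ s ≤ (q : ℝ) ^ (3 * s) := pow_le_pow_right₀ (by linarith) (by omega)
      linarith
    have e7 : ((s : ℝ) + 1) ^ 2 ≤ (q : ℝ) ^ (6 * s) := by
      have := pow_le_pow_left₀ (by positivity) e3 2
      rwa [← pow_mul, show 3 * s * 2 = 6 * s by ring] at this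
    rw [one_div, inv_pow, div_le_iff₀ (by positivity), ← div_eq_inv_mul,
      le_div_iff₀ (by positivity)]
    calc (16 * (q : ℝ) ^ 2) ^ s * ((s : ℝ) + 1) ^ 2
        ≤ (q : ℝ) ^ (6 * s) * (q : ℝ) ^ (6 * s) := mul_le_mul e1 e7 (by positivity) (by positivity)
      _ = (q : ℝ) ^ (12 * s) := by rw [← pow_add]; congr 1; ring
      _ ≤ _ := e2
  have h3 : √((16 * (q : ℝ) ^ 2) ^ s / (q : ℝ) ^ (κ + 1)) ≤ 1 / ((s : ℝ) + 1) :=
    Real.sqrt_le_iff.2 ⟨by positivity, h2⟩
  have h4 : 1 / ((s : ℝ) + 1) ≤ 12 / κ := by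
    rw [div_le_div_iff₀ (by positivity) hκ0]
    have : (κ : ℝ) ≤ 12 * ((s : ℝ) + 1) := by exact_mod_cast hs2.le
    linarith
  calc (q : ℝ) * (√((16 * (q : ℝ) ^ 2) ^ s / (q : ℝ) ^ (κ + 1)) + 1 / ((s : ℝ) + 1))
      ≤ (q : ℝ) * (12 / κ + 12 / κ) :=
        mul_le_mul_of_nonneg_left (by linarith) hq0.le
    _ = _ := by ring

/-- **The gap is unbounded at the critical second singular value.** -/
lemma upper (F : Type) [Field F] [Fintype F] (κ : ℕ) (hκ : 0 < κ) :
    ∃ (V W : Type) (_ : Fintype V) (_ : Fintype W)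
      (Φ : LabelCover V W (Fintype.card F) (Fintype.card F ^ κ)) (N : ℕ),
      Φ.E.Nonempty ∧ Φ.SecondSingular (1 / (Fintype.card F : ℝ)) ∧
        (∃ S : PerfectSolution Φ N, S.CommonSum) ∧
        Φ.value ≤ √(24 * (Fintype.card F : ℝ) / κ) := by
  have hq : 1 < Fintype.card F := Fintype.one_lt_card
  set ψ : AddChar F ℂ := AddChar.FiniteField.primitiveChar_to_Complex F with hψd
  have hψ : ψ.IsPrimitive := AddChar.FiniteField.primitiveChar_to_Complex_isPrimitive F
  obtain ⟨n, ⟨P⟩⟩ := exists_frame (F := F) (G := GG F κ)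
  obtain ⟨S₁, hS₁⟩ : ∃ S : Dual F (GG F κ), S ≠ 0 := exists_ne 0
  set S₀ : NZ F (GG F κ) := ⟨S₁, hS₁⟩ with hS₀
  refine ⟨NZ F (GG F κ) × (Fin n → F), Fin n → F, inferInstance, inferInstance,
    inst P, Fintype.card (GG F κ × Bool), ?_, ?_,
    ⟨perf P ψ hψ, zv F κ, norm_zv, sum_xv P ψ hψ, sum_yv P ψ hψ⟩, ?_⟩
  · refine ⟨((S₀, 0), 0), (P.mem_edges _).2 ?_⟩
    rw [sub_self]
    exact Submodule.zero_mem _
  · intro f g h0
    refine P.spectral ψ hψ (Fintype.card (P.LL S₀.1) : ℝ) (by exact_mod_cast Fintype.card_pos) ?_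
      f g h0
    intro S; rw [P.card_LL_eq S.2 S₀.2]
  · have hR : 0 < Fintype.card F ^ κ := pow_pos Fintype.card_pos _
    have : Nonempty (Fin (Fintype.card F ^ κ)) := ⟨⟨0, hR⟩⟩
    have : Nonempty (Fin (Fintype.card F * Fintype.card F ^ κ)) :=
      ⟨⟨0, Nat.mul_pos Fintype.card_pos hR⟩⟩
    refine ciSup_le fun fg => ?_
    refine Real.le_sqrt_of_sq_le ?_
    have h2 := frac_le P ψ hψ S₀ (κ / 12) fg.1 fg.2
    have h3 : (Fintype.card (GG F κ) : ℝ) = (Fintype.card F : ℝ) ^ (κ + 1) := by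
      rw [Fintype.card_fun, Fintype.card_fin]; push_cast; rfl
    rw [h3] at h2
    exact h2.trans (params (Fintype.card F) hq κ hκ)

end

end Pool.Agent.H76.DTO
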