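import Mathlib

/-!
d-to-1 Label Cover instances, their value, their threshold rank and the basic semidefinite
relaxation.
-/

namespace Pool.Agent.H76.DTO

open Finset
open scoped RealInnerProductSpace

noncomputable section

/-- A d-to-1 Label Cover instance on the bipartite graph with parts `V`, `W` and edge set `E`,
with left labels `Fin R` and right labels `Fin (d * R)`: the map `π e` of an edge `e` sends right
labels to left labels, and every left label has at most `d` preimages under it. -/
structure LabelCover (V W : Type) (d R : ℕ) where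
  E : Finset (V × W)
  π : V × W → Fin (d * R) → Fin R
  dto1 : ∀ e ∈ E, ∀ a : Fin R, (Finset.univ.filter (fun b => π e b = a)).card ≤ d

/-- The fraction of the edges satisfied by a labelling. -/
def LabelCover.frac {V W : Type} {d R : ℕ} (Φ : LabelCover V W d R) (f : V → Fin R)
    (g : W → Fin (d * R)) : ℝ :=
  ((Φ.E.filter (fun e => Φ.π e (g e.2) = f e.1)).card : ℝ) / (Φ.E.card : ℝ)

/-- The value: the maximum over all labellings of the fraction of satisfied edges. -/
def LabelCover.value {V W : Type} {d R : ℕ} (Φ : LabelCover V W d R) : ℝ :=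
  ⨆ fg : (V → Fin R) × (W → Fin (d * R)), Φ.frac fg.1 fg.2

/-- Threshold rank at most `m` at the level `σ`: outside an at most `m`-dimensional space of
functions on the left vertices, the edges correlate functions on the left and on the right vertices
by at most `σ` (all norms and inner products are taken over a uniformly random edge). Equivalently,
at most `m` singular values of the normalised adjacency operator exceed `σ`. -/
def LabelCover.LowRank {V W : Type} {d R : ℕ} (Φ : LabelCover V W d R) (σ : ℝ) (m : ℕ) : Prop :=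
  ∃ u : Fin m → V → ℝ, ∀ (f : V → ℝ) (g : W → ℝ),
    (∀ i, ∑ e ∈ Φ.E, u i e.1 * f e.1 = 0) →
    ∑ e ∈ Φ.E, f e.1 * g e.2 ≤
      σ * √(∑ e ∈ Φ.E, f e.1 ^ 2) * √(∑ e ∈ Φ.E, g e.2 ^ 2)

/-- A feasible solution in `ℝ ^ N` of the basic semidefinite relaxation: orthogonal vectors for the
labels of each vertex, summing up to one fixed unit vector `z`, with nonnegative inner products. -/
structure VectorSolution (V W : Type) (d R N : ℕ) where
  x : V → Fin R → EuclideanSpace ℝ (Fin N)
  y : W → Fin (d * R) → EuclideanSpace ℝ (Fin N)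
  z : EuclideanSpace ℝ (Fin N)
  norm_z : ‖z‖ = 1
  sum_x : ∀ v, ∑ a, x v a = z
  sum_y : ∀ w, ∑ b, y w b = z
  orth_x : ∀ v a a', a ≠ a' → ⟪x v a, x v a'⟫ = 0
  orth_y : ∀ w b b', b ≠ b' → ⟪y w b, y w b'⟫ = 0
  nonneg_xx : ∀ v a v' a', 0 ≤ ⟪x v a, x v' a'⟫
  nonneg_xy : ∀ v a w b, 0 ≤ ⟪x v a, y w b⟫
  nonneg_yy : ∀ w b w' b', 0 ≤ ⟪y w b, y w' b'⟫

/-- The objective of the semidefinite relaxation. -/
def VectorSolution.val {V W : Type} {d R N : ℕ} (S : VectorSolution V W d R N)
    (Φ : LabelCover V W d R) : ℝ :=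
  (∑ e ∈ Φ.E, ∑ b, ⟪S.x e.1 (Φ.π e b), S.y e.2 b⟫) / (Φ.E.card : ℝ)

/-- The value of the basic semidefinite relaxation. -/
def LabelCover.sdp {V W : Type} {d R : ℕ} (Φ : LabelCover V W d R) : ℝ :=
  sSup {t | ∃ (N : ℕ) (S : VectorSolution V W d R N), t = S.val Φ}

/-- The lower bound for the value in terms of a level `σ`, a threshold rank `m` and the deficit `η`
of the semidefinite value. -/
def lowerBound (d m : ℕ) (σ η : ℝ) : ℝ :=
  max (max 0 ((1 - 2 * η) / √d - σ) ^ 8 / (m : ℝ) ^ 2) (max 0 ((1 - 3 * η) / d - σ) ^ 4 / (m : ℝ)) -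
    2 * √(2 * η)

end

end Pool.Agent.H76.DTO
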