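import Pool.Agent.H76.DTO.Hyper

/-!
Fourier analysis on a power of a finite field: quadratic forms of averages over subspaces, and the
low degree weight of sets of small density.
-/

namespace Pool.Agent.H76.DTO

open Finset
open scoped Classical

noncomputable section

set_option linter.unusedSectionVars false

variable {F : Type} [Field F] [Fintype F] {n : ℕ}

/-- The pairing of two vectors. -/
def dot (b f : Fin n → F) : F := ∑ i, b i * f i

lemma dot_add (b f g : Fin n → F) : dot b (f + g) = dot b f + dot b g := by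
  simp [dot, mul_add, Finset.sum_add_distrib]

lemma dot_sub (b f g : Fin n → F) : dot b (f - g) = dot b f - dot b g := by
  simp [dot, mul_sub, Finset.sum_sub_distrib]

lemma dot_neg (b f : Fin n → F) : dot b (-f) = - dot b f := by
  simp [dot, Finset.sum_neg_distrib]

lemma dot_smul (b f : Fin n → F) (c : F) : dot b (c • f) = c * dot b f := by
  simp only [dot, Finset.mul_sum, Pi.smul_apply, smul_eq_mul]
  exact Finset.sum_congr rfl fun i _ => by ring

lemma dot_comm (b f : Fin n → F) : dot b f = dot f b := by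
  simp only [dot]; exact Finset.sum_congr rfl fun i _ => mul_comm _ _

lemma psi_sum {ι : Type*} (ψ : AddChar F ℂ) (s : Finset ι) (g : ι → F) :
    ψ (∑ i ∈ s, g i) = ∏ i ∈ s, ψ (g i) := by
  classical
  induction s using Finset.induction_on with
  | empty => simp
  | insert i s hi ih => rw [Finset.sum_insert hi, Finset.prod_insert hi, AddChar.map_add_eq_mul, ih]

lemma sum_psi_dot (ψ : AddChar F ℂ) (hψ : ψ.IsPrimitive) (f : Fin n → F) :
    ∑ b : Fin n → F, ψ (dot b f) = if f = 0 then (Fintype.card F : ℂ) ^ n else 0 := by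
  have h1 : ∀ b : Fin n → F, ψ (dot b f) = ∏ i, ψ (b i * f i) := by
    intro b
    rw [dot, psi_sum]
  rw [Finset.sum_congr rfl fun b _ => h1 b]
  have h2 : ∑ b : Fin n → F, ∏ i, ψ (b i * f i) = ∏ i, ∑ t : F, ψ (t * f i) := by
    rw [Finset.prod_univ_sum]
    simp
  rw [h2]
  have h3 : ∀ i, ∑ t : F, ψ (t * f i) = if f i = 0 then (Fintype.card F : ℂ) else 0 := by
    intro i
    have := AddChar.sum_mulShift (f i) hψ
    simpa using this
  rw [Finset.prod_congr rfl fun i _ => h3 i]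
  by_cases hf : f = 0
  · subst hf; simp
  · rw [if_neg hf]
    obtain ⟨i, hi⟩ : ∃ i, f i ≠ 0 := by
      by_contra h
      push Not at h
      exact hf (funext h)
    exact Finset.prod_eq_zero (Finset.mem_univ i) (if_neg hi)

/-- The vector `b` annihilates the subspace `K`. -/
def Ann (K : Submodule F (Fin n → F)) (b : Fin n → F) : Prop := ∀ g ∈ K, dot b g = 0

lemma sum_psi_sub (ψ : AddChar F ℂ) (hψ : ψ.IsPrimitive) (K : Submodule F (Fin n → F))
    (b : Fin n → F) :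
    ∑ g : K, ψ (dot b g) = if Ann K b then (Fintype.card K : ℂ) else 0 := by
  by_cases h : Ann K b
  · rw [if_pos h]
    have : ∀ g : K, ψ (dot b g) = 1 := fun g => by
      rw [h g.1 g.2, AddChar.map_zero_eq_one]
    simp [this]
  · rw [if_neg h]
    have h0 : ∃ g ∈ K, dot b g ≠ 0 := by
      by_contra hc
      push Not at hc
      exact h hc
    obtain ⟨g, hg, hg0⟩ := h0
    obtain ⟨t, ht⟩ : ∃ t, ψ (1 * t) ≠ 1 := by
      have := hψ one_ne_zero
      by_contra hc
      push Not at hc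
      exact this (by ext t; rw [AddChar.mulShift_apply, hc t]; rfl)
    rw [one_mul] at ht
    set g₀ : K := ⟨(t / dot b g) • g, K.smul_mem _ hg⟩ with hg₀
    have h1 : dot b g₀ = t := by
      rw [hg₀]
      simp only
      rw [dot_smul, div_mul_cancel₀ _ hg0]
    have h2 : ∑ g : K, ψ (dot b g) = ψ t * ∑ g : K, ψ (dot b g) := by
      rw [Finset.mul_sum, ← Equiv.sum_comp (Equiv.addLeft g₀) (fun g : K => ψ (dot b g))]
      refine Finset.sum_congr rfl fun g _ => ?_
      rw [← AddChar.map_add_eq_mul, ← h1, ← dot_add]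
      rfl
    have h3 : (ψ t - 1) * ∑ g : K, ψ (dot b g) = 0 := by rw [sub_mul, ← h2]; ring
    rcases mul_eq_zero.1 h3 with h4 | h4
    · exact absurd (sub_eq_zero.1 h4) ht
    · exact h4

/-- The Fourier coefficients of a real function. -/
def fc (ψ : AddChar F ℂ) (a : (Fin n → F) → ℝ) (b : Fin n → F) : ℂ :=
  (∑ f, (a f : ℂ) * ψ (- dot b f)) / (Fintype.card F : ℂ) ^ n

/-- Averages over cosets of a subspace. -/
def savg (K : Submodule F (Fin n → F)) (a : (Fin n → F) → ℝ) (f : Fin n → F) : ℝ :=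
  (∑ g : K, a (f + g)) / (Fintype.card K : ℝ)

lemma card_fun : (Fintype.card (Fin n → F) : ℝ) = (Fintype.card F : ℝ) ^ n := by
  rw [Fintype.card_fun, Fintype.card_fin]; push_cast; rfl

lemma qpos : (0 : ℝ) < (Fintype.card F : ℝ) := by exact_mod_cast Fintype.card_pos

lemma fc_normSq (ψ : AddChar F ℂ) (a : (Fin n → F) → ℝ) (b : Fin n → F) :
    ((‖fc ψ a b‖ ^ 2 : ℝ) : ℂ) =
      (∑ f, ∑ f', (a f : ℂ) * (a f' : ℂ) * ψ (dot b (f' - f))) / ((Fintype.card F : ℂ) ^ n) ^ 2 := by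
  have h1 : ((‖fc ψ a b‖ ^ 2 : ℝ) : ℂ) = fc ψ a b * starRingEnd ℂ (fc ψ a b) := by
    rw [Complex.mul_conj, Complex.normSq_eq_norm_sq]
  rw [h1, fc, map_div₀, map_sum, div_mul_div_comm, Finset.sum_mul_sum]
  congr 1
  · refine Finset.sum_congr rfl fun f _ => Finset.sum_congr rfl fun f' _ => ?_
    have h2 : starRingEnd ℂ ((a f' : ℂ) * ψ (- dot b f')) = (a f' : ℂ) * ψ (dot b f') := by
      rw [map_mul, Complex.conj_ofReal, ← AddChar.map_neg_eq_conj, neg_neg]
    rw [h2, dot_sub, sub_eq_add_neg, AddChar.map_add_eq_mul]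
    ring
  · rw [map_pow, Complex.conj_natCast]; ring

/-- **Plancherel for averages over a subspace.** -/
lemma quad (ψ : AddChar F ℂ) (hψ : ψ.IsPrimitive) (K : Submodule F (Fin n → F))
    (a : (Fin n → F) → ℝ) :
    ∑ b, (if Ann K b then ‖fc ψ a b‖ ^ 2 else 0) =
      (∑ f, a f * savg K a f) / (Fintype.card F : ℝ) ^ n := by
  have hq : (Fintype.card F : ℂ) ^ n ≠ 0 := by
    have := (qpos (F := F)).ne'
    exact pow_ne_zero _ (by exact_mod_cast this)
  have hK : (Fintype.card K : ℂ) ≠ 0 := by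
    have : Fintype.card K ≠ 0 := Fintype.card_ne_zero
    exact_mod_cast this
  have h1 : ∀ b, (((if Ann K b then ‖fc ψ a b‖ ^ 2 else 0 : ℝ)) : ℂ) =
      (∑ g : K, ψ (dot b g)) / (Fintype.card K : ℂ) *
        ((∑ f, ∑ f', (a f : ℂ) * (a f' : ℂ) * ψ (dot b (f' - f))) /
          ((Fintype.card F : ℂ) ^ n) ^ 2) := by
    intro b
    rw [sum_psi_sub ψ hψ]
    split_ifs with h
    · rw [div_self hK, one_mul, fc_normSq]
    · simp
  have h2 : ∀ (g : K) (f f' : Fin n → F), ∑ b : Fin n → F,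
      ψ (dot b g) * ((a f : ℂ) * (a f' : ℂ) * ψ (dot b (f' - f))) =
      if f' + g = f then (Fintype.card F : ℂ) ^ n * ((a f : ℂ) * (a f' : ℂ)) else 0 := by
    intro g f f'
    have h3 : ∀ b : Fin n → F, ψ (dot b g) * ((a f : ℂ) * (a f' : ℂ) * ψ (dot b (f' - f))) =
        (a f : ℂ) * (a f' : ℂ) * ψ (dot b (f' + g - f)) := by
      intro b
      have : dot b (f' + g - f) = dot b g + dot b (f' - f) := by
        rw [← dot_add]; congr 1; abel
      rw [this, AddChar.map_add_eq_mul]; ring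
    rw [Finset.sum_congr rfl fun b _ => h3 b, ← Finset.mul_sum, sum_psi_dot ψ hψ]
    by_cases h : f' + g - f = 0
    · rw [if_pos h, if_pos (sub_eq_zero.1 h)]; ring
    · rw [if_neg h, if_neg (fun h' => h (sub_eq_zero.2 h')), mul_zero]
  have h4 : ((∑ b, (if Ann K b then ‖fc ψ a b‖ ^ 2 else 0) : ℝ) : ℂ) =
      (((∑ f, a f * savg K a f) / (Fintype.card F : ℝ) ^ n : ℝ) : ℂ) := by
    rw [Complex.ofReal_sum, Finset.sum_congr rfl fun b _ => h1 b]
    calc ∑ b : Fin n → F, (∑ g : K, ψ (dot b g)) / (Fintype.card K : ℂ) *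
          ((∑ f, ∑ f', (a f : ℂ) * (a f' : ℂ) * ψ (dot b (f' - f))) /
            ((Fintype.card F : ℂ) ^ n) ^ 2)
        = (∑ b : Fin n → F, ∑ g : K, ∑ f, ∑ f',
            ψ (dot b g) * ((a f : ℂ) * (a f' : ℂ) * ψ (dot b (f' - f)))) /
            ((Fintype.card K : ℂ) * ((Fintype.card F : ℂ) ^ n) ^ 2) := by
          rw [Finset.sum_div]
          refine Finset.sum_congr rfl fun b _ => ?_
          rw [div_mul_div_comm, Finset.sum_mul]
          congr 1
          refine Finset.sum_congr rfl fun g _ => ?_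
          rw [Finset.mul_sum]
          refine Finset.sum_congr rfl fun f _ => ?_
          rw [Finset.mul_sum]
      _ = (∑ g : K, ∑ f, ∑ f', ∑ b : Fin n → F,
            ψ (dot b g) * ((a f : ℂ) * (a f' : ℂ) * ψ (dot b (f' - f)))) /
            ((Fintype.card K : ℂ) * ((Fintype.card F : ℂ) ^ n) ^ 2) := by
          congr 1
          rw [Finset.sum_comm]
          refine Finset.sum_congr rfl fun g _ => ?_
          rw [Finset.sum_comm]
          refine Finset.sum_congr rfl fun f _ => ?_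
          rw [Finset.sum_comm]
      _ = (∑ g : K, ∑ f', (Fintype.card F : ℂ) ^ n * ((a (f' + g) : ℂ) * (a f' : ℂ))) /
            ((Fintype.card K : ℂ) * ((Fintype.card F : ℂ) ^ n) ^ 2) := by
          congr 1
          refine Finset.sum_congr rfl fun g _ => ?_
          rw [Finset.sum_comm]
          refine Finset.sum_congr rfl fun f' _ => ?_
          rw [Finset.sum_congr rfl fun f _ => h2 g f f', Finset.sum_ite_eq]
          simp
      _ = (((∑ f, a f * savg K a f) / (Fintype.card F : ℝ) ^ n : ℝ) : ℂ) := by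
          have h5 : ∑ g : K, ∑ f' : Fin n → F,
              (Fintype.card F : ℂ) ^ n * ((a (f' + g) : ℂ) * (a f' : ℂ)) =
              (Fintype.card F : ℂ) ^ n * ((Fintype.card K : ℂ) * ∑ f, (a f : ℂ) *
                ((savg K a f : ℝ) : ℂ)) := by
            rw [Finset.sum_comm]
            rw [Finset.mul_sum, Finset.mul_sum]
            refine Finset.sum_congr rfl fun f _ => ?_
            rw [savg]
            push_cast
            rw [← Finset.mul_sum, ← Finset.sum_mul]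
            field_simp
          rw [h5]
          push_cast
          field_simp
  exact_mod_cast h4

/-- **Low degree weight of small sets.** -/
lemma low_weight (ψ : AddChar F ℂ) (hψ : ψ.IsPrimitive) (a : (Fin n → F) → ℝ)
    (h0 : ∀ f, 0 ≤ a f) (h1 : ∀ f, a f ≤ 1) (s : ℕ) :
    (∑ b, if wt b ≤ s then ‖fc ψ a b‖ ^ 2 else 0) ^ 2 ≤
      ((∑ f, a f) / (Fintype.card F : ℝ) ^ n) ^ 3 * (16 * (Fintype.card F : ℝ) ^ 2) ^ s := by
  set q : ℝ := (Fintype.card F : ℝ) with hq
  have hq0 : 0 < q := qpos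
  set K : ℝ := 16 * q ^ 2 with hK
  set c : (Fin n → F) → ℂ := fun b => if wt b ≤ s then fc ψ a b else 0 with hc
  set X : ℝ := ∑ b, if wt b ≤ s then ‖fc ψ a b‖ ^ 2 else 0 with hX
  have hX0 : 0 ≤ X := Finset.sum_nonneg fun b _ => by split_ifs <;> positivity
  have hXc : X = ∑ b, ‖c b‖ ^ 2 := by
    rw [hX]
    refine Finset.sum_congr rfl fun b _ => ?_
    rw [hc]
    simp only
    split_ifs <;> simp
  -- duality
  have h2 : ((q ^ n * X : ℝ) : ℂ) = ∑ f, (a f : ℂ) * starRingEnd ℂ (fsum ψ c f) := by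
    have e1 : ((X : ℝ) : ℂ) = ∑ b, fc ψ a b * starRingEnd ℂ (c b) := by
      rw [hX, Complex.ofReal_sum]
      refine Finset.sum_congr rfl fun b _ => ?_
      rw [hc]
      simp only
      split_ifs with h
      · rw [Complex.mul_conj, Complex.normSq_eq_norm_sq]
      · simp
    rw [Complex.ofReal_mul, e1, Finset.mul_sum]
    have e2 : ∀ b, ((q ^ n : ℝ) : ℂ) * (fc ψ a b * starRingEnd ℂ (c b)) =
        ∑ f, (a f : ℂ) * (starRingEnd ℂ (c b) * ψ (- dot b f)) := by
      intro b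
      have hqn : ((q ^ n : ℝ) : ℂ) ≠ 0 := by
        exact_mod_cast (pow_pos hq0 n).ne'
      rw [fc]
      have : ((Fintype.card F : ℂ) ^ n) = ((q ^ n : ℝ) : ℂ) := by rw [hq]; push_cast; rfl
      rw [this, Finset.sum_div, Finset.sum_mul, Finset.mul_sum]
      refine Finset.sum_congr rfl fun f _ => ?_
      field_simp
    rw [Finset.sum_congr rfl fun b _ => e2 b, Finset.sum_comm]
    refine Finset.sum_congr rfl fun f _ => ?_
    rw [fsum, map_sum, Finset.mul_sum]
    refine Finset.sum_congr rfl fun b _ => ?_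
    rw [map_mul, ← AddChar.map_neg_eq_conj]
    rfl
  have h3 : q ^ n * X ≤ ∑ f, a f * ‖fsum ψ c f‖ := by
    have e1 : q ^ n * X = ‖((q ^ n * X : ℝ) : ℂ)‖ := by
      rw [Complex.norm_real, Real.norm_eq_abs, abs_of_nonneg (by positivity)]
    rw [e1, h2]
    refine (norm_sum_le _ _).trans (le_of_eq ?_)
    refine Finset.sum_congr rfl fun f _ => ?_
    rw [norm_mul, Complex.norm_real, Real.norm_eq_abs, abs_of_nonneg (h0 f), Complex.norm_conj]
  have hA0 : 0 ≤ ∑ f, a f := Finset.sum_nonneg fun f _ => h0 f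
  -- two applications of Cauchy-Schwarz
  have hcs : ∀ g : (Fin n → F) → ℝ, (∑ f, a f * g f) ^ 2 ≤ (∑ f, a f) * ∑ f, a f * g f ^ 2 := by
    intro g
    have e1 := Finset.sum_mul_sq_le_sq_mul_sq Finset.univ (fun f => √(a f))
      (fun f => √(a f) * g f)
    have e2 : ∀ f, √(a f) * (√(a f) * g f) = a f * g f := fun f => by
      rw [← mul_assoc, Real.mul_self_sqrt (h0 f)]
    have e3 : ∀ f, √(a f) ^ 2 = a f := fun f => Real.sq_sqrt (h0 f)
    have e4 : ∀ f, (√(a f) * g f) ^ 2 = a f * g f ^ 2 := fun f => by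
      rw [mul_pow, e3]
    simp only [e2, e3, e4] at e1
    exact e1
  have h4 : (∑ f, a f * ‖fsum ψ c f‖) ^ 4 ≤ (∑ f, a f) ^ 3 * ∑ f, ‖fsum ψ c f‖ ^ 4 := by
    have e1 := hcs (fun f => ‖fsum ψ c f‖)
    have e2 := hcs (fun f => ‖fsum ψ c f‖ ^ 2)
    have e3 : ∑ f, a f * (‖fsum ψ c f‖ ^ 2) ^ 2 ≤ ∑ f, ‖fsum ψ c f‖ ^ 4 := by
      refine Finset.sum_le_sum fun f _ => ?_
      have : (‖fsum ψ c f‖ ^ 2) ^ 2 = ‖fsum ψ c f‖ ^ 4 := by ring
      rw [this]
      calc a f * ‖fsum ψ c f‖ ^ 4 ≤ 1 * ‖fsum ψ c f‖ ^ 4 :=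
            mul_le_mul_of_nonneg_right (h1 f) (by positivity)
        _ = _ := one_mul _
    calc (∑ f, a f * ‖fsum ψ c f‖) ^ 4 = ((∑ f, a f * ‖fsum ψ c f‖) ^ 2) ^ 2 := by ring
      _ ≤ ((∑ f, a f) * ∑ f, a f * ‖fsum ψ c f‖ ^ 2) ^ 2 :=
          pow_le_pow_left₀ (sq_nonneg _) e1 2
      _ = (∑ f, a f) ^ 2 * (∑ f, a f * ‖fsum ψ c f‖ ^ 2) ^ 2 := by ring
      _ ≤ (∑ f, a f) ^ 2 * ((∑ f, a f) * ∑ f, a f * (‖fsum ψ c f‖ ^ 2) ^ 2) :=
          mul_le_mul_of_nonneg_left e2 (sq_nonneg _)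
      _ = (∑ f, a f) ^ 3 * ∑ f, a f * (‖fsum ψ c f‖ ^ 2) ^ 2 := by ring
      _ ≤ (∑ f, a f) ^ 3 * ∑ f, ‖fsum ψ c f‖ ^ 4 :=
          mul_le_mul_of_nonneg_left e3 (by positivity)
  have h5 := hyper ψ hψ n s c (fun b hb => by
    rw [hc]; simp only; rw [if_neg (by omega)])
  rw [← hXc, ← hq, ← hK] at h5
  set δ := (∑ f, a f) / q ^ n with hδ
  have hδ' : ∑ f, a f = δ * q ^ n := by rw [hδ, div_mul_cancel₀ _ (pow_pos hq0 n).ne']
  have h6 : (q ^ n) ^ 4 * (X ^ 2 * X ^ 2) ≤ (q ^ n) ^ 4 * ((δ ^ 3 * K ^ s) * X ^ 2) := by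
    calc (q ^ n) ^ 4 * (X ^ 2 * X ^ 2) = (q ^ n * X) ^ 4 := by ring
      _ ≤ (∑ f, a f * ‖fsum ψ c f‖) ^ 4 := pow_le_pow_left₀ (by positivity) h3 4
      _ ≤ (∑ f, a f) ^ 3 * ∑ f, ‖fsum ψ c f‖ ^ 4 := h4
      _ ≤ (∑ f, a f) ^ 3 * (q ^ n * K ^ s * X ^ 2) :=
          mul_le_mul_of_nonneg_left h5 (by positivity)
      _ = (q ^ n) ^ 4 * ((δ ^ 3 * K ^ s) * X ^ 2) := by rw [hδ']; ring
  have h7 : X ^ 2 * X ^ 2 ≤ (δ ^ 3 * K ^ s) * X ^ 2 :=
    le_of_mul_le_mul_left h6 (by positivity)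
  rcases hX0.eq_or_lt with h8 | h8
  · rw [← h8]
    have : 0 ≤ δ ^ 3 * K ^ s := by positivity
    simpa using this
  · exact le_of_mul_le_mul_right h7 (by positivity)

end

end Pool.Agent.H76.DTO
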