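import Pool.Agent.H76.DTO.Defs

/-!
The basic semidefinite relaxation of d-to-1 Label Cover on constraint graphs of low threshold rank.
-/

namespace Pool.Agent.H76.DTO

open Finset
open scoped RealInnerProductSpace

noncomputable section

section Hilbert

variable {H : Type*} [NormedAddCommGroup H] [InnerProductSpace ℝ H]

/-- Pythagoras for the projection on the span of an orthogonal family. -/
lemma resid {ι : Type*} (s : Finset ι) (y : ι → H)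
    (ho : ∀ b ∈ s, ∀ b' ∈ s, b ≠ b' → ⟪y b, y b'⟫ = 0) (x : H) :
    ‖x - ∑ b ∈ s, (⟪x, y b⟫ / ‖y b‖ ^ 2) • y b‖ ^ 2 =
      ‖x‖ ^ 2 - ∑ b ∈ s, ⟪x, y b⟫ ^ 2 / ‖y b‖ ^ 2 := by
  rw [norm_sub_sq_real, inner_sum]
  have h1 : ∑ b ∈ s, ⟪x, (⟪x, y b⟫ / ‖y b‖ ^ 2) • y b⟫ =
      ∑ b ∈ s, ⟪x, y b⟫ ^ 2 / ‖y b‖ ^ 2 := by
    refine Finset.sum_congr rfl fun b _ => ?_
    rw [inner_smul_right]; ring
  have h2 : ‖∑ b ∈ s, (⟪x, y b⟫ / ‖y b‖ ^ 2) • y b‖ ^ 2 =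
      ∑ b ∈ s, ⟪x, y b⟫ ^ 2 / ‖y b‖ ^ 2 := by
    rw [← real_inner_self_eq_norm_sq, sum_inner]
    refine Finset.sum_congr rfl fun b hb => ?_
    rw [inner_sum, Finset.sum_eq_single b]
    · rw [inner_smul_left, inner_smul_right, real_inner_self_eq_norm_sq]
      simp only [conj_trivial]
      by_cases h : ‖y b‖ ^ 2 = 0
      · rw [h]; simp
      · field_simp
    · intro b' hb' hne
      rw [inner_smul_left, inner_smul_right, ho b hb b' hb' (Ne.symm hne)]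
      simp
    · intro h; exact absurd hb h
  rw [h1, h2]; ring

/-- Bessel's inequality. -/
lemma bessel {ι : Type*} (s : Finset ι) (y : ι → H)
    (ho : ∀ b ∈ s, ∀ b' ∈ s, b ≠ b' → ⟪y b, y b'⟫ = 0) (x : H) :
    ∑ b ∈ s, ⟪x, y b⟫ ^ 2 / ‖y b‖ ^ 2 ≤ ‖x‖ ^ 2 := by
  have := resid s y ho x
  nlinarith [sq_nonneg ‖x - ∑ b ∈ s, (⟪x, y b⟫ / ‖y b‖ ^ 2) • y b‖]

/-- Splitting an inner product along the span of an orthogonal family. -/
lemma split_inner {ι : Type*} (s : Finset ι) (y : ι → H)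
    (ho : ∀ b ∈ s, ∀ b' ∈ s, b ≠ b' → ⟪y b, y b'⟫ = 0) (x u : H) :
    ⟪x, u⟫ ≤ ‖x‖ * √(∑ b ∈ s, ⟪u, y b⟫ ^ 2 / ‖y b‖ ^ 2) +
      √(‖x‖ ^ 2 - ∑ b ∈ s, ⟪x, y b⟫ ^ 2 / ‖y b‖ ^ 2) * ‖u‖ := by
  set w := ∑ b ∈ s, (⟪x, y b⟫ / ‖y b‖ ^ 2) • y b with hw
  have h0 : ⟪x, u⟫ = ⟪w, u⟫ + ⟪x - w, u⟫ := by rw [inner_sub_left]; ring
  have h1 : ⟪x - w, u⟫ ≤ √(‖x‖ ^ 2 - ∑ b ∈ s, ⟪x, y b⟫ ^ 2 / ‖y b‖ ^ 2) * ‖u‖ := by
    rw [← resid s y ho x, Real.sqrt_sq (norm_nonneg _)]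
    exact real_inner_le_norm _ _
  have h2 : ⟪w, u⟫ ≤ ‖x‖ * √(∑ b ∈ s, ⟪u, y b⟫ ^ 2 / ‖y b‖ ^ 2) := by
    have e1 : ⟪w, u⟫ = ∑ b ∈ s, (⟪x, y b⟫ / ‖y b‖) * (⟪u, y b⟫ / ‖y b‖) := by
      rw [hw, sum_inner]
      refine Finset.sum_congr rfl fun b _ => ?_
      rw [inner_smul_left, real_inner_comm u (y b)]
      simp only [conj_trivial]
      ring
    rw [e1]
    have e2 := Real.sum_mul_le_sqrt_mul_sqrt s (fun b => ⟪x, y b⟫ / ‖y b‖)
      (fun b => ⟪u, y b⟫ / ‖y b‖)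
    refine e2.trans ?_
    have e3 : √(∑ b ∈ s, (⟪x, y b⟫ / ‖y b‖) ^ 2) ≤ ‖x‖ := by
      rw [Real.sqrt_le_left (norm_nonneg _)]
      have := bessel s y ho x
      simpa [div_pow] using this
    have e4 : ∑ b ∈ s, (⟪u, y b⟫ / ‖y b‖) ^ 2 = ∑ b ∈ s, ⟪u, y b⟫ ^ 2 / ‖y b‖ ^ 2 := by
      simp [div_pow]
    rw [e4]
    exact mul_le_mul_of_nonneg_right e3 (Real.sqrt_nonneg _)
  linarith

end Hilbert

section Spectral

variable {E V W : Type*} [Fintype E]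

/-- The vector of values of a function on the left vertices, read at the left endpoints of the
edges. -/
def lift (l : E → V) : (V → ℝ) →ₗ[ℝ] EuclideanSpace ℝ E where
  toFun f := WithLp.toLp 2 (fun e => f (l e))
  map_add' f g := by ext e; simp
  map_smul' c f := by ext e; simp

omit [Fintype E] in
lemma lift_apply (l : E → V) (f : V → ℝ) (e : E) : lift l f e = f (l e) := rfl

lemma inner_apply' (x y : EuclideanSpace ℝ E) : ⟪x, y⟫ = ∑ e, x e * y e := by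
  rw [PiLp.inner_apply]
  refine Finset.sum_congr rfl fun e _ => ?_
  simp [mul_comm]

lemma norm_sq_proj (U : Submodule ℝ (EuclideanSpace ℝ E)) (x : EuclideanSpace ℝ E) :
    ‖U.starProjection x‖ ^ 2 =
      ∑ i, ⟪((stdOrthonormalBasis ℝ U i : U) : EuclideanSpace ℝ E), x⟫ ^ 2 := by
  have h2 : ‖U.starProjection x‖ ^ 2 = ‖U.orthogonalProjectionOnto x‖ ^ 2 := rfl
  rw [h2, ← (stdOrthonormalBasis ℝ U).sum_sq_inner_right]
  refine Finset.sum_congr rfl fun i _ => ?_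
  rw [Submodule.inner_orthogonalProjectionOnto_eq_of_mem_left]

/-- The second moment of the kernel is bounded below by the mass on a low dimensional space. -/
lemma hs_bound {τ : Type*} [Fintype τ] (F : τ → EuclideanSpace ℝ E)
    (U : Submodule ℝ (EuclideanSpace ℝ E)) :
    (∑ t, ‖U.starProjection (F t)‖ ^ 2) ^ 2 ≤
      (Module.finrank ℝ U : ℝ) * ∑ p : E × E, (∑ t, F t p.1 * F t p.2) ^ 2 := by
  set b : Fin (Module.finrank ℝ U) → EuclideanSpace ℝ E :=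
    fun i => ((stdOrthonormalBasis ℝ U i : U) : EuclideanSpace ℝ E) with hb
  have hbo : ∀ i j, ⟪b i, b j⟫ = if i = j then (1 : ℝ) else 0 := by
    intro i j
    have := (orthonormal_iff_ite.1 (stdOrthonormalBasis ℝ U).orthonormal) i j
    exact this
  have h1 : ∑ t, ‖U.starProjection (F t)‖ ^ 2 =
      ∑ p : E × E, (∑ i, b i p.1 * b i p.2) * (∑ t, F t p.1 * F t p.2) := by
    have h2 : ∀ t i, ⟪b i, F t⟫ ^ 2 =
        ∑ p : E × E, (b i p.1 * b i p.2) * (F t p.1 * F t p.2) := by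
      intro t i
      rw [inner_apply', sq, Finset.sum_mul_sum, Fintype.sum_prod_type]
      refine Finset.sum_congr rfl fun e _ => Finset.sum_congr rfl fun e' _ => ?_
      ring
    calc ∑ t, ‖U.starProjection (F t)‖ ^ 2
        = ∑ t, ∑ i, ∑ p : E × E, (b i p.1 * b i p.2) * (F t p.1 * F t p.2) := by
          refine Finset.sum_congr rfl fun t _ => ?_
          rw [norm_sq_proj]
          exact Finset.sum_congr rfl fun i _ => h2 t i
      _ = ∑ p : E × E, ∑ i, ∑ t, (b i p.1 * b i p.2) * (F t p.1 * F t p.2) := by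
          rw [Finset.sum_comm]
          rw [Finset.sum_congr rfl fun i _ => Finset.sum_comm]
          rw [Finset.sum_comm]
      _ = _ := by
          refine Finset.sum_congr rfl fun p _ => ?_
          rw [Finset.sum_mul_sum]
  have h3 : ∑ p : E × E, (∑ i, b i p.1 * b i p.2) ^ 2 = Module.finrank ℝ U := by
    calc ∑ p : E × E, (∑ i, b i p.1 * b i p.2) ^ 2
        = ∑ p : E × E, ∑ i, ∑ j, (b i p.1 * b j p.1) * (b i p.2 * b j p.2) := by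
          refine Finset.sum_congr rfl fun p _ => ?_
          rw [sq, Finset.sum_mul_sum]
          refine Finset.sum_congr rfl fun i _ => Finset.sum_congr rfl fun j _ => ?_
          ring
      _ = ∑ i, ∑ j, ∑ p : E × E, (b i p.1 * b j p.1) * (b i p.2 * b j p.2) := by
          rw [Finset.sum_comm]
          refine Finset.sum_congr rfl fun i _ => ?_
          rw [Finset.sum_comm]
      _ = ∑ i, ∑ j, ⟪b i, b j⟫ ^ 2 := by
          refine Finset.sum_congr rfl fun i _ => Finset.sum_congr rfl fun j _ => ?_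
          rw [inner_apply', sq, Finset.sum_mul_sum, Fintype.sum_prod_type]
      _ = _ := by
          simp [hbo]
  rw [h1]
  refine (Finset.sum_mul_sq_le_sq_mul_sq _ _ _).trans ?_
  rw [h3]

lemma norm_sq_lift (l : E → V) (f : V → ℝ) : ‖lift l f‖ ^ 2 = ∑ e, f (l e) ^ 2 := by
  rw [EuclideanSpace.norm_sq_eq]
  exact Finset.sum_congr rfl fun e _ => by rw [lift_apply, Real.norm_eq_abs, sq_abs]

/-- The spectral step: a bounded vector valued function correlated along the edges has, on a graph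
of low threshold rank, a kernel with large second moment. -/
lemma kernel_bound {τ : Type*} [Fintype τ] (l : E → V) (r : E → W) (m : ℕ) (σ κ : ℝ)
    (hσ : 0 ≤ σ) (hκ : σ ≤ κ) (u : Fin m → V → ℝ)
    (hu : ∀ (f : V → ℝ) (g : W → ℝ), (∀ i, ∑ e, u i (l e) * f (l e) = 0) →
      ∑ e, f (l e) * g (r e) ≤ σ * √(∑ e, f (l e) ^ 2) * √(∑ e, g (r e) ^ 2))
    (F : V → τ → ℝ) (G : W → τ → ℝ) (hF : ∀ v, ∑ t, F v t ^ 2 ≤ 1) (hG : ∀ w, ∑ t, G w t ^ 2 ≤ 1)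
    (hFG : κ * Fintype.card E ≤ ∑ e, ∑ t, F (l e) t * G (r e) t) :
    (Fintype.card E : ℝ) ^ 2 * (κ - σ) ^ 4 ≤
      m * ∑ p : E × E, (∑ t, F (l p.1) t * F (l p.2) t) ^ 2 := by
  set n : ℝ := (Fintype.card E : ℝ) with hn
  have hn0 : 0 ≤ n := by positivity
  set U : Submodule ℝ (EuclideanSpace ℝ E) :=
    Submodule.map (lift l) (Submodule.span ℝ (Set.range u)) with hU
  set Ft : τ → EuclideanSpace ℝ E := fun t => lift l (fun v => F v t) with hFt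
  set Gt : τ → EuclideanSpace ℝ E := fun t => lift r (fun w => G w t) with hGt
  have hrank : (Module.finrank ℝ U : ℝ) ≤ m := by
    have : FiniteDimensional ℝ (Submodule.span ℝ (Set.range u)) :=
      FiniteDimensional.span_of_finite ℝ (Set.finite_range u)
    have h1 : Module.finrank ℝ U ≤ Module.finrank ℝ (Submodule.span ℝ (Set.range u)) :=
      Submodule.finrank_map_le _ _
    have h2 := finrank_range_le_card (R := ℝ) u
    rw [Set.finrank, Fintype.card_fin] at h2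
    exact_mod_cast h1.trans h2
  have hS1 : ∑ t, ‖Ft t‖ ^ 2 ≤ n := by
    have h1 : ∑ t, ‖Ft t‖ ^ 2 = ∑ e, ∑ t, F (l e) t ^ 2 := by
      rw [Finset.sum_comm]
      exact Finset.sum_congr rfl fun t _ => norm_sq_lift l _
    rw [h1]
    calc ∑ e, ∑ t, F (l e) t ^ 2 ≤ ∑ _e : E, (1 : ℝ) := Finset.sum_le_sum fun e _ => hF _
      _ = n := by simp [hn]
  have hS2 : ∑ t, ‖Gt t‖ ^ 2 ≤ n := by
    have h1 : ∑ t, ‖Gt t‖ ^ 2 = ∑ e, ∑ t, G (r e) t ^ 2 := by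
      rw [Finset.sum_comm]
      exact Finset.sum_congr rfl fun t _ => norm_sq_lift r _
    rw [h1]
    calc ∑ e, ∑ t, G (r e) t ^ 2 ≤ ∑ _e : E, (1 : ℝ) := Finset.sum_le_sum fun e _ => hG _
      _ = n := by simp [hn]
  have hterm : ∀ t, ⟪Ft t, Gt t⟫ ≤ ‖U.starProjection (Ft t)‖ * ‖Gt t‖ +
      σ * (‖Ft t‖ * ‖Gt t‖) := by
    intro t
    obtain ⟨h, _, hh⟩ := Submodule.mem_map.1 (Submodule.starProjection_apply_mem U (Ft t))
    have hq : Ft t - U.starProjection (Ft t) = lift l (fun v => F v t - h v) := by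
      rw [← hh, hFt]
      simp only
      rw [← map_sub]
      rfl
    have horth : ∀ w ∈ U, ⟪Ft t - U.starProjection (Ft t), w⟫ = 0 :=
      fun w hw => Submodule.starProjection_inner_eq_zero _ _ hw
    have hcond : ∀ i, ∑ e, u i (l e) * (F (l e) t - h (l e)) = 0 := by
      intro i
      have h1 := horth (lift l (u i))
        (Submodule.mem_map_of_mem (Submodule.subset_span (Set.mem_range_self i)))
      rw [hq, inner_apply'] at h1
      rw [← h1]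
      refine Finset.sum_congr rfl fun e _ => ?_
      rw [lift_apply, lift_apply]; ring
    have h2 := hu (fun v => F v t - h v) (fun w => G w t) hcond
    have h3 : ⟪Ft t - U.starProjection (Ft t), Gt t⟫ ≤
        σ * ‖Ft t - U.starProjection (Ft t)‖ * ‖Gt t‖ := by
      have e1 : √(∑ e, (F (l e) t - h (l e)) ^ 2) = ‖Ft t - U.starProjection (Ft t)‖ := by
        rw [hq, ← Real.sqrt_sq (norm_nonneg (lift l fun v => F v t - h v)), norm_sq_lift]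
      have e2 : √(∑ e, (G (r e) t) ^ 2) = ‖Gt t‖ := by
        rw [hGt]
        simp only
        rw [← Real.sqrt_sq (norm_nonneg (lift r fun w => G w t)), norm_sq_lift]
      have e3 : ⟪Ft t - U.starProjection (Ft t), Gt t⟫ =
          ∑ e, (F (l e) t - h (l e)) * G (r e) t := by
        rw [hq, inner_apply']
        rfl
      rw [e3, ← e1, ← e2]
      exact h2
    have h4 : ‖Ft t - U.starProjection (Ft t)‖ ≤ ‖Ft t‖ := by
      have h5 : ‖Ft t‖ ^ 2 = ‖Ft t - U.starProjection (Ft t)‖ ^ 2 +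
          ‖U.starProjection (Ft t)‖ ^ 2 := by
        have h6 := norm_add_sq_real (Ft t - U.starProjection (Ft t)) (U.starProjection (Ft t))
        rw [sub_add_cancel, horth _ (Submodule.starProjection_apply_mem U (Ft t))] at h6
        linarith
      nlinarith [norm_nonneg (Ft t), norm_nonneg (Ft t - U.starProjection (Ft t)),
        sq_nonneg ‖U.starProjection (Ft t)‖]
    have h7 : ⟪Ft t, Gt t⟫ = ⟪U.starProjection (Ft t), Gt t⟫ +
        ⟪Ft t - U.starProjection (Ft t), Gt t⟫ := by rw [inner_sub_left]; ring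
    have h8 := real_inner_le_norm (U.starProjection (Ft t)) (Gt t)
    have h9 : σ * ‖Ft t - U.starProjection (Ft t)‖ * ‖Gt t‖ ≤ σ * (‖Ft t‖ * ‖Gt t‖) := by
      rw [mul_assoc]
      exact mul_le_mul_of_nonneg_left (mul_le_mul_of_nonneg_right h4 (norm_nonneg _)) hσ
    linarith
  set S := ∑ t, ‖U.starProjection (Ft t)‖ ^ 2 with hS
  have hS0 : 0 ≤ S := Finset.sum_nonneg fun t _ => sq_nonneg _
  have hmain : κ * n ≤ √S * √n + σ * n := by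
    have h1 : ∑ e, ∑ t, F (l e) t * G (r e) t = ∑ t, ⟪Ft t, Gt t⟫ := by
      rw [Finset.sum_comm]
      refine Finset.sum_congr rfl fun t _ => ?_
      rw [inner_apply']
      rfl
    rw [h1] at hFG
    refine hFG.trans ((Finset.sum_le_sum fun t _ => hterm t).trans ?_)
    rw [Finset.sum_add_distrib, ← Finset.mul_sum]
    have h2 := Real.sum_mul_le_sqrt_mul_sqrt Finset.univ (fun t => ‖U.starProjection (Ft t)‖)
      (fun t => ‖Gt t‖)
    have h3 := Real.sum_mul_le_sqrt_mul_sqrt Finset.univ (fun t => ‖Ft t‖) (fun t => ‖Gt t‖)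
    have h4 : √(∑ t, ‖Gt t‖ ^ 2) ≤ √n := Real.sqrt_le_sqrt hS2
    have h5 : √(∑ t, ‖Ft t‖ ^ 2) ≤ √n := Real.sqrt_le_sqrt hS1
    have h6 : √(∑ t, ‖Ft t‖ ^ 2) * √(∑ t, ‖Gt t‖ ^ 2) ≤ n := by
      calc _ ≤ √n * √n := mul_le_mul h5 h4 (Real.sqrt_nonneg _) (Real.sqrt_nonneg _)
        _ = n := Real.mul_self_sqrt hn0
    have h7 : √(∑ t, ‖U.starProjection (Ft t)‖ ^ 2) * √(∑ t, ‖Gt t‖ ^ 2) ≤ √S * √n :=
      mul_le_mul_of_nonneg_left h4 (Real.sqrt_nonneg _)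
    exact add_le_add (h2.trans h7) (mul_le_mul_of_nonneg_left (h3.trans h6) hσ)
  have hSn : (κ - σ) ^ 2 * n ≤ S := by
    rcases hn0.eq_or_lt with h0 | hpos
    · rw [← h0, mul_zero]; exact hS0
    · have h1 : (κ - σ) * n ≤ √S * √n := by linarith
      have h2 : ((κ - σ) * n) ^ 2 ≤ (√S * √n) ^ 2 :=
        pow_le_pow_left₀ (mul_nonneg (sub_nonneg.2 hκ) hn0) h1 2
      rw [mul_pow (√S), Real.sq_sqrt hS0, Real.sq_sqrt hn0] at h2
      have h3 : ((κ - σ) ^ 2 * n) * n ≤ S * n := by nlinarith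
      exact le_of_mul_le_mul_right h3 hpos
  have h1 := hs_bound Ft U
  have h2 : ∑ p : E × E, (∑ t, Ft t p.1 * Ft t p.2) ^ 2 =
      ∑ p : E × E, (∑ t, F (l p.1) t * F (l p.2) t) ^ 2 := rfl
  rw [h2] at h1
  have h3 : n ^ 2 * (κ - σ) ^ 4 ≤ S ^ 2 := by
    have h4 : ((κ - σ) ^ 2 * n) ^ 2 ≤ S ^ 2 :=
      pow_le_pow_left₀ (mul_nonneg (sq_nonneg _) hn0) hSn 2
    nlinarith
  refine h3.trans (h1.trans ?_)
  exact mul_le_mul_of_nonneg_right hrank (Finset.sum_nonneg fun p _ => sq_nonneg _)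

end Spectral

section Features

variable {N : ℕ} {α β : Type*} [Fintype α] [Fintype β]

/-- Quadratic features. -/
def feat2 (x : α → EuclideanSpace ℝ (Fin N)) (t : Fin N × Fin N) : ℝ :=
  ∑ a, x a t.1 * x a t.2 / ‖x a‖

/-- Cubic features. -/
def feat3 (x : α → EuclideanSpace ℝ (Fin N)) (t : Fin N × Fin N × Fin N) : ℝ :=
  ∑ a, x a t.1 * x a t.2.1 * x a t.2.2 / ‖x a‖ ^ 2

lemma feat2_inner (x : α → EuclideanSpace ℝ (Fin N)) (y : β → EuclideanSpace ℝ (Fin N)) :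
    ∑ t, feat2 x t * feat2 y t = ∑ a, ∑ b, ⟪x a, y b⟫ ^ 2 / (‖x a‖ * ‖y b‖) := by
  have h1 : ∀ t, feat2 x t * feat2 y t =
      ∑ a, ∑ b, (x a t.1 * y b t.1) * (x a t.2 * y b t.2) / (‖x a‖ * ‖y b‖) := by
    intro t
    rw [feat2, feat2, Finset.sum_mul_sum]
    refine Finset.sum_congr rfl fun a _ => Finset.sum_congr rfl fun b _ => ?_
    rw [div_mul_div_comm]; ring
  rw [Finset.sum_congr rfl fun t _ => h1 t, Finset.sum_comm]
  refine Finset.sum_congr rfl fun a _ => ?_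
  rw [Finset.sum_comm]
  refine Finset.sum_congr rfl fun b _ => ?_
  rw [← Finset.sum_div, inner_apply', sq, Finset.sum_mul_sum, Fintype.sum_prod_type]

lemma cube_sum (c : Fin N → ℝ) :
    (∑ i, c i) ^ 3 = ∑ t : Fin N × Fin N × Fin N, c t.1 * (c t.2.1 * c t.2.2) := by
  rw [Fintype.sum_prod_type]
  simp only [Fintype.sum_prod_type, ← Finset.mul_sum]
  rw [← Finset.sum_mul, ← Finset.sum_mul]
  ring

lemma feat3_inner (x : α → EuclideanSpace ℝ (Fin N)) (y : β → EuclideanSpace ℝ (Fin N)) :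
    ∑ t, feat3 x t * feat3 y t = ∑ a, ∑ b, ⟪x a, y b⟫ ^ 3 / (‖x a‖ ^ 2 * ‖y b‖ ^ 2) := by
  have h1 : ∀ t, feat3 x t * feat3 y t =
      ∑ a, ∑ b, (x a t.1 * y b t.1) * ((x a t.2.1 * y b t.2.1) * (x a t.2.2 * y b t.2.2)) /
        (‖x a‖ ^ 2 * ‖y b‖ ^ 2) := by
    intro t
    rw [feat3, feat3, Finset.sum_mul_sum]
    refine Finset.sum_congr rfl fun a _ => Finset.sum_congr rfl fun b _ => ?_
    rw [div_mul_div_comm]; ring
  rw [Finset.sum_congr rfl fun t _ => h1 t, Finset.sum_comm]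
  refine Finset.sum_congr rfl fun a _ => ?_
  rw [Finset.sum_comm]
  refine Finset.sum_congr rfl fun b _ => ?_
  rw [← Finset.sum_div, inner_apply', cube_sum]

lemma self2 (x : α → EuclideanSpace ℝ (Fin N)) (ho : ∀ a a', a ≠ a' → ⟪x a, x a'⟫ = 0) :
    ∑ a, ∑ a', ⟪x a, x a'⟫ ^ 2 / (‖x a‖ * ‖x a'‖) = ∑ a, ‖x a‖ ^ 2 := by
  refine Finset.sum_congr rfl fun a _ => ?_
  rw [Finset.sum_eq_single a]
  · rw [real_inner_self_eq_norm_sq]
    by_cases h : ‖x a‖ = 0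
    · simp [h]
    · field_simp
  · intro a' _ hne
    rw [ho a a' (Ne.symm hne)]; simp
  · intro h; exact absurd (Finset.mem_univ _) h

lemma self3 (x : α → EuclideanSpace ℝ (Fin N)) (ho : ∀ a a', a ≠ a' → ⟪x a, x a'⟫ = 0) :
    ∑ a, ∑ a', ⟪x a, x a'⟫ ^ 3 / (‖x a‖ ^ 2 * ‖x a'‖ ^ 2) = ∑ a, ‖x a‖ ^ 2 := by
  refine Finset.sum_congr rfl fun a _ => ?_
  rw [Finset.sum_eq_single a]
  · rw [real_inner_self_eq_norm_sq]
    by_cases h : ‖x a‖ = 0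
    · simp [h]
    · field_simp
  · intro a' _ hne
    rw [ho a a' (Ne.symm hne)]; simp
  · intro h; exact absurd (Finset.mem_univ _) h

lemma sum_comp_le [DecidableEq α] (π : β → α) (d : ℕ)
    (hd : ∀ a, (Finset.univ.filter (fun b => π b = a)).card ≤ d) (f : α → ℝ)
    (hf : ∀ a, 0 ≤ f a) : ∑ b, f (π b) ≤ d * ∑ a, f a := by
  rw [← Finset.sum_fiberwise Finset.univ π (fun b => f (π b)), Finset.mul_sum]
  refine Finset.sum_le_sum fun a _ => ?_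
  have h1 : ∑ b ∈ Finset.univ.filter (fun b => π b = a), f (π b) =
      (Finset.univ.filter (fun b => π b = a)).card * f a := by
    rw [Finset.sum_congr rfl (g := fun _ => f a)]
    · simp
    · intro b hb; rw [(Finset.mem_filter.1 hb).2]
  rw [h1]
  exact mul_le_mul_of_nonneg_right (by exact_mod_cast hd a) (hf a)

/-- The products of norms across a `d`-to-1 map. -/
lemma norm_prod_le [DecidableEq α] (x : α → EuclideanSpace ℝ (Fin N))
    (y : β → EuclideanSpace ℝ (Fin N)) (π : β → α) (d : ℕ)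
    (hd : ∀ a, (Finset.univ.filter (fun b => π b = a)).card ≤ d)
    (hx : ∑ a, ‖x a‖ ^ 2 ≤ 1) (hy : ∑ b, ‖y b‖ ^ 2 ≤ 1) :
    ∑ b, ‖x (π b)‖ * ‖y b‖ ≤ √d := by
  refine (Real.sum_mul_le_sqrt_mul_sqrt Finset.univ (fun b => ‖x (π b)‖) (fun b => ‖y b‖)).trans ?_
  have h1 : √(∑ b, ‖x (π b)‖ ^ 2) ≤ √d := by
    refine Real.sqrt_le_sqrt ?_
    refine (sum_comp_le π d hd (fun a => ‖x a‖ ^ 2) (fun a => sq_nonneg _)).trans ?_
    have : (0 : ℝ) ≤ d := Nat.cast_nonneg d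
    nlinarith
  have h2 : √(∑ b, ‖y b‖ ^ 2) ≤ 1 := by
    calc √(∑ b, ‖y b‖ ^ 2) ≤ √1 := Real.sqrt_le_sqrt hy
      _ = 1 := Real.sqrt_one
  calc _ ≤ √d * 1 := mul_le_mul h1 h2 (Real.sqrt_nonneg _) (Real.sqrt_nonneg _)
    _ = √d := mul_one _

lemma edge2 [DecidableEq α] (x : α → EuclideanSpace ℝ (Fin N))
    (y : β → EuclideanSpace ℝ (Fin N)) (π : β → α) (d : ℕ) (hd0 : 0 < d)
    (hd : ∀ a, (Finset.univ.filter (fun b => π b = a)).card ≤ d)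
    (hx : ∑ a, ‖x a‖ ^ 2 ≤ 1) (hy : ∑ b, ‖y b‖ ^ 2 ≤ 1) :
    (2 * ∑ b, ⟪x (π b), y b⟫ - 1) / √d ≤ ∑ a, ∑ b, ⟪x a, y b⟫ ^ 2 / (‖x a‖ * ‖y b‖) := by
  have hdp : (0 : ℝ) < √d := Real.sqrt_pos.2 (by exact_mod_cast hd0)
  have h1 : ∑ b, ⟪x (π b), y b⟫ ^ 2 / (‖x (π b)‖ * ‖y b‖) ≤
      ∑ a, ∑ b, ⟪x a, y b⟫ ^ 2 / (‖x a‖ * ‖y b‖) := by
    rw [Finset.sum_comm]
    refine Finset.sum_le_sum fun b _ => ?_
    exact Finset.single_le_sum (f := fun a => ⟪x a, y b⟫ ^ 2 / (‖x a‖ * ‖y b‖))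
      (fun a _ => by positivity) (Finset.mem_univ (π b))
  refine le_trans ?_ h1
  have h2 : ∀ b, 2 * (1 / √d) * ⟪x (π b), y b⟫ - (1 / √d) ^ 2 * (‖x (π b)‖ * ‖y b‖) ≤
      ⟪x (π b), y b⟫ ^ 2 / (‖x (π b)‖ * ‖y b‖) := by
    intro b
    have hcs := abs_real_inner_le_norm (x (π b)) (y b)
    rcases (mul_nonneg (norm_nonneg (x (π b))) (norm_nonneg (y b))).eq_or_lt with h0 | hpos
    · rw [← h0] at hcs ⊢
      have : ⟪x (π b), y b⟫ = 0 := abs_eq_zero.1 (le_antisymm hcs (abs_nonneg _))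
      rw [this]; simp
    · rw [le_div_iff₀ hpos]
      nlinarith [sq_nonneg (⟪x (π b), y b⟫ - (1 / √d) * (‖x (π b)‖ * ‖y b‖))]
  refine le_trans ?_ (Finset.sum_le_sum fun b _ => h2 b)
  rw [Finset.sum_sub_distrib, ← Finset.mul_sum, ← Finset.mul_sum]
  have h3 := norm_prod_le x y π d hd hx hy
  have h4 : (1 / √(d : ℝ)) ^ 2 * ∑ b, ‖x (π b)‖ * ‖y b‖ ≤ 1 / √d := by
    calc (1 / √(d : ℝ)) ^ 2 * ∑ b, ‖x (π b)‖ * ‖y b‖ ≤ (1 / √(d : ℝ)) ^ 2 * √d :=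
          mul_le_mul_of_nonneg_left h3 (sq_nonneg _)
      _ = 1 / √d := by field_simp
  have h5 : (2 * ∑ b, ⟪x (π b), y b⟫ - 1) / √d =
      2 * (1 / √d) * ∑ b, ⟪x (π b), y b⟫ - 1 / √d := by ring
  rw [h5]; linarith

lemma edge3 [DecidableEq α] (x : α → EuclideanSpace ℝ (Fin N))
    (y : β → EuclideanSpace ℝ (Fin N)) (π : β → α) (d : ℕ) (hd0 : 0 < d)
    (hd : ∀ a, (Finset.univ.filter (fun b => π b = a)).card ≤ d)
    (hx : ∑ a, ‖x a‖ ^ 2 ≤ 1) (hy : ∑ b, ‖y b‖ ^ 2 ≤ 1) (hn : ∀ a b, 0 ≤ ⟪x a, y b⟫) :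
    (3 * ∑ b, ⟪x (π b), y b⟫ - 2) / d ≤
      ∑ a, ∑ b, ⟪x a, y b⟫ ^ 3 / (‖x a‖ ^ 2 * ‖y b‖ ^ 2) := by
  have hdp : (0 : ℝ) < √d := Real.sqrt_pos.2 (by exact_mod_cast hd0)
  have hdd : √(d : ℝ) ^ 2 = d := Real.sq_sqrt (Nat.cast_nonneg d)
  have h1 : ∑ b, ⟪x (π b), y b⟫ ^ 3 / (‖x (π b)‖ ^ 2 * ‖y b‖ ^ 2) ≤
      ∑ a, ∑ b, ⟪x a, y b⟫ ^ 3 / (‖x a‖ ^ 2 * ‖y b‖ ^ 2) := by
    rw [Finset.sum_comm]
    refine Finset.sum_le_sum fun b _ => ?_
    exact Finset.single_le_sum (f := fun a => ⟪x a, y b⟫ ^ 3 / (‖x a‖ ^ 2 * ‖y b‖ ^ 2))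
      (fun a _ => div_nonneg (pow_nonneg (hn a b) 3) (by positivity)) (Finset.mem_univ (π b))
  refine le_trans ?_ h1
  have h2 : ∀ b, 3 * (1 / √d) ^ 2 * ⟪x (π b), y b⟫ - 2 * (1 / √d) ^ 3 * (‖x (π b)‖ * ‖y b‖) ≤
      ⟪x (π b), y b⟫ ^ 3 / (‖x (π b)‖ ^ 2 * ‖y b‖ ^ 2) := by
    intro b
    have hcs := abs_real_inner_le_norm (x (π b)) (y b)
    have hs := hn (π b) b
    have ht : (0 : ℝ) ≤ 1 / √d := by positivity
    rcases (mul_nonneg (norm_nonneg (x (π b))) (norm_nonneg (y b))).eq_or_lt with h0 | hpos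
    · have h00 : ‖x (π b)‖ ^ 2 * ‖y b‖ ^ 2 = 0 := by rw [← mul_pow, ← h0]; ring
      rw [← h0] at hcs ⊢
      rw [h00]
      have : ⟪x (π b), y b⟫ = 0 := abs_eq_zero.1 (le_antisymm hcs (abs_nonneg _))
      rw [this]; simp
    · rw [← mul_pow, le_div_iff₀ (pow_pos hpos 2)]
      set s := ⟪x (π b), y b⟫
      set q := ‖x (π b)‖ * ‖y b‖
      set t := 1 / √(d : ℝ)
      have : 0 ≤ (s - t * q) ^ 2 * (s + 2 * (t * q)) :=
        mul_nonneg (sq_nonneg _) (by positivity)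
      nlinarith
  refine le_trans ?_ (Finset.sum_le_sum fun b _ => h2 b)
  rw [Finset.sum_sub_distrib, ← Finset.mul_sum, ← Finset.mul_sum]
  have h3 := norm_prod_le x y π d hd hx hy
  have h4 : 2 * (1 / √(d : ℝ)) ^ 3 * ∑ b, ‖x (π b)‖ * ‖y b‖ ≤ 2 / d := by
    calc 2 * (1 / √(d : ℝ)) ^ 3 * ∑ b, ‖x (π b)‖ * ‖y b‖ ≤ 2 * (1 / √(d : ℝ)) ^ 3 * √d :=
          mul_le_mul_of_nonneg_left h3 (by positivity)
      _ = 2 / √d ^ 2 := by field_simp
      _ = 2 / d := by rw [hdd]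
  have h5 : (3 * ∑ b, ⟪x (π b), y b⟫ - 2) / d =
      3 * (1 / √d) ^ 2 * ∑ b, ⟪x (π b), y b⟫ - 2 / d := by
    rw [div_pow, hdd]; ring
  rw [h5]; linarith

variable {γ : Type*} [Fintype γ]

/-- The cosine of the angle between two vectors. -/
def cs (a b : EuclideanSpace ℝ (Fin N)) : ℝ := ⟪a, b⟫ / (‖a‖ * ‖b‖)

/-- The expected fourth power of the cosine with a random label vector of the second family. -/
def qq (x : α → EuclideanSpace ℝ (Fin N)) (x₀ : γ → EuclideanSpace ℝ (Fin N)) : ℝ :=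
  ∑ a, ∑ c, ‖x₀ c‖ ^ 2 * cs (x a) (x₀ c) ^ 4

/-- Bessel's inequality in terms of cosines. -/
lemma sum_cs_sq_le (z : EuclideanSpace ℝ (Fin N)) (x : α → EuclideanSpace ℝ (Fin N))
    (ho : ∀ a a', a ≠ a' → ⟪x a, x a'⟫ = 0) : ∑ a, cs z (x a) ^ 2 ≤ 1 := by
  by_cases hz : ‖z‖ = 0
  · have : ∀ a, cs z (x a) ^ 2 = 0 := by
      intro a; rw [cs, hz]; simp
    simp [this]
  · have hz' : 0 < ‖z‖ ^ 2 := by positivity
    have h1 := bessel Finset.univ x (fun a _ a' _ h => ho a a' h) z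
    have h2 : ∑ a, cs z (x a) ^ 2 = (∑ a, ⟪z, x a⟫ ^ 2 / ‖x a‖ ^ 2) / ‖z‖ ^ 2 := by
      rw [Finset.sum_div]
      refine Finset.sum_congr rfl fun a _ => ?_
      rw [cs, div_pow, mul_pow, div_div, mul_comm (‖z‖ ^ 2)]
    rw [h2, div_le_one hz']
    exact h1

lemma cs_comm (a b : EuclideanSpace ℝ (Fin N)) : cs a b = cs b a := by
  rw [cs, cs, real_inner_comm, mul_comm]

lemma norm_cs (a b : EuclideanSpace ℝ (Fin N)) : ‖a‖ * ‖b‖ * cs a b = ⟪a, b⟫ := by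
  rw [cs]
  rcases eq_or_ne (‖a‖ * ‖b‖) 0 with h | h
  · have := abs_real_inner_le_norm a b
    rw [h] at this
    have h2 : ⟪a, b⟫ = 0 := abs_eq_zero.1 (le_antisymm this (abs_nonneg _))
    rw [h2, h]; simp
  · rw [mul_comm, div_mul_cancel₀ _ h]

lemma kernel2_le (x : α → EuclideanSpace ℝ (Fin N)) (x₀ : γ → EuclideanSpace ℝ (Fin N))
    (hn : ∀ a c, 0 ≤ ⟪x a, x₀ c⟫) (hs : ∑ a, ∑ c, ⟪x a, x₀ c⟫ = 1)
    (hle : ∀ a c, ⟪x a, x₀ c⟫ ≤ ‖x₀ c‖ ^ 2) :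
    (∑ a, ∑ c, ⟪x a, x₀ c⟫ ^ 2 / (‖x a‖ * ‖x₀ c‖)) ^ 4 ≤ qq x x₀ := by
  have hcs : ∀ a c, 0 ≤ cs (x a) (x₀ c) := fun a c => div_nonneg (hn a c) (by positivity)
  have h1 := Real.pow_arith_mean_le_arith_mean_pow (Finset.univ : Finset (α × γ))
    (fun p => ⟪x p.1, x₀ p.2⟫) (fun p => cs (x p.1) (x₀ p.2)) (fun p _ => hn _ _)
    (by rw [Fintype.sum_prod_type]; exact hs) (fun p _ => hcs _ _) 4
  rw [Fintype.sum_prod_type, Fintype.sum_prod_type] at h1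
  have h2 : ∑ a, ∑ c, ⟪x a, x₀ c⟫ * cs (x a) (x₀ c) =
      ∑ a, ∑ c, ⟪x a, x₀ c⟫ ^ 2 / (‖x a‖ * ‖x₀ c‖) := by
    refine Finset.sum_congr rfl fun a _ => Finset.sum_congr rfl fun c _ => ?_
    rw [cs]; ring
  simp only at h1
  rw [h2] at h1
  refine h1.trans (Finset.sum_le_sum fun a _ => Finset.sum_le_sum fun c _ => ?_)
  exact mul_le_mul_of_nonneg_right (hle a c) (pow_nonneg (hcs a c) 4)

lemma kernel3_le (x : α → EuclideanSpace ℝ (Fin N)) (x₀ : γ → EuclideanSpace ℝ (Fin N))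
    (hx₀ : ∀ c c', c ≠ c' → ⟪x₀ c, x₀ c'⟫ = 0) (hx : ∑ a, ‖x a‖ ^ 2 ≤ 1) :
    (∑ a, ∑ c, ⟪x a, x₀ c⟫ ^ 3 / (‖x a‖ ^ 2 * ‖x₀ c‖ ^ 2)) ^ 2 ≤ qq x x₀ := by
  have h1 : ∑ a, ∑ c, ⟪x a, x₀ c⟫ ^ 3 / (‖x a‖ ^ 2 * ‖x₀ c‖ ^ 2) =
      ∑ p : α × γ, (‖x₀ p.2‖ * cs (x p.1) (x₀ p.2) ^ 2) * (‖x p.1‖ * cs (x p.1) (x₀ p.2)) := by
    rw [Fintype.sum_prod_type]
    refine Finset.sum_congr rfl fun a _ => Finset.sum_congr rfl fun c _ => ?_
    simp only
    have h2 : ‖x₀ c‖ * cs (x a) (x₀ c) ^ 2 * (‖x a‖ * cs (x a) (x₀ c)) =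
        (‖x a‖ * ‖x₀ c‖ * cs (x a) (x₀ c)) * cs (x a) (x₀ c) ^ 2 := by ring
    rw [h2, norm_cs, cs, div_pow, mul_pow]
    ring
  rw [h1]
  refine (Finset.sum_mul_sq_le_sq_mul_sq _ _ _).trans ?_
  have h3 : ∑ p : α × γ, (‖x₀ p.2‖ * cs (x p.1) (x₀ p.2) ^ 2) ^ 2 = qq x x₀ := by
    rw [Fintype.sum_prod_type, qq]
    refine Finset.sum_congr rfl fun a _ => Finset.sum_congr rfl fun c _ => ?_
    simp only
    ring
  have h4 : ∑ p : α × γ, (‖x p.1‖ * cs (x p.1) (x₀ p.2)) ^ 2 ≤ 1 := by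
    rw [Fintype.sum_prod_type]
    refine le_trans (Finset.sum_le_sum fun a _ => ?_) hx
    simp only [mul_pow]
    rw [← Finset.mul_sum]
    have := sum_cs_sq_le (x a) x₀ hx₀
    nlinarith [sq_nonneg ‖x a‖]
  rw [h3]
  have h5 : 0 ≤ qq x x₀ := by
    rw [← h3]; exact Finset.sum_nonneg fun p _ => sq_nonneg _
  nlinarith

omit [Fintype β] in
/-- The loss of one edge against one seed. -/
lemma pair_bound (x₁ u : EuclideanSpace ℝ (Fin N)) (s : Finset β)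
    (y : β → EuclideanSpace ℝ (Fin N)) (ho : ∀ b b', b ≠ b' → ⟪y b, y b'⟫ = 0)
    (hn : 0 ≤ ⟪x₁, u⟫) (hle : ⟪x₁, u⟫ ≤ ‖x₁‖ ^ 2) :
    ‖u‖ ^ 2 * cs x₁ u ^ 4 - 2 * (‖u‖ * cs x₁ u ^ 2 *
        √(‖x₁‖ ^ 2 - ∑ b ∈ s, ⟪x₁, y b⟫ ^ 2 / ‖y b‖ ^ 2)) ≤
      ‖u‖ ^ 2 * (cs x₁ u ^ 2 * ∑ b ∈ s, cs u (y b) ^ 2) := by
  set D := √(‖x₁‖ ^ 2 - ∑ b ∈ s, ⟪x₁, y b⟫ ^ 2 / ‖y b‖ ^ 2) with hD
  set B := ∑ b ∈ s, cs u (y b) ^ 2 with hB
  set ρ := cs x₁ u with hρ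
  have hρ0 : 0 ≤ ρ := div_nonneg hn (by positivity)
  have hB0 : 0 ≤ B := Finset.sum_nonneg fun b _ => sq_nonneg _
  have hD0 : 0 ≤ D := Real.sqrt_nonneg _
  rcases (norm_nonneg x₁).eq_or_lt with h0 | hp
  · have : ρ = 0 := by rw [hρ, cs, ← h0]; simp
    rw [this]; simp
  rcases (norm_nonneg u).eq_or_lt with h0 | hq
  · have : ρ = 0 := by rw [hρ, cs, ← h0]; simp
    rw [this]; simp
  have h1 := split_inner s y (fun b _ b' _ h => ho b b' h) x₁ u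
  have h2 : ∑ b ∈ s, ⟪u, y b⟫ ^ 2 / ‖y b‖ ^ 2 = ‖u‖ ^ 2 * B := by
    rw [hB, Finset.mul_sum]
    refine Finset.sum_congr rfl fun b _ => ?_
    rw [cs, div_pow, mul_pow]
    field_simp
  rw [h2, Real.sqrt_mul (sq_nonneg _), Real.sqrt_sq hq.le, ← hD, ← norm_cs, ← hρ] at h1
  have h3 : ‖x₁‖ * ρ ≤ ‖x₁‖ * √B + D := by
    have : ‖u‖ * (‖x₁‖ * ρ) ≤ ‖u‖ * (‖x₁‖ * √B + D) := by nlinarith
    exact le_of_mul_le_mul_left this hq
  have h4 : ‖u‖ * ρ ≤ ‖x₁‖ := by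
    rw [← norm_cs, ← hρ] at hle
    have : ‖x₁‖ * (‖u‖ * ρ) ≤ ‖x₁‖ * ‖x₁‖ := by nlinarith
    exact le_of_mul_le_mul_left this hp
  -- `‖x₁‖ (ρ ^ 2 - B) ≤ 2 ρ D`
  have h5 : ‖x₁‖ * (ρ ^ 2 - B) ≤ 2 * ρ * D := by
    have hsB := Real.sq_sqrt hB0
    have hsB0 := Real.sqrt_nonneg B
    rcases le_total ρ (√B) with h | h
    · have : ρ ^ 2 ≤ B := by nlinarith
      have h6 : ‖x₁‖ * (ρ ^ 2 - B) ≤ 0 := by nlinarith
      have : 0 ≤ 2 * ρ * D := by positivity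
      linarith
    · have h6 : ‖x₁‖ * (ρ - √B) ≤ D := by linarith
      have h7 : ‖x₁‖ * (ρ ^ 2 - B) = (‖x₁‖ * (ρ - √B)) * (ρ + √B) := by
        linear_combination ‖x₁‖ * hsB
      rw [h7]
      calc (‖x₁‖ * (ρ - √B)) * (ρ + √B) ≤ D * (ρ + √B) :=
            mul_le_mul_of_nonneg_right h6 (by positivity)
        _ ≤ D * (ρ + ρ) := by gcongr
        _ = 2 * ρ * D := by ring
  have h8 : ‖u‖ * ρ * (ρ ^ 2 - B) ≤ 2 * ρ * D := by
    rcases le_total (ρ ^ 2 - B) 0 with h | h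
    · have h9 : ‖u‖ * ρ * (ρ ^ 2 - B) ≤ 0 := mul_nonpos_of_nonneg_of_nonpos (by positivity) h
      have : 0 ≤ 2 * ρ * D := by positivity
      linarith
    · exact (mul_le_mul_of_nonneg_right h4 h).trans h5
  have h9 : ‖u‖ * ρ * (‖u‖ * ρ * (ρ ^ 2 - B)) ≤ ‖u‖ * ρ * (2 * ρ * D) :=
    mul_le_mul_of_nonneg_left h8 (by positivity)
  nlinarith

/-- The expected weight of an edge under the rounding with seeds from the family `x₀`. -/
lemma edge_round [DecidableEq α] (x : α → EuclideanSpace ℝ (Fin N))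
    (y : β → EuclideanSpace ℝ (Fin N)) (x₀ : γ → EuclideanSpace ℝ (Fin N)) (π : β → α)
    (hx : ∀ a a', a ≠ a' → ⟪x a, x a'⟫ = 0) (hy : ∀ b b', b ≠ b' → ⟪y b, y b'⟫ = 0)
    (hx₀ : ∀ c c', c ≠ c' → ⟪x₀ c, x₀ c'⟫ = 0)
    (hn : ∀ a c, 0 ≤ ⟪x a, x₀ c⟫) (hle : ∀ a c, ⟪x a, x₀ c⟫ ≤ ‖x a‖ ^ 2)
    (hx1 : ∑ a, ‖x a‖ ^ 2 ≤ 1) (hy1 : ∑ b, ‖y b‖ ^ 2 ≤ 1) (hx₀1 : ∑ c, ‖x₀ c‖ ^ 2 ≤ 1) :
    qq x x₀ - 2 * √(2 - 2 * ∑ b, ⟪x (π b), y b⟫) ≤
      ∑ c, ‖x₀ c‖ ^ 2 * ∑ b, cs (x (π b)) (x₀ c) ^ 2 * cs (x₀ c) (y b) ^ 2 := by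
  set D : α → ℝ := fun a => √(‖x a‖ ^ 2 -
    ∑ b ∈ Finset.univ.filter (fun b => π b = a), ⟪x a, y b⟫ ^ 2 / ‖y b‖ ^ 2) with hD
  have hDsq : ∀ a, D a ^ 2 = ‖x a‖ ^ 2 -
      ∑ b ∈ Finset.univ.filter (fun b => π b = a), ⟪x a, y b⟫ ^ 2 / ‖y b‖ ^ 2 := by
    intro a
    refine Real.sq_sqrt ?_
    have := bessel (Finset.univ.filter (fun b => π b = a)) y (fun b _ b' _ h => hy b b' h) (x a)
    linarith
  have hDsum : ∑ a, D a ^ 2 ≤ 2 - 2 * ∑ b, ⟪x (π b), y b⟫ := by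
    rw [Finset.sum_congr rfl fun a _ => hDsq a, Finset.sum_sub_distrib]
    have h1 : ∑ a, ∑ b ∈ Finset.univ.filter (fun b => π b = a), ⟪x a, y b⟫ ^ 2 / ‖y b‖ ^ 2 =
        ∑ b, ⟪x (π b), y b⟫ ^ 2 / ‖y b‖ ^ 2 := by
      rw [← Finset.sum_fiberwise Finset.univ π (fun b => ⟪x (π b), y b⟫ ^ 2 / ‖y b‖ ^ 2)]
      refine Finset.sum_congr rfl fun a _ => Finset.sum_congr rfl fun b hb => ?_
      rw [(Finset.mem_filter.1 hb).2]
    have h2 : ∀ b, 2 * ⟪x (π b), y b⟫ - ‖y b‖ ^ 2 ≤ ⟪x (π b), y b⟫ ^ 2 / ‖y b‖ ^ 2 := by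
      intro b
      rcases (norm_nonneg (y b)).eq_or_lt with h0 | hpos
      · have := abs_real_inner_le_norm (x (π b)) (y b)
        rw [← h0, mul_zero] at this
        have h2 : ⟪x (π b), y b⟫ = 0 := abs_eq_zero.1 (le_antisymm this (abs_nonneg _))
        rw [h2, ← h0]; simp
      · rw [le_div_iff₀ (pow_pos hpos 2)]
        nlinarith [sq_nonneg (⟪x (π b), y b⟫ - ‖y b‖ ^ 2)]
    have h3 := Finset.sum_le_sum fun b (_ : b ∈ Finset.univ) => h2 b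
    rw [Finset.sum_sub_distrib, ← Finset.mul_sum] at h3
    rw [h1]; linarith
  have hterm : ∀ c, ∑ a, (‖x₀ c‖ ^ 2 * cs (x a) (x₀ c) ^ 4 -
      2 * (‖x₀ c‖ * cs (x a) (x₀ c) ^ 2 * D a)) ≤
      ‖x₀ c‖ ^ 2 * ∑ b, cs (x (π b)) (x₀ c) ^ 2 * cs (x₀ c) (y b) ^ 2 := by
    intro c
    have h1 : ‖x₀ c‖ ^ 2 * ∑ b, cs (x (π b)) (x₀ c) ^ 2 * cs (x₀ c) (y b) ^ 2 =
        ∑ a, ‖x₀ c‖ ^ 2 * (cs (x a) (x₀ c) ^ 2 *
          ∑ b ∈ Finset.univ.filter (fun b => π b = a), cs (x₀ c) (y b) ^ 2) := by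
      rw [← Finset.mul_sum]
      congr 1
      rw [← Finset.sum_fiberwise Finset.univ π
        (fun b => cs (x (π b)) (x₀ c) ^ 2 * cs (x₀ c) (y b) ^ 2)]
      refine Finset.sum_congr rfl fun a _ => ?_
      rw [Finset.mul_sum]
      refine Finset.sum_congr rfl fun b hb => ?_
      rw [(Finset.mem_filter.1 hb).2]
    rw [h1]
    exact Finset.sum_le_sum fun a _ =>
      pair_bound (x a) (x₀ c) _ y hy (hn a c) (hle a c)
  refine le_trans ?_ (Finset.sum_le_sum fun c _ => hterm c)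
  simp only [Finset.sum_sub_distrib, ← Finset.mul_sum]
  have hq : ∑ c, ∑ a, ‖x₀ c‖ ^ 2 * cs (x a) (x₀ c) ^ 4 = qq x x₀ := by
    rw [qq, Finset.sum_comm]
  have hq' : ∑ c, ‖x₀ c‖ ^ 2 * ∑ a, cs (x a) (x₀ c) ^ 4 = qq x x₀ := by
    rw [← hq]
    exact Finset.sum_congr rfl fun c _ => Finset.mul_sum _ _ _
  rw [hq']
  have herr : ∑ c, ∑ a, ‖x₀ c‖ * cs (x a) (x₀ c) ^ 2 * D a ≤
      √(2 - 2 * ∑ b, ⟪x (π b), y b⟫) := by
    have h1 : ∑ c, ∑ a, ‖x₀ c‖ * cs (x a) (x₀ c) ^ 2 * D a =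
        ∑ p : γ × α, (‖x₀ p.1‖ * cs (x p.2) (x₀ p.1)) * (cs (x p.2) (x₀ p.1) * D p.2) := by
      rw [Fintype.sum_prod_type]
      refine Finset.sum_congr rfl fun c _ => Finset.sum_congr rfl fun a _ => ?_
      simp only
      ring
    rw [h1]
    refine (Real.sum_mul_le_sqrt_mul_sqrt _ _ _).trans ?_
    have h2 : ∑ p : γ × α, (‖x₀ p.1‖ * cs (x p.2) (x₀ p.1)) ^ 2 ≤ 1 := by
      rw [Fintype.sum_prod_type]
      refine le_trans (Finset.sum_le_sum fun c _ => ?_) hx₀1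
      simp only [mul_pow]
      rw [← Finset.mul_sum]
      have h3 : ∑ a, cs (x a) (x₀ c) ^ 2 ≤ 1 := by
        simp only [cs_comm _ (x₀ c)]
        exact sum_cs_sq_le (x₀ c) x hx
      nlinarith [sq_nonneg ‖x₀ c‖]
    have h4 : ∑ p : γ × α, (cs (x p.2) (x₀ p.1) * D p.2) ^ 2 ≤
        2 - 2 * ∑ b, ⟪x (π b), y b⟫ := by
      rw [Fintype.sum_prod_type_right]
      refine le_trans (Finset.sum_le_sum fun a _ => ?_) hDsum
      simp only [mul_pow]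
      rw [← Finset.sum_mul]
      have h3 := sum_cs_sq_le (x a) x₀ hx₀
      nlinarith [sq_nonneg (D a)]
    calc √(∑ p : γ × α, (‖x₀ p.1‖ * cs (x p.2) (x₀ p.1)) ^ 2) *
          √(∑ p : γ × α, (cs (x p.2) (x₀ p.1) * D p.2) ^ 2)
        ≤ √1 * √(2 - 2 * ∑ b, ⟪x (π b), y b⟫) :=
          mul_le_mul (Real.sqrt_le_sqrt h2) (Real.sqrt_le_sqrt h4) (Real.sqrt_nonneg _)
            (Real.sqrt_nonneg _)
      _ = √(2 - 2 * ∑ b, ⟪x (π b), y b⟫) := by rw [Real.sqrt_one, one_mul]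
  linarith

/-- The fraction of weight satisfied by an edge is at most one. -/
lemma edge_value_le [DecidableEq α] (x : α → EuclideanSpace ℝ (Fin N))
    (y : β → EuclideanSpace ℝ (Fin N)) (π : β → α)
    (hy : ∀ b b', b ≠ b' → ⟪y b, y b'⟫ = 0)
    (hx1 : ∑ a, ‖x a‖ ^ 2 ≤ 1) (hy1 : ∑ b, ‖y b‖ ^ 2 ≤ 1) :
    0 ≤ 2 - 2 * ∑ b, ⟪x (π b), y b⟫ := by
  have h1 : ∀ a, 0 ≤ ‖x a‖ ^ 2 -
      ∑ b ∈ Finset.univ.filter (fun b => π b = a), (2 * ⟪x a, y b⟫ - ‖y b‖ ^ 2) := by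
    intro a
    have h2 : ‖x a - ∑ b ∈ Finset.univ.filter (fun b => π b = a), y b‖ ^ 2 = ‖x a‖ ^ 2 -
      ∑ b ∈ Finset.univ.filter (fun b => π b = a), (2 * ⟪x a, y b⟫ - ‖y b‖ ^ 2) := by
      rw [norm_sub_sq_real, inner_sum, Finset.sum_sub_distrib, ← Finset.mul_sum]
      have h3 : ‖∑ b ∈ Finset.univ.filter (fun b => π b = a), y b‖ ^ 2 =
          ∑ b ∈ Finset.univ.filter (fun b => π b = a), ‖y b‖ ^ 2 := by
        rw [← real_inner_self_eq_norm_sq, sum_inner]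
        refine Finset.sum_congr rfl fun b hb => ?_
        rw [inner_sum, Finset.sum_eq_single b]
        · rw [real_inner_self_eq_norm_sq]
        · intro b' _ hne; exact hy b b' (Ne.symm hne)
        · intro h; exact absurd hb h
      rw [h3]; ring
    rw [← h2]; exact sq_nonneg _
  have h2 := Finset.sum_nonneg fun a (_ : a ∈ Finset.univ) => h1 a
  rw [Finset.sum_sub_distrib] at h2
  have h3 : ∑ a, ∑ b ∈ Finset.univ.filter (fun b => π b = a), (2 * ⟪x a, y b⟫ - ‖y b‖ ^ 2) =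
      ∑ b, (2 * ⟪x (π b), y b⟫ - ‖y b‖ ^ 2) := by
    rw [← Finset.sum_fiberwise Finset.univ π (fun b => 2 * ⟪x (π b), y b⟫ - ‖y b‖ ^ 2)]
    refine Finset.sum_congr rfl fun a _ => Finset.sum_congr rfl fun b hb => ?_
    rw [(Finset.mem_filter.1 hb).2]
  rw [h3, Finset.sum_sub_distrib, ← Finset.mul_sum] at h2
  linarith

end Features

section Rounding

variable {V W α β : Type} [Fintype V] [Fintype W] [Fintype α] [Fintype β] [DecidableEq α]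
  [DecidableEq V] [DecidableEq W]

/-- Derandomized independent rounding. -/
lemma round [Nonempty α] [Nonempty β] (E : Finset (V × W)) (π : V × W → β → α)
    (A : V → α → ℝ) (B : W → β → ℝ) (hA : ∀ v a, 0 ≤ A v a) (hB : ∀ w b, 0 ≤ B w b)
    (hA1 : ∀ v, ∑ a, A v a ≤ 1) (hB1 : ∀ w, ∑ b, B w b ≤ 1) :
    ∃ (f : V → α) (g : W → β), ∑ e ∈ E, ∑ b, A e.1 (π e b) * B e.2 b ≤
      ((E.filter (fun e => π e (g e.2) = f e.1)).card : ℝ) := by
  -- right labels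
  have h1 : ∀ w, ∃ b₀, ∀ b, ∑ e ∈ E.filter (fun e => e.2 = w), A e.1 (π e b) ≤
      ∑ e ∈ E.filter (fun e => e.2 = w), A e.1 (π e b₀) := fun w => Finite.exists_max _
  choose g hg using h1
  have h2 : ∑ e ∈ E, ∑ b, A e.1 (π e b) * B e.2 b ≤ ∑ e ∈ E, A e.1 (π e (g e.2)) := by
    rw [← Finset.sum_fiberwise E (fun e => e.2) (fun e => ∑ b, A e.1 (π e b) * B e.2 b),
      ← Finset.sum_fiberwise E (fun e => e.2) (fun e => A e.1 (π e (g e.2)))]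
    refine Finset.sum_le_sum fun w _ => ?_
    have e1 : ∑ e ∈ E.filter (fun e => e.2 = w), ∑ b, A e.1 (π e b) * B e.2 b =
        ∑ b, (∑ e ∈ E.filter (fun e => e.2 = w), A e.1 (π e b)) * B w b := by
      rw [Finset.sum_comm]
      refine Finset.sum_congr rfl fun b _ => ?_
      rw [Finset.sum_mul]
      refine Finset.sum_congr rfl fun e he => ?_
      rw [(Finset.mem_filter.1 he).2]
    have e2 : ∑ e ∈ E.filter (fun e => e.2 = w), A e.1 (π e (g e.2)) =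
        ∑ e ∈ E.filter (fun e => e.2 = w), A e.1 (π e (g w)) := by
      refine Finset.sum_congr rfl fun e he => ?_
      rw [(Finset.mem_filter.1 he).2]
    rw [e1, e2]
    calc ∑ b, (∑ e ∈ E.filter (fun e => e.2 = w), A e.1 (π e b)) * B w b
        ≤ ∑ b, (∑ e ∈ E.filter (fun e => e.2 = w), A e.1 (π e (g w))) * B w b :=
          Finset.sum_le_sum fun b _ => mul_le_mul_of_nonneg_right (hg w b) (hB w b)
      _ = (∑ e ∈ E.filter (fun e => e.2 = w), A e.1 (π e (g w))) * ∑ b, B w b := by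
          rw [Finset.mul_sum]
      _ ≤ (∑ e ∈ E.filter (fun e => e.2 = w), A e.1 (π e (g w))) * 1 :=
          mul_le_mul_of_nonneg_left (hB1 w) (Finset.sum_nonneg fun e _ => hA _ _)
      _ = _ := mul_one _
  -- left labels
  have h3 : ∀ v, ∃ a₀, ∀ a,
      ((E.filter (fun e => e.1 = v)).filter (fun e => π e (g e.2) = a)).card ≤
      ((E.filter (fun e => e.1 = v)).filter (fun e => π e (g e.2) = a₀)).card :=
    fun v => Finite.exists_max _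
  choose f hf using h3
  refine ⟨f, g, h2.trans ?_⟩
  rw [← Finset.sum_fiberwise E (fun e => e.1) (fun e => A e.1 (π e (g e.2)))]
  have h4 : ((E.filter (fun e => π e (g e.2) = f e.1)).card : ℝ) =
      ∑ v, (((E.filter (fun e => e.1 = v)).filter (fun e => π e (g e.2) = f v)).card : ℝ) := by
    have h5 : (E.filter (fun e => π e (g e.2) = f e.1)).card =
        ∑ v, ((E.filter (fun e => e.1 = v)).filter (fun e => π e (g e.2) = f v)).card := by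
      rw [Finset.card_eq_sum_card_fiberwise (f := fun e => e.1) (t := Finset.univ)
        (fun e _ => Finset.mem_coe.2 (Finset.mem_univ _))]
      refine Finset.sum_congr rfl fun v _ => ?_
      congr 1
      ext e
      simp only [Finset.mem_filter]
      constructor
      · rintro ⟨⟨h1, h2⟩, h3⟩
        subst h3
        exact ⟨⟨h1, rfl⟩, h2⟩
      · rintro ⟨⟨h1, h2⟩, h3⟩
        subst h2
        exact ⟨⟨h1, h3⟩, rfl⟩
    rw [h5]; push_cast; rfl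
  rw [h4]
  refine Finset.sum_le_sum fun v _ => ?_
  have e1 : ∑ e ∈ E.filter (fun e => e.1 = v), A e.1 (π e (g e.2)) =
      ∑ a, (((E.filter (fun e => e.1 = v)).filter (fun e => π e (g e.2) = a)).card : ℝ) *
        A v a := by
    rw [← Finset.sum_fiberwise (E.filter (fun e => e.1 = v)) (fun e => π e (g e.2))
      (fun e => A e.1 (π e (g e.2)))]
    refine Finset.sum_congr rfl fun a _ => ?_
    rw [← nsmul_eq_mul, ← Finset.sum_const]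
    refine Finset.sum_congr rfl fun e he => ?_
    have h6 := Finset.mem_filter.1 he
    have h7 := Finset.mem_filter.1 h6.1
    rw [h6.2, h7.2]
  rw [e1]
  calc ∑ a, (((E.filter (fun e => e.1 = v)).filter (fun e => π e (g e.2) = a)).card : ℝ) * A v a
      ≤ ∑ a, (((E.filter (fun e => e.1 = v)).filter (fun e => π e (g e.2) = f v)).card : ℝ) *
        A v a := Finset.sum_le_sum fun a _ =>
          mul_le_mul_of_nonneg_right (by exact_mod_cast hf v a) (hA v a)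
    _ = (((E.filter (fun e => e.1 = v)).filter (fun e => π e (g e.2) = f v)).card : ℝ) *
        ∑ a, A v a := by rw [Finset.mul_sum]
    _ ≤ (((E.filter (fun e => e.1 = v)).filter (fun e => π e (g e.2) = f v)).card : ℝ) * 1 :=
        mul_le_mul_of_nonneg_left (hA1 v) (Nat.cast_nonneg _)
    _ = _ := mul_one _

end Rounding

section Main

variable {V W : Type} [Fintype V] [Fintype W] {d R N : ℕ}

lemma sum_norm_sq {α : Type*} [Fintype α] (x : α → EuclideanSpace ℝ (Fin N))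
    (z : EuclideanSpace ℝ (Fin N)) (hz : ‖z‖ = 1) (hs : ∑ a, x a = z)
    (ho : ∀ a a', a ≠ a' → ⟪x a, x a'⟫ = 0) : ∑ a, ‖x a‖ ^ 2 = 1 := by
  have h1 : ‖z‖ ^ 2 = ∑ a, ‖x a‖ ^ 2 := by
    rw [← hs, ← real_inner_self_eq_norm_sq, sum_inner]
    refine Finset.sum_congr rfl fun a _ => ?_
    rw [inner_sum, Finset.sum_eq_single a]
    · rw [real_inner_self_eq_norm_sq]
    · intro b _ hne; exact ho a b (Ne.symm hne)
    · intro h; exact absurd (Finset.mem_univ a) h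
  rw [← h1, hz, one_pow]

omit [Fintype V] [Fintype W] in
lemma inner_le_sq (S : VectorSolution V W d R N) (v v' : V) (a a' : Fin R) :
    ⟪S.x v a, S.x v' a'⟫ ≤ ‖S.x v a‖ ^ 2 := by
  have h1 : ⟪S.x v a, S.x v' a'⟫ ≤ ∑ c, ⟪S.x v a, S.x v' c⟫ :=
    Finset.single_le_sum (f := fun c => ⟪S.x v a, S.x v' c⟫)
      (fun c _ => S.nonneg_xx _ _ _ _) (Finset.mem_univ a')
  refine h1.trans (le_of_eq ?_)
  rw [← inner_sum, S.sum_x v', ← S.sum_x v, inner_sum, Finset.sum_eq_single a]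
  · rw [real_inner_self_eq_norm_sq]
  · intro b _ hne; exact S.orth_x v a b (Ne.symm hne)
  · intro h; exact absurd (Finset.mem_univ a) h

omit [Fintype V] [Fintype W] in
lemma sum_inner_eq_one (S : VectorSolution V W d R N) (v v' : V) :
    ∑ a, ∑ c, ⟪S.x v a, S.x v' c⟫ = 1 := by
  have h1 : ∑ a, ∑ c, ⟪S.x v a, S.x v' c⟫ = ⟪∑ a, S.x v a, ∑ c, S.x v' c⟫ := by
    rw [sum_inner]
    exact Finset.sum_congr rfl fun a _ => (inner_sum _ _ _).symm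
  rw [h1, S.sum_x, S.sum_x, real_inner_self_eq_norm_sq, S.norm_z, one_pow]

/-- The rounding step: the value dominates the average of `qq`. -/
lemma value_ge (Φ : LabelCover V W d R) (S : VectorSolution V W d R N) (η : ℝ)
    (hE : Φ.E.Nonempty) (hval : 1 - η ≤ S.val Φ) :
    ∑ e₀ ∈ Φ.E, ∑ e ∈ Φ.E, qq (S.x e.1) (S.x e₀.1) - 2 * √(2 * η) * (Φ.E.card : ℝ) ^ 2 ≤
      (Φ.E.card : ℝ) ^ 2 * Φ.value := by
  classical
  set n : ℝ := (Φ.E.card : ℝ) with hn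
  have hnpos : 0 < n := by rw [hn]; exact_mod_cast hE.card_pos
  obtain ⟨e₁, he₁⟩ := hE
  have hx1 : ∀ v, ∑ a, ‖S.x v a‖ ^ 2 = 1 :=
    fun v => sum_norm_sq _ S.z S.norm_z (S.sum_x v) (S.orth_x v)
  have hy1 : ∀ w, ∑ b, ‖S.y w b‖ ^ 2 = 1 :=
    fun w => sum_norm_sq _ S.z S.norm_z (S.sum_y w) (S.orth_y w)
  have hR : Nonempty (Fin R) := by
    by_contra h
    rw [not_nonempty_iff] at h
    have := hx1 e₁.1
    simp at this
  have hdR : Nonempty (Fin (d * R)) := by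
    by_contra h
    rw [not_nonempty_iff] at h
    have := hy1 e₁.2
    simp at this
  set s : V × W → ℝ := fun e => ∑ b, ⟪S.x e.1 (Φ.π e b), S.y e.2 b⟫ with hs
  have hs0 : ∀ e, 0 ≤ 2 - 2 * s e := fun e =>
    edge_value_le (S.x e.1) (S.y e.2) (Φ.π e) (S.orth_y e.2) (hx1 e.1).le (hy1 e.2).le
  -- each seed
  have hseed : ∀ (v₀ : V) (c : Fin R), ∑ e ∈ Φ.E, ∑ b,
      cs (S.x e.1 (Φ.π e b)) (S.x v₀ c) ^ 2 * cs (S.x v₀ c) (S.y e.2 b) ^ 2 ≤ n * Φ.value := by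
    intro v₀ c
    obtain ⟨f, g, hfg⟩ := round Φ.E Φ.π (fun v a => cs (S.x v a) (S.x v₀ c) ^ 2)
      (fun w b => cs (S.x v₀ c) (S.y w b) ^ 2) (fun v a => sq_nonneg _) (fun w b => sq_nonneg _)
      (fun v => by
        simp only [cs_comm _ (S.x v₀ c)]
        exact sum_cs_sq_le _ _ (S.orth_x v))
      (fun w => sum_cs_sq_le _ _ (S.orth_y w))
    refine hfg.trans ?_
    have h1 : Φ.frac f g ≤ Φ.value :=
      le_ciSup (f := fun fg : (V → Fin R) × (W → Fin (d * R)) => Φ.frac fg.1 fg.2)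
        (Set.finite_range _).bddAbove (f, g)
    have h2 : ((Φ.E.filter (fun e => Φ.π e (g e.2) = f e.1)).card : ℝ) = n * Φ.frac f g := by
      rw [LabelCover.frac, ← hn, mul_div_cancel₀ _ hnpos.ne']
    rw [h2]
    exact mul_le_mul_of_nonneg_left h1 hnpos.le
  -- each seed vertex
  have hvert : ∀ v₀ : V, ∑ e ∈ Φ.E, (qq (S.x e.1) (S.x v₀) - 2 * √(2 - 2 * s e)) ≤
      n * Φ.value := by
    intro v₀
    have h1 : ∑ e ∈ Φ.E, (qq (S.x e.1) (S.x v₀) - 2 * √(2 - 2 * s e)) ≤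
        ∑ e ∈ Φ.E, ∑ c, ‖S.x v₀ c‖ ^ 2 * ∑ b,
          cs (S.x e.1 (Φ.π e b)) (S.x v₀ c) ^ 2 * cs (S.x v₀ c) (S.y e.2 b) ^ 2 := by
      refine Finset.sum_le_sum fun e _ => ?_
      exact edge_round (S.x e.1) (S.y e.2) (S.x v₀) (Φ.π e) (S.orth_x _) (S.orth_y _)
        (S.orth_x _) (fun a c => S.nonneg_xx _ _ _ _) (fun a c => inner_le_sq S _ _ _ _)
        (hx1 _).le (hy1 _).le (hx1 _).le
    refine h1.trans ?_
    rw [Finset.sum_comm]
    calc ∑ c, ∑ e ∈ Φ.E, ‖S.x v₀ c‖ ^ 2 * ∑ b,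
          cs (S.x e.1 (Φ.π e b)) (S.x v₀ c) ^ 2 * cs (S.x v₀ c) (S.y e.2 b) ^ 2
        = ∑ c, ‖S.x v₀ c‖ ^ 2 * ∑ e ∈ Φ.E, ∑ b,
          cs (S.x e.1 (Φ.π e b)) (S.x v₀ c) ^ 2 * cs (S.x v₀ c) (S.y e.2 b) ^ 2 := by
          refine Finset.sum_congr rfl fun c _ => ?_
          rw [Finset.mul_sum]
      _ ≤ ∑ c, ‖S.x v₀ c‖ ^ 2 * (n * Φ.value) :=
          Finset.sum_le_sum fun c _ => mul_le_mul_of_nonneg_left (hseed v₀ c) (sq_nonneg _)
      _ = n * Φ.value := by rw [← Finset.sum_mul, hx1, one_mul]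
  -- the total error
  have herr : ∑ e ∈ Φ.E, √(2 - 2 * s e) ≤ n * √(2 * η) := by
    have h1 := Real.sum_mul_le_sqrt_mul_sqrt Φ.E (fun _ => (1 : ℝ)) (fun e => √(2 - 2 * s e))
    simp only [one_mul, one_pow, Finset.sum_const, nsmul_eq_mul, mul_one] at h1
    refine h1.trans ?_
    have h2 : ∑ e ∈ Φ.E, √(2 - 2 * s e) ^ 2 ≤ n * (2 * η) := by
      rw [Finset.sum_congr rfl fun e _ => Real.sq_sqrt (hs0 e), Finset.sum_sub_distrib,
        ← Finset.mul_sum]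
      have h3 : (1 - η) * n ≤ ∑ e ∈ Φ.E, s e := by
        have := hval
        rw [VectorSolution.val, ← hn, le_div_iff₀ hnpos] at this
        exact this
      simp only [Finset.sum_const, nsmul_eq_mul]
      rw [← hn]; linarith
    rw [← hn]
    calc √n * √(∑ e ∈ Φ.E, √(2 - 2 * s e) ^ 2) ≤ √n * √(n * (2 * η)) :=
          mul_le_mul_of_nonneg_left (Real.sqrt_le_sqrt h2) (Real.sqrt_nonneg _)
      _ = √n * √n * √(2 * η) := by rw [Real.sqrt_mul hnpos.le]; ring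
      _ = n * √(2 * η) := by rw [Real.mul_self_sqrt hnpos.le]
  have hfin : ∑ e₀ ∈ Φ.E, ∑ e ∈ Φ.E, (qq (S.x e.1) (S.x e₀.1) - 2 * √(2 - 2 * s e)) ≤
      n * (n * Φ.value) := by
    calc _ ≤ ∑ _e₀ ∈ Φ.E, n * Φ.value := Finset.sum_le_sum fun e₀ _ => hvert e₀.1
      _ = n * (n * Φ.value) := by rw [Finset.sum_const, nsmul_eq_mul, ← hn]
  simp only [Finset.sum_sub_distrib, ← Finset.mul_sum, Finset.sum_const, nsmul_eq_mul] at hfin
  rw [← hn] at hfin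
  nlinarith [mul_le_mul_of_nonneg_left herr hnpos.le]

omit [Fintype V] [Fintype W] in
/-- The spectral step for a Label Cover instance. -/
lemma kernel_bound' {τ : Type*} [Fintype τ] (Φ : LabelCover V W d R) (m : ℕ) (σ κ : ℝ)
    (hσ : 0 ≤ σ) (hκ : σ ≤ κ) (hrank : Φ.LowRank σ m) (F : V → τ → ℝ) (G : W → τ → ℝ)
    (hF : ∀ v, ∑ t, F v t * F v t = 1) (hG : ∀ w, ∑ t, G w t * G w t = 1)
    (hFG : κ * (Φ.E.card : ℝ) ≤ ∑ e ∈ Φ.E, ∑ t, F e.1 t * G e.2 t) :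
    (Φ.E.card : ℝ) ^ 2 * (κ - σ) ^ 4 ≤
      m * ∑ e₀ ∈ Φ.E, ∑ e ∈ Φ.E, (∑ t, F e.1 t * F e₀.1 t) ^ 2 := by
  obtain ⟨u, hu⟩ := hrank
  have h1 := kernel_bound (E := Φ.E) (fun e => e.1.1) (fun e => e.1.2) m σ κ hσ hκ u
    (fun f g h => by
      have h2 := hu f g (fun i => by
        rw [← h i]
        exact (Finset.sum_coe_sort Φ.E (fun e => u i e.1 * f e.1)).symm)
      rw [← Finset.sum_coe_sort Φ.E (fun e => f e.1 * g e.2),
        ← Finset.sum_coe_sort Φ.E (fun e => f e.1 ^ 2),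
        ← Finset.sum_coe_sort Φ.E (fun e => g e.2 ^ 2)] at h2
      exact h2) F G (fun v => by rw [← hF v]; exact le_of_eq (Finset.sum_congr rfl fun t _ => sq _))
    (fun w => by rw [← hG w]; exact le_of_eq (Finset.sum_congr rfl fun t _ => sq _))
    (by
      rw [← Finset.sum_coe_sort Φ.E (fun e => ∑ t, F e.1 t * G e.2 t)] at hFG
      simpa using hFG)
  rw [Fintype.sum_prod_type_right] at h1
  have h3 : ∑ e₀ ∈ Φ.E, ∑ e ∈ Φ.E, (∑ t, F e.1 t * F e₀.1 t) ^ 2 =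
      ∑ e₀ : Φ.E, ∑ e : Φ.E, (∑ t, F e.1.1 t * F e₀.1.1 t) ^ 2 := by
    rw [← Finset.sum_coe_sort Φ.E]
    refine Finset.sum_congr rfl fun e₀ _ => ?_
    rw [← Finset.sum_coe_sort Φ.E]
  rw [h3]
  simpa using h1

omit [Fintype V] [Fintype W] in
/-- The lower bound through the quadratic features. -/
lemma bound2 (Φ : LabelCover V W d R) (S : VectorSolution V W d R N) (m : ℕ) (σ η : ℝ)
    (hd : 0 < d) (hE : Φ.E.Nonempty) (hσ : 0 ≤ σ) (hκ : σ ≤ (1 - 2 * η) / √d)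
    (hrank : Φ.LowRank σ m) (hval : 1 - η ≤ S.val Φ) :
    (Φ.E.card : ℝ) ^ 2 * ((1 - 2 * η) / √d - σ) ^ 8 ≤
      (m : ℝ) ^ 2 * ∑ e₀ ∈ Φ.E, ∑ e ∈ Φ.E, qq (S.x e.1) (S.x e₀.1) := by
  set n : ℝ := (Φ.E.card : ℝ) with hn
  have hnpos : 0 < n := by rw [hn]; exact_mod_cast hE.card_pos
  have hdp : (0 : ℝ) < √d := Real.sqrt_pos.2 (by exact_mod_cast hd)
  have hx1 : ∀ v, ∑ a, ‖S.x v a‖ ^ 2 = 1 :=
    fun v => sum_norm_sq _ S.z S.norm_z (S.sum_x v) (S.orth_x v)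
  have hy1 : ∀ w, ∑ b, ‖S.y w b‖ ^ 2 = 1 :=
    fun w => sum_norm_sq _ S.z S.norm_z (S.sum_y w) (S.orth_y w)
  have h1 := kernel_bound' Φ m σ ((1 - 2 * η) / √d) hσ hκ hrank (fun v => feat2 (S.x v))
    (fun w => feat2 (S.y w))
    (fun v => by rw [feat2_inner, self2 _ (S.orth_x v), hx1])
    (fun w => by rw [feat2_inner, self2 _ (S.orth_y w), hy1])
    (by
      have h2 : ∑ e ∈ Φ.E, (2 * ∑ b, ⟪S.x e.1 (Φ.π e b), S.y e.2 b⟫ - 1) / √d ≤
          ∑ e ∈ Φ.E, ∑ t, feat2 (S.x e.1) t * feat2 (S.y e.2) t := by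
        refine Finset.sum_le_sum fun e he => ?_
        rw [feat2_inner]
        exact edge2 _ _ _ d hd (Φ.dto1 e he) (hx1 _).le (hy1 _).le
      refine le_trans ?_ h2
      rw [← Finset.sum_div, Finset.sum_sub_distrib, ← Finset.mul_sum]
      simp only [Finset.sum_const, nsmul_eq_mul, mul_one]
      rw [div_mul_eq_mul_div]
      refine div_le_div_of_nonneg_right ?_ hdp.le
      have h3 : (1 - η) * n ≤ ∑ e ∈ Φ.E, ∑ b, ⟪S.x e.1 (Φ.π e b), S.y e.2 b⟫ := by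
        have := hval
        rw [VectorSolution.val, ← hn, le_div_iff₀ hnpos] at this
        exact this
      rw [← hn]; linarith)
  rw [← hn] at h1
  simp only [feat2_inner] at h1
  set K : V × W → V × W → ℝ := fun e₀ e =>
    ∑ a, ∑ c, ⟪S.x e.1 a, S.x e₀.1 c⟫ ^ 2 / (‖S.x e.1 a‖ * ‖S.x e₀.1 c‖) with hK
  have h2 : ∀ e₀ e, K e₀ e ^ 4 ≤ qq (S.x e.1) (S.x e₀.1) := fun e₀ e =>
    kernel2_le _ _ (fun a c => S.nonneg_xx _ _ _ _) (sum_inner_eq_one S _ _)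
      (fun a c => by rw [real_inner_comm]; exact inner_le_sq S _ _ _ _)
  have h3 : (∑ e₀ ∈ Φ.E, ∑ e ∈ Φ.E, K e₀ e ^ 2) ^ 2 ≤
      n ^ 2 * ∑ e₀ ∈ Φ.E, ∑ e ∈ Φ.E, K e₀ e ^ 4 := by
    rw [← Finset.sum_product', ← Finset.sum_product']
    have h4 := Finset.sum_mul_sq_le_sq_mul_sq (Φ.E ×ˢ Φ.E) (fun _ => (1 : ℝ))
      (fun p => K p.1 p.2 ^ 2)
    simp only [one_mul, one_pow, Finset.sum_const, nsmul_eq_mul, mul_one,
      Finset.card_product, Nat.cast_mul] at h4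
    refine h4.trans (le_of_eq ?_)
    rw [← hn, ← sq]
    congr 1
    exact Finset.sum_congr rfl fun p _ => by ring
  have h4 : ∑ e₀ ∈ Φ.E, ∑ e ∈ Φ.E, K e₀ e ^ 4 ≤
      ∑ e₀ ∈ Φ.E, ∑ e ∈ Φ.E, qq (S.x e.1) (S.x e₀.1) :=
    Finset.sum_le_sum fun e₀ _ => Finset.sum_le_sum fun e _ => h2 e₀ e
  set T := ∑ e₀ ∈ Φ.E, ∑ e ∈ Φ.E, qq (S.x e.1) (S.x e₀.1) with hT
  set κ := (1 - 2 * η) / √(d : ℝ) - σ with hκ'
  have h5 : (n ^ 2 * κ ^ 4) ^ 2 ≤ (m * ∑ e₀ ∈ Φ.E, ∑ e ∈ Φ.E, K e₀ e ^ 2) ^ 2 :=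
    pow_le_pow_left₀ (by positivity) h1 2
  have h6 : n ^ 2 * (n ^ 2 * κ ^ 8) ≤ n ^ 2 * ((m : ℝ) ^ 2 * T) := by
    calc n ^ 2 * (n ^ 2 * κ ^ 8) = (n ^ 2 * κ ^ 4) ^ 2 := by ring
      _ ≤ (m * ∑ e₀ ∈ Φ.E, ∑ e ∈ Φ.E, K e₀ e ^ 2) ^ 2 := h5
      _ = (m : ℝ) ^ 2 * (∑ e₀ ∈ Φ.E, ∑ e ∈ Φ.E, K e₀ e ^ 2) ^ 2 := by ring
      _ ≤ (m : ℝ) ^ 2 * (n ^ 2 * T) :=
          mul_le_mul_of_nonneg_left (h3.trans (mul_le_mul_of_nonneg_left h4 (by positivity)))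
            (by positivity)
      _ = n ^ 2 * ((m : ℝ) ^ 2 * T) := by ring
  exact le_of_mul_le_mul_left h6 (by positivity)

omit [Fintype V] [Fintype W] in
/-- The lower bound through the cubic features. -/
lemma bound3 (Φ : LabelCover V W d R) (S : VectorSolution V W d R N) (m : ℕ) (σ η : ℝ)
    (hd : 0 < d) (hE : Φ.E.Nonempty) (hσ : 0 ≤ σ) (hκ : σ ≤ (1 - 3 * η) / d)
    (hrank : Φ.LowRank σ m) (hval : 1 - η ≤ S.val Φ) :
    (Φ.E.card : ℝ) ^ 2 * ((1 - 3 * η) / d - σ) ^ 4 ≤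
      m * ∑ e₀ ∈ Φ.E, ∑ e ∈ Φ.E, qq (S.x e.1) (S.x e₀.1) := by
  set n : ℝ := (Φ.E.card : ℝ) with hn
  have hnpos : 0 < n := by rw [hn]; exact_mod_cast hE.card_pos
  have hdp : (0 : ℝ) < d := by exact_mod_cast hd
  have hx1 : ∀ v, ∑ a, ‖S.x v a‖ ^ 2 = 1 :=
    fun v => sum_norm_sq _ S.z S.norm_z (S.sum_x v) (S.orth_x v)
  have hy1 : ∀ w, ∑ b, ‖S.y w b‖ ^ 2 = 1 :=
    fun w => sum_norm_sq _ S.z S.norm_z (S.sum_y w) (S.orth_y w)
  have h1 := kernel_bound' Φ m σ ((1 - 3 * η) / d) hσ hκ hrank (fun v => feat3 (S.x v))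
    (fun w => feat3 (S.y w))
    (fun v => by rw [feat3_inner, self3 _ (S.orth_x v), hx1])
    (fun w => by rw [feat3_inner, self3 _ (S.orth_y w), hy1])
    (by
      have h2 : ∑ e ∈ Φ.E, (3 * ∑ b, ⟪S.x e.1 (Φ.π e b), S.y e.2 b⟫ - 2) / d ≤
          ∑ e ∈ Φ.E, ∑ t, feat3 (S.x e.1) t * feat3 (S.y e.2) t := by
        refine Finset.sum_le_sum fun e he => ?_
        rw [feat3_inner]
        exact edge3 _ _ _ d hd (Φ.dto1 e he) (hx1 _).le (hy1 _).le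
          (fun a b => S.nonneg_xy _ _ _ _)
      refine le_trans ?_ h2
      rw [← Finset.sum_div, Finset.sum_sub_distrib, ← Finset.mul_sum]
      simp only [Finset.sum_const, nsmul_eq_mul]
      rw [div_mul_eq_mul_div]
      refine div_le_div_of_nonneg_right ?_ hdp.le
      have h3 : (1 - η) * n ≤ ∑ e ∈ Φ.E, ∑ b, ⟪S.x e.1 (Φ.π e b), S.y e.2 b⟫ := by
        have := hval
        rw [VectorSolution.val, ← hn, le_div_iff₀ hnpos] at this
        exact this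
      rw [← hn]; linarith)
  rw [← hn] at h1
  simp only [feat3_inner] at h1
  refine h1.trans (mul_le_mul_of_nonneg_left ?_ (Nat.cast_nonneg m))
  exact Finset.sum_le_sum fun e₀ _ => Finset.sum_le_sum fun e _ =>
    kernel3_le _ _ (S.orth_x _) (hx1 _).le

/-- The vector solution given by a labelling. -/
def ofLabelling (f : V → Fin R) (g : W → Fin (d * R)) : VectorSolution V W d R 1 where
  x v a := if a = f v then EuclideanSpace.single 0 1 else 0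
  y w b := if b = g w then EuclideanSpace.single 0 1 else 0
  z := EuclideanSpace.single 0 1
  norm_z := by simp
  sum_x v := by simp
  sum_y w := by simp
  orth_x v a a' h := by
    by_cases h1 : a = f v
    · have h2 : a' ≠ f v := fun h3 => h (h1.trans h3.symm)
      rw [if_neg h2, inner_zero_right]
    · rw [if_neg h1, inner_zero_left]
  orth_y w b b' h := by
    by_cases h1 : b = g w
    · have h2 : b' ≠ g w := fun h3 => h (h1.trans h3.symm)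
      rw [if_neg h2, inner_zero_right]
    · rw [if_neg h1, inner_zero_left]
  nonneg_xx v a v' a' := by
    split_ifs <;> simp
  nonneg_xy v a w b := by
    split_ifs <;> simp
  nonneg_yy w b w' b' := by
    split_ifs <;> simp

omit [Fintype V] [Fintype W] in
lemma ofLabelling_val (Φ : LabelCover V W d R) (f : V → Fin R) (g : W → Fin (d * R)) :
    (ofLabelling f g).val Φ = Φ.frac f g := by
  rw [VectorSolution.val, LabelCover.frac]
  congr 1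
  rw [Finset.card_filter]
  push_cast
  refine Finset.sum_congr rfl fun e _ => ?_
  rw [Finset.sum_eq_single (g e.2)]
  · simp only [ofLabelling]
    split_ifs <;> simp
  · intro b _ hne
    simp [ofLabelling, hne]
  · intro h; exact absurd (Finset.mem_univ _) h

omit [Fintype V] [Fintype W] in
lemma value_nonneg (Φ : LabelCover V W d R) : 0 ≤ Φ.value := by
  refine Real.iSup_nonneg fun fg => ?_
  rw [LabelCover.frac]; positivity

end Main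

section Final

variable {V W : Type} {d R N : ℕ}

lemma value_ge_of_solution [Fintype V] [Fintype W] (m : ℕ) (Φ : LabelCover V W d R)
    (S : VectorSolution V W d R N) (σ η : ℝ) (hd : 0 < d) (hE : Φ.E.Nonempty) (hσ : 0 ≤ σ)
    (hrank : Φ.LowRank σ m) (hval : 1 - η ≤ S.val Φ) : lowerBound d m σ η ≤ Φ.value := by
  have hv := value_ge Φ S η hE hval
  have h0 := value_nonneg Φ
  have hs0 := Real.sqrt_nonneg (2 * η)
  have hn : (0 : ℝ) < (Φ.E.card : ℝ) ^ 2 := by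
    have : (0 : ℝ) < (Φ.E.card : ℝ) := by exact_mod_cast hE.card_pos
    positivity
  rw [lowerBound, sub_le_iff_le_add]
  rcases Nat.eq_zero_or_pos m with hm | hm
  · subst hm
    have hz : ∀ x : ℝ, x / ((0 : ℕ) : ℝ) ^ 2 = 0 := by intro x; simp
    have hz' : ∀ x : ℝ, x / ((0 : ℕ) : ℝ) = 0 := by intro x; simp
    rw [hz, hz', max_self]
    linarith
  have hm' : (0 : ℝ) < m := by exact_mod_cast hm
  set T := ∑ e₀ ∈ Φ.E, ∑ e ∈ Φ.E, qq (S.x e.1) (S.x e₀.1) with hT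
  refine max_le ?_ ?_
  · rcases le_total σ ((1 - 2 * η) / √d) with hκ | hκ
    · have h1 := bound2 Φ S m σ η hd hE hσ hκ hrank hval
      rw [← hT] at h1
      rw [max_eq_right (sub_nonneg.2 hκ)]
      have h2 : (Φ.E.card : ℝ) ^ 2 * (((1 - 2 * η) / √d - σ) ^ 8 / (m : ℝ) ^ 2) ≤ T := by
        rw [← mul_div_assoc, div_le_iff₀ (by positivity)]
        linarith
      have h3 : (Φ.E.card : ℝ) ^ 2 * (((1 - 2 * η) / √d - σ) ^ 8 / (m : ℝ) ^ 2) ≤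
          (Φ.E.card : ℝ) ^ 2 * (Φ.value + 2 * √(2 * η)) := by nlinarith
      exact le_of_mul_le_mul_left h3 hn
    · rw [max_eq_left (sub_nonpos.2 hκ)]
      simp only [ne_eq, OfNat.ofNat_ne_zero, not_false_eq_true, zero_pow, zero_div]
      linarith
  · rcases le_total σ ((1 - 3 * η) / d) with hκ | hκ
    · have h1 := bound3 Φ S m σ η hd hE hσ hκ hrank hval
      rw [← hT] at h1
      rw [max_eq_right (sub_nonneg.2 hκ)]
      have h2 : (Φ.E.card : ℝ) ^ 2 * (((1 - 3 * η) / d - σ) ^ 4 / (m : ℝ)) ≤ T := by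
        rw [← mul_div_assoc, div_le_iff₀ (by positivity)]
        linarith
      have h3 : (Φ.E.card : ℝ) ^ 2 * (((1 - 3 * η) / d - σ) ^ 4 / (m : ℝ)) ≤
          (Φ.E.card : ℝ) ^ 2 * (Φ.value + 2 * √(2 * η)) := by nlinarith
      exact le_of_mul_le_mul_left h3 hn
    · rw [max_eq_left (sub_nonpos.2 hκ)]
      simp only [ne_eq, OfNat.ofNat_ne_zero, not_false_eq_true, zero_pow, zero_div]
      linarith

lemma val_le_one (Φ : LabelCover V W d R) (S : VectorSolution V W d R N) : S.val Φ ≤ 1 := by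
  rw [VectorSolution.val]
  refine div_le_one_of_le₀ ?_ (Nat.cast_nonneg _)
  calc ∑ e ∈ Φ.E, ∑ b, ⟪S.x e.1 (Φ.π e b), S.y e.2 b⟫ ≤ ∑ _e ∈ Φ.E, (1 : ℝ) := by
        refine Finset.sum_le_sum fun e _ => ?_
        have := edge_value_le (S.x e.1) (S.y e.2) (Φ.π e) (S.orth_y e.2)
          (sum_norm_sq _ S.z S.norm_z (S.sum_x _) (S.orth_x _)).le
          (sum_norm_sq _ S.z S.norm_z (S.sum_y _) (S.orth_y _)).le
        linarith
    _ = (Φ.E.card : ℝ) := by simp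

lemma bddAbove_sdp (Φ : LabelCover V W d R) :
    BddAbove {t | ∃ (N : ℕ) (S : VectorSolution V W d R N), t = S.val Φ} :=
  ⟨1, by rintro t ⟨N, S, rfl⟩; exact val_le_one Φ S⟩

lemma sdp_nonneg (Φ : LabelCover V W d R) : 0 ≤ Φ.sdp := by
  refine Real.sSup_nonneg ?_
  rintro t ⟨N, S, rfl⟩
  rw [VectorSolution.val]
  exact div_nonneg (Finset.sum_nonneg fun e _ => Finset.sum_nonneg fun b _ =>
    S.nonneg_xy _ _ _ _) (Nat.cast_nonneg _)

end Final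

end

end Pool.Agent.H76.DTO
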