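import Pool.Agent.H76.DTO.Fourier

/-!
Projective frames over a finite field and the subspaces of coordinates used in the gap instances.
-/

namespace Pool.Agent.H76.DTO

open Finset Module
open scoped Classical

noncomputable section

set_option linter.unusedSectionVars false

/-- Representatives of the points of a projective space, indexed by `Fin n`. -/
structure Frame (F G : Type) [Field F] [AddCommGroup G] [Module F G] (n : ℕ) where
  pt : Fin n → G
  cls : G → Fin n
  lead : G → F
  eq : ∀ x, x = lead x • pt (cls x)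
  ne : ∀ i, pt i ≠ 0
  inj : ∀ i j (c : F), c • pt i = pt j → i = j

variable {F G : Type} [Field F] [Fintype F] [AddCommGroup G] [Module F G] [Fintype G] {n : ℕ}

instance dualFintype : Fintype (Dual F G) :=
  Fintype.ofInjective (fun S => (S : G → F)) DFunLike.coe_injective

lemma exists_frame [Nontrivial G] : ∃ n, Nonempty (Frame F G n) := by
  have : Fintype (Projectivization F G) := Fintype.ofFinite _
  obtain ⟨x₀, hx₀⟩ := exists_ne (0 : G)
  set e := Fintype.equivFin (Projectivization F G) with he
  have hlead : ∀ x : G, ∃ (c : F) (i : Fin (Fintype.card (Projectivization F G))),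
      x = c • (e.symm i).rep := by
    intro x
    by_cases hx : x = 0
    · exact ⟨0, e (Projectivization.mk F x₀ hx₀), by rw [hx, zero_smul]⟩
    · obtain ⟨a, ha⟩ := Projectivization.exists_smul_eq_mk_rep F x hx
      refine ⟨((a⁻¹ : Fˣ) : F), e (Projectivization.mk F x hx), ?_⟩
      rw [Equiv.symm_apply_apply, ← ha, Units.smul_def, smul_smul]
      simp
  choose lead cls hl using hlead
  refine ⟨Fintype.card (Projectivization F G), ⟨⟨fun i => (e.symm i).rep, cls, lead, hl,
    fun i => Projectivization.rep_nonzero _, ?_⟩⟩⟩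
  intro i j c h
  have h1 : Projectivization.mk F (e.symm j).rep (Projectivization.rep_nonzero _) =
      Projectivization.mk F (e.symm i).rep (Projectivization.rep_nonzero _) := by
    rw [Projectivization.mk_eq_mk_iff']
    exact ⟨c, h⟩
  rw [Projectivization.mk_rep, Projectivization.mk_rep] at h1
  exact (e.symm.injective h1).symm

namespace Frame

variable (P : Frame F G n)

lemma lead_zero : P.lead 0 = 0 := by
  have h := (P.eq 0).symm
  rcases smul_eq_zero.1 h with h | h
  · exact h
  · exact absurd h (P.ne _)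

lemma lead_ne {x : G} (hx : x ≠ 0) : P.lead x ≠ 0 := by
  intro h
  apply hx
  rw [P.eq x, h, zero_smul]

lemma cls_smul {c : F} (hc : c ≠ 0) (i : Fin n) : P.cls (c • P.pt i) = i := by
  have h := P.eq (c • P.pt i)
  refine P.inj _ _ (c⁻¹ * P.lead (c • P.pt i)) ?_
  rw [mul_smul, ← h, smul_smul, inv_mul_cancel₀ hc, one_smul]

lemma lead_smul {c : F} (hc : c ≠ 0) (i : Fin n) : P.lead (c • P.pt i) = c := by
  have h := P.eq (c • P.pt i)
  rw [P.cls_smul hc] at h
  have h2 : (c - P.lead (c • P.pt i)) • P.pt i = 0 := by rw [sub_smul, ← h, sub_self]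
  rcases smul_eq_zero.1 h2 with h3 | h3
  · exact (sub_eq_zero.1 h3).symm
  · exact absurd h3 (P.ne i)

/-- The homogeneous extension of a function on the projective points. -/
def ext (f : Fin n → F) (x : G) : F := P.lead x * f (P.cls x)

/-- The values of a linear functional on the representatives. -/
def ev : Dual F G →ₗ[F] (Fin n → F) where
  toFun U i := U (P.pt i)
  map_add' U V := by ext i; simp
  map_smul' c U := by ext i; simp

lemma ev_apply (U : Dual F G) (i : Fin n) : P.ev U i = U (P.pt i) := rfl

lemma dual_eq_zero {S : Dual F G} (h : ∀ i, S (P.pt i) = 0) : S = 0 := by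
  ext x
  rw [P.eq x, map_smul, h, smul_zero]; rfl

lemma ev_injective : Function.Injective P.ev := by
  rw [injective_iff_map_eq_zero]
  intro U hU
  exact P.dual_eq_zero fun i => congrFun hU i

/-- The functions vanishing on the points of the hyperplane of `S`. -/
def CC (S : Dual F G) : Submodule F (Fin n → F) where
  carrier := {g | ∀ i, S (P.pt i) = 0 → g i = 0}
  add_mem' := by intro a b ha hb i hi; simp [ha i hi, hb i hi]
  zero_mem' := by intro i _; rfl
  smul_mem' := by intro c a ha i hi; simp [ha i hi]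

lemma mem_CC (S : Dual F G) (g : Fin n → F) : g ∈ P.CC S ↔ ∀ i, S (P.pt i) = 0 → g i = 0 :=
  Iff.rfl

/-- The functions linear on the points of the hyperplane of `S`. -/
def LL (S : Dual F G) : Submodule F (Fin n → F) := P.CC S ⊔ LinearMap.range P.ev

lemma mem_LL (S : Dual F G) (g : Fin n → F) :
    g ∈ P.LL S ↔ ∃ U : Dual F G, ∀ i, S (P.pt i) = 0 → g i = U (P.pt i) := by
  rw [LL, Submodule.mem_sup]
  constructor
  · rintro ⟨c, hc, _, ⟨U, rfl⟩, rfl⟩
    exact ⟨U, fun i hi => by rw [Pi.add_apply, hc i hi, zero_add, P.ev_apply]⟩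
  · rintro ⟨U, hU⟩
    exact ⟨g - P.ev U, fun i hi => by rw [Pi.sub_apply, hU i hi, P.ev_apply, sub_self], P.ev U,
      ⟨U, rfl⟩, by abel⟩

lemma card_ker {S : Dual F G} (hS : S ≠ 0) :
    Fintype.card (LinearMap.ker S) * Fintype.card F = Fintype.card G := by
  rw [Module.card_eq_pow_finrank (K := F) (V := LinearMap.ker S),
    Module.card_eq_pow_finrank (K := F) (V := G), ← pow_succ,
    Module.Dual.finrank_ker_add_one_of_ne_zero hS]

lemma one_lt_card : 1 < Fintype.card F := Fintype.one_lt_card

lemma card_off {S : Dual F G} :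
    (Fintype.card F - 1) * Fintype.card {i : Fin n // S (P.pt i) ≠ 0} +
      Fintype.card (LinearMap.ker S) = Fintype.card G := by
  have e : (Fˣ × {i : Fin n // S (P.pt i) ≠ 0}) ≃ {x : G // ¬ (x ∈ LinearMap.ker S)} :=
    { toFun := fun p => ⟨(p.1 : F) • P.pt p.2, by
        rw [LinearMap.mem_ker, map_smul, smul_eq_mul]
        exact mul_ne_zero (Units.ne_zero _) p.2.2⟩
      invFun := fun x => ⟨Units.mk0 (P.lead x.1) (P.lead_ne (by
          rintro h; apply x.2; rw [h]; exact Submodule.zero_mem _)), ⟨P.cls x.1, by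
          intro h
          apply x.2
          rw [LinearMap.mem_ker, P.eq x.1, map_smul, h, smul_zero]⟩⟩
      left_inv := by
        rintro ⟨c, i, hi⟩
        ext
        · simp [P.lead_smul (Units.ne_zero c)]
        · simp [P.cls_smul (Units.ne_zero c)]
      right_inv := by
        rintro ⟨x, hx⟩
        ext
        simp only [Units.val_mk0]
        exact (P.eq x).symm }
  have h1 := Fintype.card_congr e
  rw [Fintype.card_prod, Fintype.card_units] at h1
  rw [h1, add_comm]
  have h2 := Fintype.card_subtype_compl (fun x : G => x ∈ LinearMap.ker S)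
  have h3 : Fintype.card {x : G // x ∈ LinearMap.ker S} ≤ Fintype.card G :=
    Fintype.card_subtype_le _
  rw [h2]
  exact Nat.add_sub_cancel' h3

lemma card_off_eq {S S' : Dual F G} (hS : S ≠ 0) (hS' : S' ≠ 0) :
    Fintype.card {i : Fin n // S (P.pt i) ≠ 0} = Fintype.card {i : Fin n // S' (P.pt i) ≠ 0} := by
  have h1 := P.card_off (S := S)
  have h2 := P.card_off (S := S')
  have h3 := card_ker hS
  have h4 := card_ker hS'
  have h5 : Fintype.card (LinearMap.ker S) = Fintype.card (LinearMap.ker S') :=
    Nat.eq_of_mul_eq_mul_right Fintype.card_pos (h3.trans h4.symm)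
  rw [← h2, h5] at h1
  have h6 : (Fintype.card F - 1) * Fintype.card {i : Fin n // S (P.pt i) ≠ 0} =
      (Fintype.card F - 1) * Fintype.card {i : Fin n // S' (P.pt i) ≠ 0} := by omega
  exact Nat.eq_of_mul_eq_mul_left (by have := one_lt_card (F := F); omega) h6

lemma card_CC (S : Dual F G) :
    Fintype.card (P.CC S) = Fintype.card F ^ Fintype.card {i : Fin n // S (P.pt i) ≠ 0} := by
  have e : P.CC S ≃ ({i : Fin n // S (P.pt i) ≠ 0} → F) :=
    { toFun := fun g i => g.1 i.1
      invFun := fun h => ⟨fun i => if hi : S (P.pt i) ≠ 0 then h ⟨i, hi⟩ else 0, fun i hi => by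
        simp [hi]⟩
      left_inv := by
        rintro ⟨g, hg⟩
        ext i
        by_cases hi : S (P.pt i) = 0
        · simp [hi, hg i hi]
        · simp [hi]
      right_inv := by
        intro h
        funext i
        simp [i.2] }
  rw [Fintype.card_congr e, Fintype.card_fun]

lemma card_CC_eq {S S' : Dual F G} (hS : S ≠ 0) (hS' : S' ≠ 0) :
    Fintype.card (P.CC S) = Fintype.card (P.CC S') := by
  rw [P.card_CC, P.card_CC, P.card_off_eq hS hS']

lemma mem_span_of_vanish {S U : Dual F G} (h : ∀ i, S (P.pt i) = 0 → U (P.pt i) = 0) :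
    U ∈ Submodule.span F {S} := by
  have h1 := mem_span_of_iInf_ker_le_ker (ι := Unit) (L := fun _ => S) (K := U) (by
    intro x hx
    rw [Submodule.mem_iInf] at hx
    have hx' := hx ()
    rw [LinearMap.mem_ker] at hx' ⊢
    by_cases h0 : x = 0
    · rw [h0, map_zero]
    · have h2 := P.eq x
      rw [h2, map_smul, smul_eq_mul] at hx' ⊢
      rcases mul_eq_zero.1 hx' with h3 | h3
      · exact absurd h3 (P.lead_ne h0)
      · rw [h _ h3, mul_zero])
  simpa using h1

lemma card_LL {S : Dual F G} (hS : S ≠ 0) :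
    Fintype.card (P.LL S) * Fintype.card F = Fintype.card (P.CC S) * Fintype.card G := by
  have h1 := Submodule.finrank_sup_add_finrank_inf_eq (P.CC S) (LinearMap.range P.ev)
  have h2 : P.CC S ⊓ LinearMap.range P.ev = Submodule.map P.ev (Submodule.span F {S}) := by
    ext g
    constructor
    · rintro ⟨hg, U, rfl⟩
      exact ⟨U, P.mem_span_of_vanish (fun i hi => hg i hi), rfl⟩
    · rintro ⟨U, hU, rfl⟩
      obtain ⟨c, rfl⟩ := Submodule.mem_span_singleton.1 hU
      refine ⟨fun i hi => ?_, ⟨_, rfl⟩⟩
      rw [P.ev_apply, LinearMap.smul_apply, hi, smul_zero]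
  have h3 : finrank F (Submodule.map P.ev (Submodule.span F {S})) = 1 := by
    rw [← (Submodule.equivMapOfInjective P.ev P.ev_injective _).finrank_eq,
      finrank_span_singleton hS]
  have h4 : finrank F (LinearMap.range P.ev) = finrank F G := by
    rw [LinearMap.finrank_range_of_inj P.ev_injective, Subspace.dual_finrank_eq]
  rw [h2, h3, h4] at h1
  rw [Module.card_eq_pow_finrank (K := F) (V := P.LL S),
    Module.card_eq_pow_finrank (K := F) (V := P.CC S),
    Module.card_eq_pow_finrank (K := F) (V := G), ← pow_succ, ← pow_add]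
  congr 1

lemma card_LL_eq {S S' : Dual F G} (hS : S ≠ 0) (hS' : S' ≠ 0) :
    Fintype.card (P.LL S) = Fintype.card (P.LL S') := by
  have h1 := P.card_LL hS
  have h2 := P.card_LL hS'
  rw [P.card_CC_eq hS hS', ← h2] at h1
  exact Nat.eq_of_mul_eq_mul_right Fintype.card_pos h1

lemma ann_CC {S : Dual F G} {b : Fin n → F} :
    Ann (P.CC S) b ↔ ∀ i ∈ Finset.univ.filter (fun i => b i ≠ 0), S (P.pt i) = 0 := by
  constructor
  · intro h i hi
    by_contra hS
    have h1 := h (Pi.single i 1) (fun j hj => by
      have : j ≠ i := by rintro rfl; exact hS hj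
      rw [Pi.single_eq_of_ne this])
    rw [dot, Finset.sum_eq_single i] at h1
    · rw [Pi.single_eq_same, mul_one] at h1
      exact (Finset.mem_filter.1 hi).2 h1
    · intro j _ hj; rw [Pi.single_eq_of_ne hj, mul_zero]
    · intro h2; exact absurd (Finset.mem_univ _) h2
  · intro h g hg
    refine Finset.sum_eq_zero fun i _ => ?_
    by_cases hb : b i = 0
    · rw [hb, zero_mul]
    · rw [hg i (h i (Finset.mem_filter.2 ⟨Finset.mem_univ _, hb⟩)), mul_zero]

omit P in
lemma card_le_of_subset_mem {A : Type} [AddCommGroup A] [Module F A] (s : Finset A)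
    (D : Submodule F A) [Fintype D] (h : ∀ x ∈ s, x ∈ D) : s.card ≤ Fintype.card D := by
  rw [← Fintype.card_coe s]
  exact Fintype.card_le_of_injective (fun x : s => (⟨x.1, h x.1 x.2⟩ : D))
    (fun x y hxy => Subtype.ext (congrArg (fun z : D => z.1) hxy))

/-- The number of nonzero functionals vanishing on a set of points. -/
lemma count_mul_le (B : Finset (Fin n)) (m : ℕ)
    (hm : m ≤ Fintype.card (Submodule.span F (P.pt '' B))) :
    (Finset.univ.filter (fun S : {S : Dual F G // S ≠ 0} => ∀ i ∈ B, S.1 (P.pt i) = 0)).card * m ≤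
      Fintype.card {S : Dual F G // S ≠ 0} := by
  set D := Submodule.span F (P.pt '' B) with hD
  have h1 : Fintype.card D * Fintype.card D.dualAnnihilator = Fintype.card (Dual F G) := by
    rw [Module.card_eq_pow_finrank (K := F) (V := D),
      Module.card_eq_pow_finrank (K := F) (V := D.dualAnnihilator),
      Module.card_eq_pow_finrank (K := F) (V := Dual F G), ← pow_add,
      Subspace.finrank_add_finrank_dualAnnihilator_eq, Subspace.dual_finrank_eq]
  have h2 : (Finset.univ.filter (fun S : {S : Dual F G // S ≠ 0} =>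
      ∀ i ∈ B, S.1 (P.pt i) = 0)).card + 1 ≤ Fintype.card D.dualAnnihilator := by
    have h3 : (Finset.univ.filter (fun S : {S : Dual F G // S ≠ 0} =>
        ∀ i ∈ B, S.1 (P.pt i) = 0)).card =
        ((Finset.univ.filter (fun S : {S : Dual F G // S ≠ 0} =>
        ∀ i ∈ B, S.1 (P.pt i) = 0)).image (fun S => S.1)).card :=
      (Finset.card_image_of_injective _ Subtype.val_injective).symm
    rw [h3, ← Finset.card_insert_of_notMem (a := (0 : Dual F G)) (by
      intro h
      obtain ⟨S, _, hS⟩ := Finset.mem_image.1 h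
      exact S.2 hS)]
    refine card_le_of_subset_mem _ _ ?_
    intro S hS
    rw [Submodule.mem_dualAnnihilator]
    rcases Finset.mem_insert.1 hS with h | h
    · rw [h]; intro w _; rfl
    · obtain ⟨S', hS', rfl⟩ := Finset.mem_image.1 h
      have h4 := (Finset.mem_filter.1 hS').2
      intro w hw
      refine Submodule.span_induction ?_ ?_ ?_ ?_ hw
      · rintro x ⟨i, hi, rfl⟩
        exact h4 i hi
      · simp
      · intro x y _ _ hx hy; rw [map_add, hx, hy, add_zero]
      · intro c x _ hx; rw [map_smul, hx, smul_zero]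
  have h5 : Fintype.card {S : Dual F G // S ≠ 0} + 1 = Fintype.card (Dual F G) := by
    have := Fintype.card_subtype_compl (fun S : Dual F G => S = 0)
    rw [Fintype.card_subtype_eq] at this
    have h6 : 0 < Fintype.card (Dual F G) := Fintype.card_pos
    change Fintype.card {S : Dual F G // ¬ S = 0} + 1 = _
    omega
  set a := (Finset.univ.filter (fun S : {S : Dual F G // S ≠ 0} =>
      ∀ i ∈ B, S.1 (P.pt i) = 0)).card with ha
  have h7 : (a + 1) * Fintype.card D ≤ Fintype.card (Dual F G) := by
    rw [← h1, mul_comm]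
    exact Nat.mul_le_mul_left _ h2
  have h8 : 0 < Fintype.card D := Fintype.card_pos
  have h9 : a * m ≤ a * Fintype.card D := Nat.mul_le_mul_left _ hm
  nlinarith

lemma pt_injective : Function.Injective P.pt := fun i j h => P.inj i j 1 (by rw [one_smul, h])

lemma card_span_ge (B : Finset (Fin n)) :
    B.card + 1 ≤ Fintype.card (Submodule.span F (P.pt '' B)) := by
  rw [← Finset.card_image_of_injective B P.pt_injective,
    ← Finset.card_insert_of_notMem (a := (0 : G)) (by
      intro h
      obtain ⟨i, _, hi⟩ := Finset.mem_image.1 h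
      exact P.ne i hi)]
  refine card_le_of_subset_mem _ _ ?_
  intro x hx
  rcases Finset.mem_insert.1 hx with h | h
  · rw [h]; exact Submodule.zero_mem _
  · obtain ⟨i, hi, rfl⟩ := Finset.mem_image.1 h
    exact Submodule.subset_span ⟨i, hi, rfl⟩

lemma card_span_ge_sq (B : Finset (Fin n)) (i j : Fin n) (hi : i ∈ B) (hj : j ∈ B) (hij : i ≠ j) :
    Fintype.card F ^ 2 ≤ Fintype.card (Submodule.span F (P.pt '' B)) := by
  have h1 : Function.Injective (fun c : F × F =>
      (⟨c.1 • P.pt i + c.2 • P.pt j, Submodule.add_mem _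
        (Submodule.smul_mem _ _ (Submodule.subset_span ⟨i, hi, rfl⟩))
        (Submodule.smul_mem _ _ (Submodule.subset_span ⟨j, hj, rfl⟩))⟩ :
        Submodule.span F (P.pt '' B))) := by
    intro c c' h
    have h2 : c.1 • P.pt i + c.2 • P.pt j = c'.1 • P.pt i + c'.2 • P.pt j := congrArg Subtype.val h
    have h3 : (c.1 - c'.1) • P.pt i = (c'.2 - c.2) • P.pt j := by
      rw [sub_smul, sub_smul, sub_eq_sub_iff_add_eq_add, h2]; abel
    have h4 : c'.2 - c.2 = 0 := by
      by_contra h5
      apply hij
      refine P.inj i j ((c'.2 - c.2)⁻¹ * (c.1 - c'.1)) ?_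
      rw [mul_smul, h3, smul_smul, inv_mul_cancel₀ h5, one_smul]
    rw [h4, zero_smul] at h3
    have h5 : c.1 - c'.1 = 0 := by
      rcases smul_eq_zero.1 h3 with h6 | h6
      · exact h6
      · exact absurd h6 (P.ne i)
    ext
    · exact sub_eq_zero.1 h5
    · exact (sub_eq_zero.1 h4).symm
  have h6 := Fintype.card_le_of_injective _ h1
  rwa [Fintype.card_prod, ← sq] at h6

/-- The count for the spectral estimate. -/
lemma count_LL (b : Fin n → F) (hb : b ≠ 0) :
    (Finset.univ.filter (fun S : {S : Dual F G // S ≠ 0} => Ann (P.LL S.1) b)).card *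
      Fintype.card F ^ 2 ≤ Fintype.card {S : Dual F G // S ≠ 0} := by
  by_cases hne : ∃ S : {S : Dual F G // S ≠ 0}, Ann (P.LL S.1) b
  swap
  · have : (Finset.univ.filter (fun S : {S : Dual F G // S ≠ 0} => Ann (P.LL S.1) b)) = ∅ := by
      rw [Finset.filter_eq_empty_iff]
      intro S _ h
      exact hne ⟨S, h⟩
    rw [this]; simp
  obtain ⟨S₀, hS₀⟩ := hne
  -- two different points of the support
  obtain ⟨i, hi⟩ : ∃ i, b i ≠ 0 := by
    by_contra h
    push Not at h
    exact hb (funext h)
  have hsum : ∑ i, b i • P.pt i = 0 := by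
    by_contra h0
    obtain ⟨U, hU⟩ : ∃ U : Dual F G, U (∑ i, b i • P.pt i) ≠ 0 := by
      by_contra hc
      push Not at hc
      exact h0 ((Module.forall_dual_apply_eq_zero_iff F _).1 hc)
    apply hU
    have h1 := hS₀ (P.ev U) (Submodule.mem_sup_right ⟨U, rfl⟩)
    rw [map_sum, ← h1, dot]
    refine Finset.sum_congr rfl fun i _ => ?_
    rw [map_smul, smul_eq_mul, P.ev_apply]
  obtain ⟨j, hji, hj⟩ : ∃ j, j ≠ i ∧ b j ≠ 0 := by
    by_contra h
    push Not at h
    rw [Finset.sum_eq_single i] at hsum
    · rcases smul_eq_zero.1 hsum with h1 | h1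
      · exact hi h1
      · exact P.ne i h1
    · intro j _ hj; rw [h j hj, zero_smul]
    · intro h1; exact absurd (Finset.mem_univ _) h1
  set B := Finset.univ.filter (fun i => b i ≠ 0) with hB
  have h1 := P.count_mul_le B (Fintype.card F ^ 2)
    (P.card_span_ge_sq B i j (Finset.mem_filter.2 ⟨Finset.mem_univ _, hi⟩)
      (Finset.mem_filter.2 ⟨Finset.mem_univ _, hj⟩) (Ne.symm hji))
  refine le_trans (Nat.mul_le_mul_right _ (Finset.card_le_card ?_)) h1
  intro S hS
  rw [Finset.mem_filter] at hS ⊢
  refine ⟨hS.1, ?_⟩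
  exact P.ann_CC.1 (fun g hg => hS.2 g (Submodule.mem_sup_left hg))

/-- The count for the soundness estimate. -/
lemma count_CC (b : Fin n → F) :
    (Finset.univ.filter (fun S : {S : Dual F G // S ≠ 0} => Ann (P.CC S.1) b)).card *
      (wt b + 1) ≤ Fintype.card {S : Dual F G // S ≠ 0} := by
  have h1 := P.count_mul_le (Finset.univ.filter (fun i => b i ≠ 0)) (wt b + 1)
    (P.card_span_ge _)
  refine le_trans (Nat.mul_le_mul_right _ (Finset.card_le_card ?_)) h1
  intro S hS
  rw [Finset.mem_filter] at hS ⊢
  exact ⟨hS.1, P.ann_CC.1 hS.2⟩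

end Frame

end

end Pool.Agent.H76.DTO
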