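import Mathlib

/-!
Hypercontractivity for functions on a power of a finite field, and Plancherel formulas.
-/

namespace Pool.Agent.H76.DTO

open Finset

noncomputable section

set_option linter.unusedSectionVars false

variable {F : Type} [Field F] [Fintype F] [DecidableEq F]

/-- The number of nonzero coordinates. -/
def wt {n : ℕ} (b : Fin n → F) : ℕ := (Finset.univ.filter (fun i => b i ≠ 0)).card

lemma wt_cons {n : ℕ} (j : F) (b : Fin n → F) :
    wt (Fin.cons j b : Fin (n + 1) → F) = (if j ≠ 0 then 1 else 0) + wt b := by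
  rw [wt, wt, Finset.card_filter, Finset.card_filter, Fin.sum_univ_succ]
  simp

/-- Fourth moments of centred perturbations. -/
lemma fourth_moment {T : Type*} [Fintype T] (a : ℂ) (β : T → ℂ) (B : ℝ) (h0 : ∑ t, β t = 0)
    (hB : ∀ t, ‖β t‖ ^ 2 ≤ B) :
    ∑ t, ‖a + β t‖ ^ 4 ≤ Fintype.card T * (‖a‖ ^ 4 + 8 * ‖a‖ ^ 2 * B + 3 * B ^ 2) := by
  have h1 : ∀ t, ‖a + β t‖ ^ 4 ≤
      (‖a‖ ^ 4 + 8 * ‖a‖ ^ 2 * B + 3 * B ^ 2) + 4 * ‖a‖ ^ 2 * (a * starRingEnd ℂ (β t)).re := by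
    intro t
    have e1 : ‖a + β t‖ ^ 2 = ‖a‖ ^ 2 + ‖β t‖ ^ 2 + 2 * (a * starRingEnd ℂ (β t)).re := by
      rw [← Complex.normSq_eq_norm_sq, ← Complex.normSq_eq_norm_sq, ← Complex.normSq_eq_norm_sq,
        Complex.normSq_add]
    have e2 : |(a * starRingEnd ℂ (β t)).re| ≤ ‖a‖ * ‖β t‖ := by
      refine (Complex.abs_re_le_norm _).trans ?_
      rw [norm_mul, Complex.norm_conj]
    have e3 := hB t
    set r := (a * starRingEnd ℂ (β t)).re
    set A := ‖a‖
    set b := ‖β t‖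
    have hA : 0 ≤ A := norm_nonneg _
    have hb : 0 ≤ b := norm_nonneg _
    have e4 : r ^ 2 ≤ A ^ 2 * b ^ 2 := by
      rw [← mul_pow, ← sq_abs r]
      exact pow_le_pow_left₀ (abs_nonneg _) e2 2
    have e5 : 4 * r * b ^ 2 ≤ 2 * A ^ 2 * b ^ 2 + 2 * b ^ 4 := by
      have : r ≤ A * b := (le_abs_self r).trans e2
      nlinarith [sq_nonneg (A - b), mul_nonneg hb hb, mul_le_mul_of_nonneg_right this
        (mul_nonneg hb hb)]
    have e6 : ‖a + β t‖ ^ 4 = (A ^ 2 + b ^ 2 + 2 * r) ^ 2 := by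
      rw [← e1]; ring
    rw [e6]
    have e7 : b ^ 4 ≤ B ^ 2 := by
      have := pow_le_pow_left₀ (sq_nonneg b) e3 2
      calc b ^ 4 = (b ^ 2) ^ 2 := by ring
        _ ≤ B ^ 2 := this
    have e8 : A ^ 2 * b ^ 2 ≤ A ^ 2 * B := mul_le_mul_of_nonneg_left e3 (sq_nonneg _)
    nlinarith
  have h2 : ∑ t, (a * starRingEnd ℂ (β t)).re = 0 := by
    rw [← Complex.re_sum, ← Finset.mul_sum, ← map_sum, h0]
    simp
  calc ∑ t, ‖a + β t‖ ^ 4 ≤ ∑ t : T, ((‖a‖ ^ 4 + 8 * ‖a‖ ^ 2 * B + 3 * B ^ 2) +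
        4 * ‖a‖ ^ 2 * (a * starRingEnd ℂ (β t)).re) := Finset.sum_le_sum fun t _ => h1 t
    _ = _ := by
      rw [Finset.sum_add_distrib, ← Finset.mul_sum, h2, mul_zero, add_zero, Finset.sum_const,
        nsmul_eq_mul, Finset.card_univ]

/-- A Fourier sum. -/
def fsum (ψ : AddChar F ℂ) {n : ℕ} (c : (Fin n → F) → ℂ) (y : Fin n → F) : ℂ :=
  ∑ b, c b * ψ (∑ i, b i * y i)

lemma fsum_cons (ψ : AddChar F ℂ) {n : ℕ} (c : (Fin (n + 1) → F) → ℂ) (t : F) (y : Fin n → F) :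
    fsum ψ c (Fin.cons t y) = ∑ j, ψ (j * t) * fsum ψ (fun b => c (Fin.cons j b)) y := by
  rw [fsum, ← (Fin.consEquiv (fun _ : Fin (n + 1) => F)).sum_comp, Fintype.sum_prod_type]
  refine Finset.sum_congr rfl fun j _ => ?_
  rw [fsum, Finset.mul_sum]
  refine Finset.sum_congr rfl fun b _ => ?_
  have h1 : ∑ i, (Fin.consEquiv (fun _ : Fin (n + 1) => F)) (j, b) i *
      (Fin.cons t y : Fin (n + 1) → F) i = j * t + ∑ i, b i * y i := by
    rw [Fin.sum_univ_succ]
    simp [Fin.consEquiv]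
  rw [h1, AddChar.map_add_eq_mul]
  change c (Fin.cons j b) * _ = _
  ring

lemma norm_psi (ψ : AddChar F ℂ) (x : F) : ‖ψ x‖ = 1 := AddChar.norm_apply ψ x

lemma cs_le {ι : Type*} (s : Finset ι) (u v : ι → ℝ) (X Y : ℝ) (hX : 0 ≤ X) (hY : 0 ≤ Y)
    (hu : ∑ i ∈ s, u i ^ 2 ≤ X ^ 2) (hv : ∑ i ∈ s, v i ^ 2 ≤ Y ^ 2) :
    ∑ i ∈ s, u i * v i ≤ X * Y := by
  refine (Real.sum_mul_le_sqrt_mul_sqrt s u v).trans ?_
  refine mul_le_mul ?_ ?_ (Real.sqrt_nonneg _) hX
  · rw [Real.sqrt_le_left hX]; exact hu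
  · rw [Real.sqrt_le_left hY]; exact hv

/-- **Hypercontractivity**: a Fourier sum supported on vectors with at most `s` nonzero coordinates
has fourth moment at most `(16 q ^ 2) ^ s` times the square of its second moment. -/
lemma hyper (ψ : AddChar F ℂ) (hψ : ψ.IsPrimitive) (n : ℕ) : ∀ (s : ℕ) (c : (Fin n → F) → ℂ),
    (∀ b, s < wt b → c b = 0) →
    ∑ y : Fin n → F, ‖fsum ψ c y‖ ^ 4 ≤
      (Fintype.card F : ℝ) ^ n * (16 * (Fintype.card F : ℝ) ^ 2) ^ s * (∑ b, ‖c b‖ ^ 2) ^ 2 := by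
  set q : ℝ := (Fintype.card F : ℝ) with hq
  have hq1 : 1 ≤ q := by
    rw [hq]; exact_mod_cast Fintype.card_pos
  induction n with
  | zero =>
    intro s c _
    have hK : (1 : ℝ) ≤ (16 * q ^ 2) ^ s := one_le_pow₀ (by nlinarith)
    simp only [fsum, Finset.univ_eq_empty, Finset.sum_empty, AddChar.map_zero_eq_one, mul_one,
      Finset.univ_unique, Finset.sum_singleton, pow_zero, one_mul]
    have : 0 ≤ (‖c default‖ ^ 2) ^ 2 := by positivity
    nlinarith
  | succ n ih =>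
    intro s c hc
    set A : F → ℝ := fun j => ∑ b, ‖c (Fin.cons j b)‖ ^ 2 with hA
    have hA0 : ∀ j, 0 ≤ A j := fun j => Finset.sum_nonneg fun b _ => sq_nonneg _
    have hAsum : ∑ b, ‖c b‖ ^ 2 = ∑ j, A j := by
      rw [← (Fin.consEquiv (fun _ : Fin (n + 1) => F)).sum_comp, Fintype.sum_prod_type]
      rfl
    have hAsplit : ∑ j, A j = A 0 + ∑ j ∈ Finset.univ.erase (0 : F), A j :=
      (Finset.add_sum_erase _ _ (Finset.mem_univ _)).symm
    set A' := ∑ j ∈ Finset.univ.erase (0 : F), A j with hA'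
    have hA'0 : 0 ≤ A' := Finset.sum_nonneg fun j _ => hA0 j
    set Q : F → (Fin n → F) → ℂ := fun j y => fsum ψ (fun b => c (Fin.cons j b)) y with hQ
    have hsum : ∑ y : Fin (n + 1) → F, ‖fsum ψ c y‖ ^ 4 =
        ∑ y : Fin n → F, ∑ t : F, ‖Q 0 y + ∑ j ∈ Finset.univ.erase (0 : F), ψ (j * t) * Q j y‖ ^ 4 := by
      rw [← (Fin.consEquiv (fun _ : Fin (n + 1) => F)).sum_comp, Fintype.sum_prod_type,
        Finset.sum_comm]
      refine Finset.sum_congr rfl fun y _ => Finset.sum_congr rfl fun t _ => ?_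
      change ‖fsum ψ c (Fin.cons t y)‖ ^ 4 = _
      rw [fsum_cons, ← Finset.add_sum_erase _ _ (Finset.mem_univ (0 : F))]
      simp [hQ]
    rw [hsum, hAsum, hAsplit]
    rcases Nat.eq_zero_or_pos s with hs | hs
    · subst hs
      have hzero : ∀ j ∈ Finset.univ.erase (0 : F), ∀ y, Q j y = 0 := by
        intro j hj y
        rw [hQ]
        simp only [fsum]
        refine Finset.sum_eq_zero fun b _ => ?_
        rw [hc (Fin.cons j b), zero_mul]
        rw [wt_cons, if_pos (Finset.ne_of_mem_erase hj)]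
        omega
      have h1 := ih 0 (fun b => c (Fin.cons 0 b)) (fun b hb => hc _ (by
        rw [wt_cons]; omega))
      have h2 : ∀ (y : Fin n → F) (t : F), ‖Q 0 y + ∑ j ∈ Finset.univ.erase (0 : F),
          ψ (j * t) * Q j y‖ ^ 4 = ‖Q 0 y‖ ^ 4 := by
        intro y t
        rw [Finset.sum_eq_zero (fun j hj => by rw [hzero j hj y, mul_zero]), add_zero]
      simp only [h2, Finset.sum_const, nsmul_eq_mul, Finset.card_univ, ← Finset.mul_sum]
      rw [pow_zero, mul_one] at h1 ⊢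
      have h3 : A 0 ^ 2 ≤ (A 0 + A') ^ 2 := by nlinarith [hA0 0]
      calc q * ∑ y, ‖Q 0 y‖ ^ 4 ≤ q * (q ^ n * A 0 ^ 2) :=
            mul_le_mul_of_nonneg_left h1 (by linarith)
        _ ≤ q * (q ^ n * (A 0 + A') ^ 2) := by gcongr
        _ = q ^ (n + 1) * (A 0 + A') ^ 2 := by ring
    · obtain ⟨s, rfl⟩ : ∃ s', s = s' + 1 := ⟨s - 1, by omega⟩
      set K : ℝ := 16 * q ^ 2 with hK
      have hK0 : 0 ≤ K := by positivity
      set κ : ℝ := √(q ^ n * K ^ s) with hκ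
      have hκ0 : 0 ≤ κ := Real.sqrt_nonneg _
      have hκ2 : κ ^ 2 = q ^ n * K ^ s := Real.sq_sqrt (by positivity)
      have ha : ∑ y, ‖Q 0 y‖ ^ 4 ≤ q ^ n * K ^ (s + 1) * A 0 ^ 2 :=
        ih (s + 1) (fun b => c (Fin.cons 0 b)) (fun b hb => hc _ (by rw [wt_cons]; omega))
      have hb : ∀ j ∈ Finset.univ.erase (0 : F), ∑ y, ‖Q j y‖ ^ 4 ≤ q ^ n * K ^ s * A j ^ 2 := by
        intro j hj
        refine ih s (fun b => c (Fin.cons j b)) (fun b hb => hc _ ?_)
        rw [wt_cons, if_pos (Finset.ne_of_mem_erase hj)]; omega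
      -- the pointwise bound
      set Bf : (Fin n → F) → ℝ := fun y => q * ∑ j ∈ Finset.univ.erase (0 : F), ‖Q j y‖ ^ 2 with hBf
      have hpt : ∀ y, ∑ t : F, ‖Q 0 y + ∑ j ∈ Finset.univ.erase (0 : F), ψ (j * t) * Q j y‖ ^ 4 ≤
          q * (‖Q 0 y‖ ^ 4 + 8 * ‖Q 0 y‖ ^ 2 * Bf y + 3 * Bf y ^ 2) := by
        intro y
        refine fourth_moment (Q 0 y) _ (Bf y) ?_ ?_
        · rw [Finset.sum_comm]
          refine Finset.sum_eq_zero fun j hj => ?_
          rw [← Finset.sum_mul]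
          have := AddChar.sum_mulShift j hψ
          rw [if_neg (Finset.ne_of_mem_erase hj)] at this
          rw [Finset.sum_congr rfl fun t _ => by rw [mul_comm j t], this]
          simp
        · intro t
          have h1 : ‖∑ j ∈ Finset.univ.erase (0 : F), ψ (j * t) * Q j y‖ ≤
              ∑ j ∈ Finset.univ.erase (0 : F), 1 * ‖Q j y‖ := by
            refine (norm_sum_le _ _).trans (le_of_eq ?_)
            refine Finset.sum_congr rfl fun j _ => ?_
            rw [norm_mul, norm_psi]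
          have h2 := pow_le_pow_left₀ (norm_nonneg _) h1 2
          refine h2.trans ((Finset.sum_mul_sq_le_sq_mul_sq _ _ _).trans ?_)
          simp only [one_pow, Finset.sum_const, nsmul_eq_mul, mul_one]
          refine mul_le_mul_of_nonneg_right ?_ (Finset.sum_nonneg fun j _ => sq_nonneg _)
          rw [hq]
          exact_mod_cast Finset.card_le_univ _
      have hmix : ∑ y, ‖Q 0 y‖ ^ 2 * Bf y ≤ 4 * q ^ 2 * (q ^ n * K ^ s) * (A 0 * A') := by
        have h1 : ∑ y, ‖Q 0 y‖ ^ 2 * Bf y =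
            q * ∑ j ∈ Finset.univ.erase (0 : F), ∑ y, ‖Q 0 y‖ ^ 2 * ‖Q j y‖ ^ 2 := by
          rw [Finset.sum_comm, Finset.mul_sum]
          refine Finset.sum_congr rfl fun y _ => ?_
          rw [hBf]
          simp only
          rw [← Finset.mul_sum]; ring
        rw [h1]
        have h2 : ∀ j ∈ Finset.univ.erase (0 : F), ∑ y, ‖Q 0 y‖ ^ 2 * ‖Q j y‖ ^ 2 ≤
            4 * q * (q ^ n * K ^ s) * A 0 * A j := by
          intro j hj
          have h3 := cs_le Finset.univ (fun y => ‖Q 0 y‖ ^ 2) (fun y => ‖Q j y‖ ^ 2)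
            (κ * (4 * q) * A 0) (κ * A j) (by have := hA0 0; positivity)
            (by have := hA0 j; positivity)
            (by
              calc ∑ y, (‖Q 0 y‖ ^ 2) ^ 2 = ∑ y, ‖Q 0 y‖ ^ 4 :=
                    Finset.sum_congr rfl fun y _ => by ring
                _ ≤ _ := ha
                _ = κ ^ 2 * K * A 0 ^ 2 := by rw [hκ2]; ring
                _ = (κ * (4 * q) * A 0) ^ 2 := by rw [hK]; ring)
            (by
              calc ∑ y, (‖Q j y‖ ^ 2) ^ 2 = ∑ y, ‖Q j y‖ ^ 4 :=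
                    Finset.sum_congr rfl fun y _ => by ring
                _ ≤ _ := hb j hj
                _ = (κ * A j) ^ 2 := by rw [← hκ2]; ring)
          refine h3.trans (le_of_eq ?_)
          rw [← hκ2]; ring
        calc q * ∑ j ∈ Finset.univ.erase (0 : F), ∑ y, ‖Q 0 y‖ ^ 2 * ‖Q j y‖ ^ 2
            ≤ q * ∑ j ∈ Finset.univ.erase (0 : F), 4 * q * (q ^ n * K ^ s) * A 0 * A j :=
              mul_le_mul_of_nonneg_left (Finset.sum_le_sum h2) (by linarith)
          _ = 4 * q ^ 2 * (q ^ n * K ^ s) * (A 0 * A') := by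
              rw [← Finset.mul_sum, ← hA']; ring
      have hsq : ∑ y, Bf y ^ 2 ≤ q ^ 2 * (q ^ n * K ^ s) * A' ^ 2 := by
        have h1 : ∑ y, Bf y ^ 2 = q ^ 2 * ∑ i ∈ Finset.univ.erase (0 : F),
            ∑ j ∈ Finset.univ.erase (0 : F), ∑ y, ‖Q i y‖ ^ 2 * ‖Q j y‖ ^ 2 := by
          have h2 : ∀ y, Bf y ^ 2 = q ^ 2 * ∑ i ∈ Finset.univ.erase (0 : F),
              ∑ j ∈ Finset.univ.erase (0 : F), ‖Q i y‖ ^ 2 * ‖Q j y‖ ^ 2 := by
            intro y
            rw [hBf]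
            simp only
            rw [mul_pow, sq (∑ j ∈ Finset.univ.erase (0 : F), ‖Q j y‖ ^ 2), Finset.sum_mul_sum]
          rw [Finset.sum_congr rfl fun y _ => h2 y, ← Finset.mul_sum, Finset.sum_comm]
          congr 1
          refine Finset.sum_congr rfl fun i _ => ?_
          rw [Finset.sum_comm]
        rw [h1]
        have h2 : ∀ i ∈ Finset.univ.erase (0 : F), ∀ j ∈ Finset.univ.erase (0 : F),
            ∑ y, ‖Q i y‖ ^ 2 * ‖Q j y‖ ^ 2 ≤ (q ^ n * K ^ s) * (A i * A j) := by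
          intro i hi j hj
          have h3 : ∀ j ∈ Finset.univ.erase (0 : F), ∑ y, (‖Q j y‖ ^ 2) ^ 2 ≤ (κ * A j) ^ 2 := by
            intro j hj
            calc ∑ y, (‖Q j y‖ ^ 2) ^ 2 = ∑ y, ‖Q j y‖ ^ 4 :=
                  Finset.sum_congr rfl fun y _ => by ring
              _ ≤ _ := hb j hj
              _ = (κ * A j) ^ 2 := by rw [← hκ2]; ring
          have h4 := cs_le Finset.univ (fun y => ‖Q i y‖ ^ 2) (fun y => ‖Q j y‖ ^ 2)
            (κ * A i) (κ * A j) (by have := hA0 i; positivity)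
            (by have := hA0 j; positivity) (h3 i hi) (h3 j hj)
          refine h4.trans (le_of_eq ?_)
          rw [← hκ2]; ring
        refine le_trans (mul_le_mul_of_nonneg_left
          (Finset.sum_le_sum fun i hi => Finset.sum_le_sum fun j hj => h2 i hi j hj)
          (sq_nonneg q)) (le_of_eq ?_)
        simp only [← Finset.mul_sum, ← Finset.sum_mul]
        rw [← hA']; ring
      calc ∑ y : Fin n → F, ∑ t : F,
            ‖Q 0 y + ∑ j ∈ Finset.univ.erase (0 : F), ψ (j * t) * Q j y‖ ^ 4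
          ≤ ∑ y : Fin n → F, q * (‖Q 0 y‖ ^ 4 + 8 * ‖Q 0 y‖ ^ 2 * Bf y + 3 * Bf y ^ 2) :=
            Finset.sum_le_sum fun y _ => hpt y
        _ = q * (∑ y, ‖Q 0 y‖ ^ 4 + 8 * ∑ y, ‖Q 0 y‖ ^ 2 * Bf y + 3 * ∑ y, Bf y ^ 2) := by
            rw [← Finset.mul_sum, Finset.sum_add_distrib, Finset.sum_add_distrib,
              ← Finset.mul_sum, Finset.mul_sum Finset.univ _ 8]
            congr 3
            exact Finset.sum_congr rfl fun y _ => by ring
        _ ≤ q * (q ^ n * K ^ (s + 1) * A 0 ^ 2 +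
              8 * (4 * q ^ 2 * (q ^ n * K ^ s) * (A 0 * A')) +
              3 * (q ^ 2 * (q ^ n * K ^ s) * A' ^ 2)) := by
            gcongr
        _ = q ^ (n + 1) * K ^ s * (16 * q ^ 2 * A 0 ^ 2 + 32 * q ^ 2 * (A 0 * A') +
              3 * q ^ 2 * A' ^ 2) := by rw [pow_succ K, hK]; ring
        _ ≤ q ^ (n + 1) * K ^ s * (K * (A 0 + A') ^ 2) := by
            refine mul_le_mul_of_nonneg_left ?_ (by positivity)
            rw [hK]
            nlinarith [mul_nonneg (sq_nonneg q) (sq_nonneg A')]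
        _ = q ^ (n + 1) * K ^ (s + 1) * (A 0 + A') ^ 2 := by ring

end

end Pool.Agent.H76.DTO
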