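import Pool.Agent.H76.DTO.SharpDefs
import Pool.Agent.H76.DTO.Gap

/-!
The plain basic relaxation has bounded gap below the critical second singular value.
-/

namespace Pool.Agent.H76.DTO

open Finset
open scoped RealInnerProductSpace

noncomputable section

variable {V W : Type} {d R N : ℕ}

lemma fiber_eq {Φ : LabelCover V W d R} (S : PerfectSolution Φ N) {e : V × W} (he : e ∈ Φ.E)
    (a : Fin R) :
    S.x e.1 a = ∑ b ∈ Finset.univ.filter (fun b => Φ.π e b = a), S.y e.2 b := by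
  have h1 : ∀ a, ‖S.x e.1 a - ∑ b ∈ Finset.univ.filter (fun b => Φ.π e b = a), S.y e.2 b‖ ^ 2 =
      ‖S.x e.1 a‖ ^ 2 - ∑ b ∈ Finset.univ.filter (fun b => Φ.π e b = a),
        (2 * ⟪S.x e.1 a, S.y e.2 b⟫ - ‖S.y e.2 b‖ ^ 2) := by
    intro a
    rw [norm_sub_sq_real, inner_sum, Finset.sum_sub_distrib, ← Finset.mul_sum]
    have h3 : ‖∑ b ∈ Finset.univ.filter (fun b => Φ.π e b = a), S.y e.2 b‖ ^ 2 =
        ∑ b ∈ Finset.univ.filter (fun b => Φ.π e b = a), ‖S.y e.2 b‖ ^ 2 := by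
      rw [← real_inner_self_eq_norm_sq, sum_inner]
      refine Finset.sum_congr rfl fun b hb => ?_
      rw [inner_sum, Finset.sum_eq_single b]
      · rw [real_inner_self_eq_norm_sq]
      · intro b' _ hne; exact S.orth_y e.2 b b' (Ne.symm hne)
      · intro h; exact absurd hb h
    rw [h3]; ring
  have h2 : ∑ a, ‖S.x e.1 a - ∑ b ∈ Finset.univ.filter (fun b => Φ.π e b = a), S.y e.2 b‖ ^ 2 =
      0 := by
    rw [Finset.sum_congr rfl fun a _ => h1 a, Finset.sum_sub_distrib]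
    have h3 : ∑ a, ∑ b ∈ Finset.univ.filter (fun b => Φ.π e b = a),
        (2 * ⟪S.x e.1 a, S.y e.2 b⟫ - ‖S.y e.2 b‖ ^ 2) =
        ∑ b, (2 * ⟪S.x e.1 (Φ.π e b), S.y e.2 b⟫ - ‖S.y e.2 b‖ ^ 2) := by
      rw [← Finset.sum_fiberwise Finset.univ (Φ.π e)
        (fun b => 2 * ⟪S.x e.1 (Φ.π e b), S.y e.2 b⟫ - ‖S.y e.2 b‖ ^ 2)]
      refine Finset.sum_congr rfl fun a _ => Finset.sum_congr rfl fun b hb => ?_
      rw [(Finset.mem_filter.1 hb).2]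
    rw [h3, Finset.sum_sub_distrib, ← Finset.mul_sum, S.perfect e he, S.norm_x, S.norm_y]
    norm_num
  have h3 := (Finset.sum_eq_zero_iff_of_nonneg (fun a _ => sq_nonneg _)).1 h2 a (Finset.mem_univ a)
  exact sub_eq_zero.1 (norm_eq_zero.1 (pow_eq_zero_iff (by norm_num) |>.1 h3))

lemma inner_edge {Φ : LabelCover V W d R} (S : PerfectSolution Φ N) {e : V × W} (he : e ∈ Φ.E)
    (a : Fin R) (b : Fin (d * R)) :
    ⟪S.x e.1 a, S.y e.2 b⟫ = if Φ.π e b = a then ‖S.y e.2 b‖ ^ 2 else 0 := by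
  rw [fiber_eq S he a, sum_inner]
  split_ifs with h
  · rw [Finset.sum_eq_single b]
    · rw [real_inner_self_eq_norm_sq]
    · intro b' _ hne; exact S.orth_y e.2 b' b hne
    · intro hb; exact absurd (Finset.mem_filter.2 ⟨Finset.mem_univ b, h⟩) hb
  · refine Finset.sum_eq_zero fun b' hb' => ?_
    refine S.orth_y e.2 b' b ?_
    rintro rfl
    exact h (Finset.mem_filter.1 hb').2

lemma cs_sq_le {Φ : LabelCover V W d R} (S : PerfectSolution Φ N) {e : V × W} (he : e ∈ Φ.E)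
    (a : Fin R) (u : EuclideanSpace ℝ (Fin N)) :
    cs (S.x e.1 a) u ^ 2 ≤
      ∑ b ∈ Finset.univ.filter (fun b => Φ.π e b = a), cs u (S.y e.2 b) ^ 2 := by
  rcases (norm_nonneg (S.x e.1 a)).eq_or_lt with h0 | hp
  · have : cs (S.x e.1 a) u = 0 := by rw [cs, ← h0]; simp
    rw [this]
    exact le_trans (by norm_num) (Finset.sum_nonneg fun b _ => sq_nonneg _)
  rcases (norm_nonneg u).eq_or_lt with h0 | hq
  · have : cs (S.x e.1 a) u = 0 := by rw [cs, ← h0]; simp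
    rw [this]
    exact le_trans (by norm_num) (Finset.sum_nonneg fun b _ => sq_nonneg _)
  set s := Finset.univ.filter (fun b => Φ.π e b = a) with hs
  set B := ∑ b ∈ s, cs u (S.y e.2 b) ^ 2 with hB
  have hB0 : 0 ≤ B := Finset.sum_nonneg fun b _ => sq_nonneg _
  have hres : ‖S.x e.1 a‖ ^ 2 - ∑ b ∈ s, ⟪S.x e.1 a, S.y e.2 b⟫ ^ 2 / ‖S.y e.2 b‖ ^ 2 = 0 := by
    have h1 : ∑ b ∈ s, ⟪S.x e.1 a, S.y e.2 b⟫ ^ 2 / ‖S.y e.2 b‖ ^ 2 =
        ∑ b ∈ s, ‖S.y e.2 b‖ ^ 2 := by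
      refine Finset.sum_congr rfl fun b hb => ?_
      rw [inner_edge S he, if_pos (Finset.mem_filter.1 hb).2]
      rcases eq_or_ne (‖S.y e.2 b‖ ^ 2) 0 with h | h
      · rw [h]; simp
      · field_simp
    rw [h1, fiber_eq S he a, ← hs, ← real_inner_self_eq_norm_sq, sum_inner]
    have h2 : ∑ b ∈ s, ⟪S.y e.2 b, ∑ b ∈ s, S.y e.2 b⟫ = ∑ b ∈ s, ‖S.y e.2 b‖ ^ 2 := by
      refine Finset.sum_congr rfl fun b hb => ?_
      rw [inner_sum, Finset.sum_eq_single b]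
      · rw [real_inner_self_eq_norm_sq]
      · intro b' _ hne; exact S.orth_y e.2 b b' (Ne.symm hne)
      · intro h; exact absurd hb h
    rw [h2, sub_self]
  have h2 : ∑ b ∈ s, ⟪u, S.y e.2 b⟫ ^ 2 / ‖S.y e.2 b‖ ^ 2 = ‖u‖ ^ 2 * B := by
    rw [hB, Finset.mul_sum]
    refine Finset.sum_congr rfl fun b _ => ?_
    rw [cs, div_pow, mul_pow]
    field_simp
  have hup : ⟪S.x e.1 a, u⟫ ≤ ‖S.x e.1 a‖ * (‖u‖ * √B) := by
    have h1 := split_inner s (S.y e.2) (fun b _ b' _ h => S.orth_y e.2 b b' h) (S.x e.1 a) u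
    rw [hres, Real.sqrt_zero, zero_mul, add_zero, h2, Real.sqrt_mul (sq_nonneg _),
      Real.sqrt_sq hq.le] at h1
    exact h1
  have hdn : -⟪S.x e.1 a, u⟫ ≤ ‖S.x e.1 a‖ * (‖u‖ * √B) := by
    have h1 := split_inner s (S.y e.2) (fun b _ b' _ h => S.orth_y e.2 b b' h) (S.x e.1 a) (-u)
    have h3 : ∑ b ∈ s, ⟪-u, S.y e.2 b⟫ ^ 2 / ‖S.y e.2 b‖ ^ 2 = ‖u‖ ^ 2 * B := by
      rw [← h2]
      refine Finset.sum_congr rfl fun b _ => ?_
      rw [inner_neg_left, neg_sq]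
    rw [hres, Real.sqrt_zero, zero_mul, add_zero, h3, Real.sqrt_mul (sq_nonneg _),
      Real.sqrt_sq hq.le, inner_neg_right] at h1
    exact h1
  have habs : |⟪S.x e.1 a, u⟫| ≤ ‖S.x e.1 a‖ * ‖u‖ * √B := by
    rw [abs_le]; constructor <;> nlinarith
  have hsq : ⟪S.x e.1 a, u⟫ ^ 2 ≤ (‖S.x e.1 a‖ * ‖u‖) ^ 2 * B := by
    rw [← sq_abs]
    calc |⟪S.x e.1 a, u⟫| ^ 2 ≤ (‖S.x e.1 a‖ * ‖u‖ * √B) ^ 2 :=
          pow_le_pow_left₀ (abs_nonneg _) habs 2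
      _ = (‖S.x e.1 a‖ * ‖u‖) ^ 2 * B := by rw [mul_pow, Real.sq_sqrt hB0]
  rw [cs, div_pow, div_le_iff₀ (by positivity)]
  linarith

/-- **Bounded gap below the critical second singular value.** -/
theorem lower_bound [Fintype V] [Fintype W] (hd : 0 < d) (Φ : LabelCover V W d R)
    (hE : Φ.E.Nonempty) (σ : ℝ) (hσ : 0 ≤ σ) (hσd : σ < 1 / d) (hs : Φ.SecondSingular σ)
    (S : PerfectSolution Φ N) : (1 / d - σ) ^ 4 ≤ Φ.value := by
  classical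
  set n : ℝ := (Φ.E.card : ℝ) with hn
  have hnpos : 0 < n := by rw [hn]; exact_mod_cast hE.card_pos
  obtain ⟨e₁, he₁⟩ := hE
  have hR : Nonempty (Fin R) := by
    by_contra h
    rw [not_nonempty_iff] at h
    have := S.norm_x e₁.1
    simp at this
  have hdR : Nonempty (Fin (d * R)) := by
    by_contra h
    rw [not_nonempty_iff] at h
    have := S.norm_y e₁.2
    simp at this
  -- rounding
  have hseed : ∀ (v₀ : V) (c : Fin R), ∑ e ∈ Φ.E, ∑ b,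
      cs (S.x e.1 (Φ.π e b)) (S.x v₀ c) ^ 2 * cs (S.x v₀ c) (S.y e.2 b) ^ 2 ≤ n * Φ.value := by
    intro v₀ c
    obtain ⟨f, g, hfg⟩ := round Φ.E Φ.π (fun v a => cs (S.x v a) (S.x v₀ c) ^ 2)
      (fun w b => cs (S.x v₀ c) (S.y w b) ^ 2) (fun v a => sq_nonneg _) (fun w b => sq_nonneg _)
      (fun v => by
        simp only [cs_comm _ (S.x v₀ c)]
        exact sum_cs_sq_le _ _ (S.orth_x v))
      (fun w => sum_cs_sq_le _ _ (S.orth_y w))
    refine hfg.trans ?_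
    have h1 : Φ.frac f g ≤ Φ.value :=
      le_ciSup (f := fun fg : (V → Fin R) × (W → Fin (d * R)) => Φ.frac fg.1 fg.2)
        (Set.finite_range _).bddAbove (f, g)
    have h2 : ((Φ.E.filter (fun e => Φ.π e (g e.2) = f e.1)).card : ℝ) = n * Φ.frac f g := by
      rw [LabelCover.frac, ← hn, mul_div_cancel₀ _ hnpos.ne']
    rw [h2]
    exact mul_le_mul_of_nonneg_left h1 hnpos.le
  have hedge : ∀ e ∈ Φ.E, ∀ (v₀ : V), qq (S.x e.1) (S.x v₀) ≤ ∑ c, ‖S.x v₀ c‖ ^ 2 * ∑ b,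
      cs (S.x e.1 (Φ.π e b)) (S.x v₀ c) ^ 2 * cs (S.x v₀ c) (S.y e.2 b) ^ 2 := by
    intro e he v₀
    rw [qq, Finset.sum_comm]
    refine Finset.sum_le_sum fun c _ => ?_
    rw [← Finset.mul_sum]
    refine mul_le_mul_of_nonneg_left ?_ (sq_nonneg _)
    rw [← Finset.sum_fiberwise Finset.univ (Φ.π e)
      (fun b => cs (S.x e.1 (Φ.π e b)) (S.x v₀ c) ^ 2 * cs (S.x v₀ c) (S.y e.2 b) ^ 2)]
    refine Finset.sum_le_sum fun a _ => ?_
    have h1 : ∑ b ∈ Finset.univ.filter (fun b => Φ.π e b = a),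
        cs (S.x e.1 (Φ.π e b)) (S.x v₀ c) ^ 2 * cs (S.x v₀ c) (S.y e.2 b) ^ 2 =
        cs (S.x e.1 a) (S.x v₀ c) ^ 2 *
          ∑ b ∈ Finset.univ.filter (fun b => Φ.π e b = a), cs (S.x v₀ c) (S.y e.2 b) ^ 2 := by
      rw [Finset.mul_sum]
      refine Finset.sum_congr rfl fun b hb => ?_
      rw [(Finset.mem_filter.1 hb).2]
    rw [h1]
    have h2 := cs_sq_le S he a (S.x v₀ c)
    calc cs (S.x e.1 a) (S.x v₀ c) ^ 4 =
          cs (S.x e.1 a) (S.x v₀ c) ^ 2 * cs (S.x e.1 a) (S.x v₀ c) ^ 2 := by ring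
      _ ≤ _ := mul_le_mul_of_nonneg_left h2 (sq_nonneg _)
  have hvert : ∀ v₀ : V, ∑ e ∈ Φ.E, qq (S.x e.1) (S.x v₀) ≤ n * Φ.value := by
    intro v₀
    refine (Finset.sum_le_sum fun e he => hedge e he v₀).trans ?_
    rw [Finset.sum_comm]
    calc ∑ c, ∑ e ∈ Φ.E, ‖S.x v₀ c‖ ^ 2 * ∑ b,
          cs (S.x e.1 (Φ.π e b)) (S.x v₀ c) ^ 2 * cs (S.x v₀ c) (S.y e.2 b) ^ 2
        = ∑ c, ‖S.x v₀ c‖ ^ 2 * ∑ e ∈ Φ.E, ∑ b,
          cs (S.x e.1 (Φ.π e b)) (S.x v₀ c) ^ 2 * cs (S.x v₀ c) (S.y e.2 b) ^ 2 := by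
          refine Finset.sum_congr rfl fun c _ => ?_
          rw [Finset.mul_sum]
      _ ≤ ∑ c, ‖S.x v₀ c‖ ^ 2 * (n * Φ.value) :=
          Finset.sum_le_sum fun c _ => mul_le_mul_of_nonneg_left (hseed v₀ c) (sq_nonneg _)
      _ = n * Φ.value := by rw [← Finset.sum_mul, S.norm_x, one_mul]
  have htot : ∑ e₀ ∈ Φ.E, ∑ e ∈ Φ.E, qq (S.x e.1) (S.x e₀.1) ≤ n * (n * Φ.value) := by
    calc _ ≤ ∑ _e₀ ∈ Φ.E, n * Φ.value := Finset.sum_le_sum fun e₀ _ => hvert e₀.1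
      _ = n * (n * Φ.value) := by rw [Finset.sum_const, nsmul_eq_mul, ← hn]
  -- the spectral step
  have hrank : Φ.LowRank σ 1 := ⟨fun _ _ => 1, fun f g h => hs f g (by simpa using h 0)⟩
  have h1 := kernel_bound' Φ 1 σ (1 / d) hσ hσd.le hrank (fun v => feat3 (S.x v))
    (fun w => feat3 (S.y w))
    (fun v => by rw [feat3_inner, self3 _ (S.orth_x v), S.norm_x])
    (fun w => by rw [feat3_inner, self3 _ (S.orth_y w), S.norm_y])
    (by
      have h2 : ∑ _e ∈ Φ.E, (1 / (d : ℝ)) ≤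
          ∑ e ∈ Φ.E, ∑ t, feat3 (S.x e.1) t * feat3 (S.y e.2) t := by
        refine Finset.sum_le_sum fun e he => ?_
        rw [feat3_inner]
        have h3 := edge3 (S.x e.1) (S.y e.2) (Φ.π e) d hd (Φ.dto1 e he) (S.norm_x _).le
          (S.norm_y _).le (fun a b => by
            rw [inner_edge S he]; split_ifs <;> positivity)
        rw [S.perfect e he] at h3
        refine le_trans (le_of_eq ?_) h3
        norm_num
      refine le_trans (le_of_eq ?_) h2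
      rw [Finset.sum_const, nsmul_eq_mul]; ring)
  rw [← hn] at h1
  simp only [feat3_inner, Nat.cast_one, one_mul] at h1
  have h2 : ∑ e₀ ∈ Φ.E, ∑ e ∈ Φ.E, (∑ a, ∑ b, ⟪S.x e.1 a, S.x e₀.1 b⟫ ^ 3 /
      (‖S.x e.1 a‖ ^ 2 * ‖S.x e₀.1 b‖ ^ 2)) ^ 2 ≤
      ∑ e₀ ∈ Φ.E, ∑ e ∈ Φ.E, qq (S.x e.1) (S.x e₀.1) :=
    Finset.sum_le_sum fun e₀ _ => Finset.sum_le_sum fun e _ =>
      kernel3_le _ _ (S.orth_x _) (S.norm_x _).le
  have h3 : n ^ 2 * (1 / d - σ) ^ 4 ≤ n ^ 2 * Φ.value := by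
    calc n ^ 2 * (1 / d - σ) ^ 4 ≤ _ := h1
      _ ≤ _ := h2
      _ ≤ _ := htot
      _ = n ^ 2 * Φ.value := by ring
  exact le_of_mul_le_mul_left h3 (by positivity)

end

end Pool.Agent.H76.DTO
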