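import Pool.Agent.H76.DTO.Spectral

/-!
The number of edges of the gap instances satisfied by a labelling.
-/

namespace Pool.Agent.H76.DTO

open Finset Module
open scoped Classical

noncomputable section

set_option linter.unusedSectionVars false

variable {F G : Type} [Field F] [Fintype F] [AddCommGroup G] [Module F G] [Fintype G] {n : ℕ}

lemma card_dual : Fintype.card (Dual F G) = Fintype.card G := by
  rw [Module.card_eq_pow_finrank (K := F) (V := Dual F G),
    Module.card_eq_pow_finrank (K := F) (V := G), Subspace.dual_finrank_eq]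

lemma ite_mul_le (p q r s : Prop) [Decidable p] [Decidable q] [Decidable r] [Decidable s]
    (h : p → q → r ∧ s) :
    (if p then (1 : ℝ) else 0) * (if q then 1 else 0) ≤
      (if r then 1 else 0) * (if s then 1 else 0) := by
  by_cases hp : p
  · by_cases hq : q
    · obtain ⟨hr, hs⟩ := h hp hq
      rw [if_pos hp, if_pos hq, if_pos hr, if_pos hs]
    · rw [if_neg hq, mul_zero]
      split_ifs <;> norm_num
  · rw [if_neg hp, zero_mul]
    split_ifs <;> norm_num

namespace Frame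

variable (P : Frame F G n)

/-- The shifted labelling of the right vertices. -/
def lab (T : (Fin n → F) → Dual F G) (f : Fin n → F) : Fin n → F := f + P.ev (T f)

/-- The number of right vertices with a given shifted label. -/
def cnt (T : (Fin n → F) → Dual F G) (g : Fin n → F) : ℝ :=
  ∑ f : Fin n → F, if P.lab T f = g then 1 else 0

lemma sum_lab (T : (Fin n → F) → Dual F G) (u : (Fin n → F) → ℝ) :
    ∑ f, u (P.lab T f) = ∑ g, P.cnt T g * u g := by
  simp only [cnt, Finset.sum_mul]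
  rw [Finset.sum_comm]
  refine Finset.sum_congr rfl fun f _ => ?_
  rw [Finset.sum_eq_single (P.lab T f)]
  · rw [if_pos rfl, one_mul]
  · intro g _ hg; rw [if_neg (Ne.symm hg), zero_mul]
  · intro h; exact absurd (Finset.mem_univ _) h

lemma cnt_nonneg (T : (Fin n → F) → Dual F G) (g : Fin n → F) : 0 ≤ P.cnt T g :=
  Finset.sum_nonneg fun f _ => by split_ifs <;> norm_num

lemma cnt_le (T : (Fin n → F) → Dual F G) (g : Fin n → F) :
    P.cnt T g ≤ (Fintype.card G : ℝ) := by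
  rw [cnt, ← Finset.sum_filter, Finset.sum_const, nsmul_eq_mul, mul_one, ← card_dual (F := F)]
  have h1 : (Finset.univ.filter (fun f => P.lab T f = g)).card ≤
      (Finset.univ : Finset (Dual F G)).card := by
    refine Finset.card_le_card_of_injOn T (fun _ _ => Finset.mem_univ _) ?_
    intro f hf f' hf' h
    rw [Finset.mem_coe, Finset.mem_filter] at hf hf'
    have h2 := hf.2.trans hf'.2.symm
    rw [lab, lab, h] at h2
    exact add_right_cancel h2
  rw [Finset.card_univ] at h1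
  exact_mod_cast h1

lemma sum_cnt (T : (Fin n → F) → Dual F G) : ∑ g, P.cnt T g = (Fintype.card F : ℝ) ^ n := by
  have h1 := P.sum_lab T (fun _ => 1)
  simp only [mul_one] at h1
  rw [← h1, Finset.sum_const, Finset.card_univ, nsmul_eq_mul, mul_one, card_fun]

/-- The number of pairs of right vertices whose shifted labels differ by an element of a
subspace. -/
lemma pair_count (T : (Fin n → F) → Dual F G) (K : Submodule F (Fin n → F)) :
    ∑ f, ∑ f', (if P.lab T f' - P.lab T f ∈ K then (1 : ℝ) else 0) =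
      (Fintype.card K : ℝ) * ∑ g, P.cnt T g * savg K (P.cnt T) g := by
  have h1 : ∀ f, ∑ f', (if P.lab T f' - P.lab T f ∈ K then (1 : ℝ) else 0) =
      (Fintype.card K : ℝ) * savg K (P.cnt T) (P.lab T f) := by
    intro f
    rw [P.sum_lab T (fun g => if g - P.lab T f ∈ K then (1 : ℝ) else 0)]
    have e1 : ∀ g, P.cnt T g * (if g - P.lab T f ∈ K then (1 : ℝ) else 0) =
        if g - P.lab T f ∈ K then P.cnt T g else 0 := fun g => by
      split_ifs <;> simp
    rw [Finset.sum_congr rfl fun g _ => e1 g, sum_coset, savg,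
      mul_div_cancel₀ _ (card_pos_real K).ne']
  rw [Finset.sum_congr rfl fun f _ => h1 f, ← Finset.mul_sum,
    P.sum_lab T (fun g => savg K (P.cnt T) g)]

/-- **Soundness of the gap instances.** -/
lemma sound_aux (ψ : AddChar F ℂ) (hψ : ψ.IsPrimitive) (T : (Fin n → F) → Dual F G)
    (L C : ℝ) (hL0 : 0 < L) (hL : ∀ S : NZ F G, (Fintype.card (P.LL S.1) : ℝ) = L)
    (hC : ∀ S : NZ F G, (Fintype.card (P.CC S.1) : ℝ) = C)
    (hLC : L * (Fintype.card F : ℝ) = C * (Fintype.card G : ℝ))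
    (Sat : Finset ((NZ F G × (Fin n → F)) × (Fin n → F))) (hsub : Sat ⊆ P.edges)
    (hsat : ∀ v f f', (v, f) ∈ Sat → (v, f') ∈ Sat → P.lab T f' - P.lab T f ∈ P.CC v.1.1) :
    (Sat.card : ℝ) ^ 2 ≤ ((P.edges.card : ℝ)) ^ 2 * ((Fintype.card F : ℝ) *
      ((Fintype.card G : ℝ) *
        ∑ b, ‖fc ψ (fun g => P.cnt T g / (Fintype.card G : ℝ)) b‖ ^ 2 / ((wt b : ℝ) + 1))) := by
  set q : ℝ := (Fintype.card F : ℝ) with hq
  have hq0 : 0 < q := qpos
  set N : ℝ := (Fintype.card G : ℝ) with hN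
  have hN0 : 0 < N := by rw [hN]; exact_mod_cast Fintype.card_pos
  set M : ℝ := (Fintype.card (NZ F G) : ℝ) with hM
  have hM0 : 0 ≤ M := Nat.cast_nonneg _
  set a : (Fin n → F) → ℝ := fun g => P.cnt T g / N with ha
  have hcnt : ∀ g, P.cnt T g = N * a g := fun g => by rw [ha]; field_simp
  set Y : ℝ := ∑ b, ‖fc ψ a b‖ ^ 2 / ((wt b : ℝ) + 1) with hY
  -- the number of edges
  have hE : (P.edges.card : ℝ) = M * q ^ n * L := by
    have h1 := P.sum_edges_left L hL (fun _ => 1)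
    rw [Finset.sum_const, nsmul_eq_mul, mul_one, Finset.sum_const, Finset.card_univ, nsmul_eq_mul,
      mul_one, Fintype.card_prod, Nat.cast_mul, card_fun] at h1
    rw [h1]; ring
  -- the number of satisfied edges at a left vertex
  set t : NZ F G × (Fin n → F) → ℝ := fun v => ∑ f, if (v, f) ∈ Sat then 1 else 0 with ht
  have hS : (Sat.card : ℝ) = ∑ v, t v := by
    have h1 : (Sat.card : ℝ) = ∑ e ∈ Sat, (1 : ℝ) := by simp
    have h2 : ∑ e ∈ Sat, (1 : ℝ) = ∑ e, if e ∈ Sat then (1 : ℝ) else 0 := by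
      rw [Finset.sum_ite_mem, Finset.univ_inter]
    rw [h1, h2, Fintype.sum_prod_type]
  have h1 : (Sat.card : ℝ) ^ 2 ≤ (M * q ^ n) * ∑ v, t v ^ 2 := by
    rw [hS]
    have := sq_sum_le_card_mul_sum_sq (s := (Finset.univ : Finset (NZ F G × (Fin n → F)))) (f := t)
    rw [Finset.card_univ, Fintype.card_prod, Nat.cast_mul, card_fun] at this
    exact this
  have h2 : ∀ v, t v ^ 2 ≤ ∑ f, ∑ f', (if f - v.2 ∈ P.LL v.1.1 then (1 : ℝ) else 0) *
      (if P.lab T f' - P.lab T f ∈ P.CC v.1.1 then (1 : ℝ) else 0) := by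
    intro v
    rw [sq, ht]
    simp only
    rw [Finset.sum_mul_sum]
    refine Finset.sum_le_sum fun f _ => Finset.sum_le_sum fun f' _ => ?_
    exact ite_mul_le _ _ _ _ fun hf hf' =>
      ⟨(P.mem_edges (v, f)).1 (hsub hf), hsat v f f' hf hf'⟩
  have h3 : ∑ v, t v ^ 2 ≤ ∑ S : NZ F G, L * (C * ∑ g, P.cnt T g * savg (P.CC S.1) (P.cnt T) g) := by
    refine (Finset.sum_le_sum fun v _ => h2 v).trans (le_of_eq ?_)
    rw [Fintype.sum_prod_type]
    refine Finset.sum_congr rfl fun S _ => ?_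
    rw [← hC S, ← P.pair_count T (P.CC S.1), Finset.sum_comm, Finset.mul_sum]
    refine Finset.sum_congr rfl fun f _ => ?_
    change ∑ h : Fin n → F, ∑ f', (if f - h ∈ P.LL S.1 then (1 : ℝ) else 0) *
      (if P.lab T f' - P.lab T f ∈ P.CC S.1 then (1 : ℝ) else 0) = _
    simp only [← Finset.mul_sum]
    rw [← Finset.sum_mul]
    congr 1
    have e1 : ∀ h : Fin n → F, (if f - h ∈ P.LL S.1 then (1 : ℝ) else 0) =
        if h - f ∈ P.LL S.1 then (1 : ℝ) else 0 := by
      intro h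
      have : f - h ∈ P.LL S.1 ↔ h - f ∈ P.LL S.1 := by
        rw [← neg_mem_iff, neg_sub]
      by_cases hh : h - f ∈ P.LL S.1
      · rw [if_pos hh, if_pos (this.2 hh)]
      · rw [if_neg hh, if_neg (fun h' => hh (this.1 h'))]
    rw [Finset.sum_congr rfl fun h _ => e1 h, sum_coset (P.LL S.1) f (fun _ => 1), Finset.sum_const,
      Finset.card_univ, nsmul_eq_mul, mul_one, hL S]
  have h4 : ∀ S : NZ F G, ∑ g, P.cnt T g * savg (P.CC S.1) (P.cnt T) g =
      N ^ 2 * q ^ n * ∑ b, (if Ann (P.CC S.1) b then ‖fc ψ a b‖ ^ 2 else 0) := by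
    intro S
    rw [quad ψ hψ, mul_assoc, mul_div_cancel₀ _ (pow_pos hq0 n).ne', Finset.mul_sum]
    refine Finset.sum_congr rfl fun g _ => ?_
    have e1 : savg (P.CC S.1) (P.cnt T) g = N * savg (P.CC S.1) a g := by
      rw [savg, savg, ← mul_div_assoc, Finset.mul_sum]
      congr 1
      exact Finset.sum_congr rfl fun k _ => hcnt _
    rw [e1, hcnt g]; ring
  have h5 : ∑ S : NZ F G, ∑ b, (if Ann (P.CC S.1) b then ‖fc ψ a b‖ ^ 2 else 0) ≤ M * Y := by
    rw [Finset.sum_comm, hY, Finset.mul_sum]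
    refine Finset.sum_le_sum fun b _ => ?_
    rw [← Finset.sum_filter, Finset.sum_const, nsmul_eq_mul]
    have e1 : ((Finset.univ.filter (fun S : NZ F G => Ann (P.CC S.1) b)).card : ℝ) *
        ((wt b : ℝ) + 1) ≤ M := by
      have := P.count_CC b
      rw [hM]
      exact_mod_cast this
    have e2 : (0 : ℝ) < (wt b : ℝ) + 1 := by positivity
    rw [← mul_div_assoc, le_div_iff₀ e2]
    calc _ = ((Finset.univ.filter (fun S : NZ F G => Ann (P.CC S.1) b)).card : ℝ) *
        ((wt b : ℝ) + 1) * ‖fc ψ a b‖ ^ 2 := by ring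
      _ ≤ M * ‖fc ψ a b‖ ^ 2 := mul_le_mul_of_nonneg_right e1 (by positivity)
  have hC0 : 0 ≤ C := by
    have h6 : 0 < C * N := by rw [← hLC]; positivity
    exact (pos_of_mul_pos_left h6 hN0.le).le
  have h6 : ∑ v, t v ^ 2 ≤ L * C * N ^ 2 * q ^ n * (M * Y) := by
    refine h3.trans ?_
    rw [Finset.sum_congr rfl fun S _ => by rw [h4 S], ← Finset.mul_sum, ← Finset.mul_sum,
      ← Finset.mul_sum]
    calc L * (C * (N ^ 2 * q ^ n *
          ∑ S : NZ F G, ∑ b, (if Ann (P.CC S.1) b then ‖fc ψ a b‖ ^ 2 else 0)))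
        = (L * C * N ^ 2 * q ^ n) *
          ∑ S : NZ F G, ∑ b, (if Ann (P.CC S.1) b then ‖fc ψ a b‖ ^ 2 else 0) := by ring
      _ ≤ (L * C * N ^ 2 * q ^ n) * (M * Y) :=
          mul_le_mul_of_nonneg_left h5 (by positivity)
  calc (Sat.card : ℝ) ^ 2 ≤ (M * q ^ n) * ∑ v, t v ^ 2 := h1
    _ ≤ (M * q ^ n) * (L * C * N ^ 2 * q ^ n * (M * Y)) :=
        mul_le_mul_of_nonneg_left h6 (by positivity)
    _ = (M * q ^ n) ^ 2 * L * N * Y * (C * N) := by ring
    _ = (M * q ^ n) ^ 2 * L * N * Y * (L * q) := by rw [hLC]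
    _ = _ := by rw [hE]; ring

lemma sound (ψ : AddChar F ℂ) (hψ : ψ.IsPrimitive) (T : (Fin n → F) → Dual F G)
    (L C : ℝ) (hL0 : 0 < L) (hL : ∀ S : NZ F G, (Fintype.card (P.LL S.1) : ℝ) = L)
    (hC : ∀ S : NZ F G, (Fintype.card (P.CC S.1) : ℝ) = C)
    (hLC : L * (Fintype.card F : ℝ) = C * (Fintype.card G : ℝ))
    (Sat : Finset ((NZ F G × (Fin n → F)) × (Fin n → F))) (hsub : Sat ⊆ P.edges)
    (hsat : ∀ v f f', (v, f) ∈ Sat → (v, f') ∈ Sat → P.lab T f' - P.lab T f ∈ P.CC v.1.1)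
    (s : ℕ) :
    (Sat.card : ℝ) ^ 2 ≤ ((P.edges.card : ℝ)) ^ 2 * ((Fintype.card F : ℝ) *
      (√((16 * (Fintype.card F : ℝ) ^ 2) ^ s / (Fintype.card G : ℝ)) + 1 / ((s : ℝ) + 1))) := by
  refine (P.sound_aux ψ hψ T L C hL0 hL hC hLC Sat hsub hsat).trans ?_
  refine mul_le_mul_of_nonneg_left (mul_le_mul_of_nonneg_left ?_ (qpos (F := F)).le) (sq_nonneg _)
  set q : ℝ := (Fintype.card F : ℝ) with hq
  have hq0 : 0 < q := qpos
  set N : ℝ := (Fintype.card G : ℝ) with hN
  have hN0 : 0 < N := by rw [hN]; exact_mod_cast Fintype.card_pos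
  set a : (Fin n → F) → ℝ := fun g => P.cnt T g / N with ha
  have ha0 : ∀ g, 0 ≤ a g := fun g => div_nonneg (P.cnt_nonneg T g) hN0.le
  have ha1 : ∀ g, a g ≤ 1 := fun g => by
    rw [ha]; exact (div_le_one hN0).2 (P.cnt_le T g)
  have hasum : (∑ g, a g) / q ^ n = 1 / N := by
    rw [ha, ← Finset.sum_div, P.sum_cnt T, ← hq]
    have := pow_pos hq0 n
    field_simp
  set X : ℝ := ∑ b, if wt b ≤ s then ‖fc ψ a b‖ ^ 2 else 0 with hX
  have hX0 : 0 ≤ X := Finset.sum_nonneg fun b _ => by split_ifs <;> positivity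
  have hXle : X ^ 2 ≤ (1 / N) ^ 3 * (16 * q ^ 2) ^ s := by
    have := low_weight ψ hψ a ha0 ha1 s
    rw [hasum] at this
    exact this
  have hpar : ∑ b, ‖fc ψ a b‖ ^ 2 ≤ 1 / N := by
    rw [parseval ψ hψ, ← hasum]
    refine div_le_div_of_nonneg_right (Finset.sum_le_sum fun g _ => ?_) (by positivity)
    calc a g ^ 2 = a g * a g := by ring
      _ ≤ a g * 1 := mul_le_mul_of_nonneg_left (ha1 g) (ha0 g)
      _ = a g := mul_one _
  have hY : ∑ b, ‖fc ψ a b‖ ^ 2 / ((wt b : ℝ) + 1) ≤ X + 1 / ((s : ℝ) + 1) * (1 / N) := by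
    calc ∑ b, ‖fc ψ a b‖ ^ 2 / ((wt b : ℝ) + 1)
        ≤ ∑ b, ((if wt b ≤ s then ‖fc ψ a b‖ ^ 2 else 0) +
          1 / ((s : ℝ) + 1) * ‖fc ψ a b‖ ^ 2) := by
          refine Finset.sum_le_sum fun b _ => ?_
          have e0 : 0 ≤ ‖fc ψ a b‖ ^ 2 := by positivity
          have es : (0 : ℝ) < (s : ℝ) + 1 := by positivity
          split_ifs with h
          · have e1 : ‖fc ψ a b‖ ^ 2 / ((wt b : ℝ) + 1) ≤ ‖fc ψ a b‖ ^ 2 := by
              rw [div_le_iff₀ (by positivity)]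
              have : (0 : ℝ) ≤ (wt b : ℝ) := Nat.cast_nonneg _
              nlinarith
            have e2 : 0 ≤ 1 / ((s : ℝ) + 1) * ‖fc ψ a b‖ ^ 2 := by positivity
            linarith
          · rw [zero_add, one_div, ← div_eq_inv_mul]
            refine div_le_div_of_nonneg_left e0 es ?_
            have : (s : ℝ) ≤ (wt b : ℝ) := by exact_mod_cast (not_le.1 h).le
            linarith
      _ = X + 1 / ((s : ℝ) + 1) * ∑ b, ‖fc ψ a b‖ ^ 2 := by
          rw [Finset.sum_add_distrib, ← Finset.mul_sum]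
      _ ≤ _ := by
          have es : (0 : ℝ) ≤ 1 / ((s : ℝ) + 1) := by positivity
          have := mul_le_mul_of_nonneg_left hpar es
          linarith
  have hNX : N * X ≤ √((16 * q ^ 2) ^ s / N) := by
    refine Real.le_sqrt_of_sq_le ?_
    calc (N * X) ^ 2 = N ^ 2 * X ^ 2 := by ring
      _ ≤ N ^ 2 * ((1 / N) ^ 3 * (16 * q ^ 2) ^ s) :=
          mul_le_mul_of_nonneg_left hXle (sq_nonneg _)
      _ = _ := by field_simp
  calc N * ∑ b, ‖fc ψ a b‖ ^ 2 / ((wt b : ℝ) + 1)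
      ≤ N * (X + 1 / ((s : ℝ) + 1) * (1 / N)) := mul_le_mul_of_nonneg_left hY hN0.le
    _ = N * X + 1 / ((s : ℝ) + 1) := by field_simp
    _ ≤ _ := by linarith

end Frame

end

end Pool.Agent.H76.DTO
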