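import Pool.Agent.H76.DTO.Geometry

/-!
The constraint graph of the gap instances: its edges, its second singular value and the number of
edges satisfied by a labelling.
-/

namespace Pool.Agent.H76.DTO

open Finset Module
open scoped Classical

noncomputable section

set_option linter.unusedSectionVars false

variable {F G : Type} [Field F] [Fintype F] [AddCommGroup G] [Module F G] [Fintype G] {n : ℕ}

/-- The nonzero functionals. -/
abbrev NZ (F G : Type) [Field F] [AddCommGroup G] [Module F G] : Type := {S : Dual F G // S ≠ 0}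

lemma sum_shift (K : Submodule F (Fin n → F)) (g : (Fin n → F) → ℝ) :
    ∑ h : Fin n → F, ∑ k : K, g (h + k) = (Fintype.card K : ℝ) * ∑ f, g f := by
  rw [Finset.sum_comm]
  have h1 : ∀ k : K, ∑ h : Fin n → F, g (h + k) = ∑ f, g f := fun k =>
    Equiv.sum_comp (Equiv.addRight (k : Fin n → F)) g
  rw [Finset.sum_congr rfl fun k _ => h1 k, Finset.sum_const, Finset.card_univ, nsmul_eq_mul]

lemma card_pos_real (K : Submodule F (Fin n → F)) : (0 : ℝ) < (Fintype.card K : ℝ) := by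
  exact_mod_cast Fintype.card_pos

lemma savg_add (K : Submodule F (Fin n → F)) (a : (Fin n → F) → ℝ) (h : Fin n → F) (k : K) :
    savg K a (h + k) = savg K a h := by
  rw [savg, savg]
  congr 1
  rw [← Equiv.sum_comp (Equiv.addLeft k) (fun g : K => a (h + g))]
  refine Finset.sum_congr rfl fun g _ => ?_
  congr 1
  simp only [Equiv.coe_addLeft, Submodule.coe_add]
  abel

lemma sum_savg_sq (K : Submodule F (Fin n → F)) (a : (Fin n → F) → ℝ) :
    ∑ h, savg K a h ^ 2 = ∑ f, a f * savg K a f := by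
  have hK := card_pos_real K
  have h1 := sum_shift K (fun f => a f * savg K a f)
  have h2 : ∑ h : Fin n → F, ∑ k : K, a (h + k) * savg K a (h + k) =
      (Fintype.card K : ℝ) * ∑ h, savg K a h ^ 2 := by
    rw [Finset.mul_sum]
    refine Finset.sum_congr rfl fun h _ => ?_
    have e1 : ∀ k : K, a (h + k) * savg K a (h + k) = a (h + k) * savg K a h := fun k => by
      rw [savg_add]
    rw [Finset.sum_congr rfl fun k _ => e1 k, ← Finset.sum_mul]
    have e2 : ∑ k : K, a (h + k) = (Fintype.card K : ℝ) * savg K a h := by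
      rw [savg, mul_div_cancel₀ _ hK.ne']
    rw [e2]; ring
  rw [h2] at h1
  exact mul_left_cancel₀ hK.ne' h1

lemma parseval (ψ : AddChar F ℂ) (hψ : ψ.IsPrimitive) (a : (Fin n → F) → ℝ) :
    ∑ b, ‖fc ψ a b‖ ^ 2 = (∑ f, a f ^ 2) / (Fintype.card F : ℝ) ^ n := by
  have h1 := quad ψ hψ (⊥ : Submodule F (Fin n → F)) a
  have h2 : ∀ b : Fin n → F, Ann (⊥ : Submodule F (Fin n → F)) b := by
    intro b g hg
    rw [(Submodule.mem_bot F).1 hg]
    simp [dot]
  have h3 : ∀ f, savg (⊥ : Submodule F (Fin n → F)) a f = a f := by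
    intro f
    have e1 : Fintype.card (⊥ : Submodule F (Fin n → F)) = 1 := by
      rw [Fintype.card_eq_one_iff]
      exact ⟨0, fun y => Subtype.ext ((Submodule.mem_bot F).1 y.2)⟩
    have e2 : ∑ g : (⊥ : Submodule F (Fin n → F)), a (f + g) =
        ∑ g : (⊥ : Submodule F (Fin n → F)), a f := by
      refine Finset.sum_congr rfl fun g _ => ?_
      have : (g : Fin n → F) = 0 := (Submodule.mem_bot F).1 g.2
      rw [this, add_zero]
    rw [savg, e2, Finset.sum_const, Finset.card_univ, e1]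
    simp
  have h4 : ∀ b, (if Ann (⊥ : Submodule F (Fin n → F)) b then ‖fc ψ a b‖ ^ 2 else 0) =
      ‖fc ψ a b‖ ^ 2 := fun b => if_pos (h2 b)
  rw [Finset.sum_congr rfl fun b _ => h4 b] at h1
  rw [h1]
  congr 1
  refine Finset.sum_congr rfl fun f _ => ?_
  rw [h3]; ring

namespace Frame

variable (P : Frame F G n)

/-- The edges of the gap instance. -/
def edges : Finset ((NZ F G × (Fin n → F)) × (Fin n → F)) :=
  Finset.univ.filter (fun e => e.2 - e.1.2 ∈ P.LL e.1.1.1)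

lemma mem_edges (e : (NZ F G × (Fin n → F)) × (Fin n → F)) :
    e ∈ P.edges ↔ e.2 - e.1.2 ∈ P.LL e.1.1.1 := by
  rw [edges, Finset.mem_filter]
  exact ⟨fun h => h.2, fun h => ⟨Finset.mem_univ _, h⟩⟩

omit P in
lemma sum_coset (K : Submodule F (Fin n → F)) (h : Fin n → F) (g : (Fin n → F) → ℝ) :
    ∑ f, (if f - h ∈ K then g f else 0) = ∑ k : K, g (h + k) := by
  rw [← Finset.sum_filter]
  symm
  refine Finset.sum_bij (fun (k : K) _ => h + (k : Fin n → F)) ?_ ?_ ?_ ?_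
  · intro k _
    rw [Finset.mem_filter]
    refine ⟨Finset.mem_univ _, ?_⟩
    rw [add_sub_cancel_left]
    exact k.2
  · intro k _ k' _ hk
    exact Subtype.ext (add_left_cancel hk)
  · intro f hf
    rw [Finset.mem_filter] at hf
    exact ⟨⟨f - h, hf.2⟩, Finset.mem_univ _, by simp⟩
  · intro k _; rfl

lemma sum_edges (g : (NZ F G × (Fin n → F)) × (Fin n → F) → ℝ) :
    ∑ e ∈ P.edges, g e = ∑ S : NZ F G, ∑ h : Fin n → F, ∑ k : P.LL S.1, g ((S, h), h + k) := by
  rw [edges, Finset.sum_filter, Fintype.sum_prod_type, Fintype.sum_prod_type]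
  refine Finset.sum_congr rfl fun S _ => Finset.sum_congr rfl fun h _ => ?_
  exact sum_coset (P.LL S.1) h (fun f => g ((S, h), f))

lemma sum_edges_left (L : ℝ) (hL : ∀ S : NZ F G, (Fintype.card (P.LL S.1) : ℝ) = L)
    (φ : NZ F G × (Fin n → F) → ℝ) :
    ∑ e ∈ P.edges, φ e.1 = L * ∑ v, φ v := by
  rw [P.sum_edges, Fintype.sum_prod_type, Finset.mul_sum]
  refine Finset.sum_congr rfl fun S _ => ?_
  rw [Finset.mul_sum]
  refine Finset.sum_congr rfl fun h _ => ?_
  change ∑ _k : P.LL S.1, φ (S, h) = _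
  rw [Finset.sum_const, Finset.card_univ, nsmul_eq_mul, hL S]

lemma sum_edges_right (L : ℝ) (hL : ∀ S : NZ F G, (Fintype.card (P.LL S.1) : ℝ) = L)
    (g : (Fin n → F) → ℝ) :
    ∑ e ∈ P.edges, g e.2 = (Fintype.card (NZ F G) : ℝ) * L * ∑ f, g f := by
  rw [P.sum_edges]
  have h1 : ∀ S : NZ F G, ∑ h : Fin n → F, ∑ k : P.LL S.1, g (h + k) = L * ∑ f, g f := fun S => by
    rw [sum_shift, hL]
  rw [Finset.sum_congr rfl fun S _ => h1 S, Finset.sum_const, Finset.card_univ, nsmul_eq_mul]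
  ring

/-- The sum over the subspaces of the squared averages of a function of mean zero. -/
lemma sum_savg_le (ψ : AddChar F ℂ) (hψ : ψ.IsPrimitive) (a : (Fin n → F) → ℝ)
    (ha : ∑ f, a f = 0) :
    ∑ S : NZ F G, ∑ h, savg (P.LL S.1) a h ^ 2 ≤
      (Fintype.card (NZ F G) : ℝ) / (Fintype.card F : ℝ) ^ 2 * ∑ f, a f ^ 2 := by
  set q : ℝ := (Fintype.card F : ℝ) with hq
  have hq0 : 0 < q := qpos
  have hfc0 : fc ψ a 0 = 0 := by
    rw [fc]
    have : ∀ f : Fin n → F, (a f : ℂ) * ψ (- dot 0 f) = (a f : ℂ) := fun f => by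
      simp [dot]
    rw [Finset.sum_congr rfl fun f _ => this f, ← Complex.ofReal_sum, ha]
    simp
  have h1 : ∀ S : NZ F G, ∑ h, savg (P.LL S.1) a h ^ 2 =
      q ^ n * ∑ b, (if Ann (P.LL S.1) b then ‖fc ψ a b‖ ^ 2 else 0) := by
    intro S
    rw [quad ψ hψ, sum_savg_sq, mul_div_cancel₀ _ (pow_pos hq0 n).ne']
  rw [Finset.sum_congr rfl fun S _ => h1 S, ← Finset.mul_sum, Finset.sum_comm]
  have h2 : ∀ b : Fin n → F, ∑ S : NZ F G, (if Ann (P.LL S.1) b then ‖fc ψ a b‖ ^ 2 else 0) ≤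
      (Fintype.card (NZ F G) : ℝ) / q ^ 2 * ‖fc ψ a b‖ ^ 2 := by
    intro b
    by_cases hb : b = 0
    · subst hb
      rw [hfc0]; simp
    · rw [← Finset.sum_filter, Finset.sum_const, nsmul_eq_mul]
      refine mul_le_mul_of_nonneg_right ?_ (by positivity)
      rw [le_div_iff₀ (by positivity)]
      have := P.count_LL b hb
      rw [hq]
      exact_mod_cast this
  have h3 : ∑ f, a f ^ 2 = q ^ n * ∑ b, ‖fc ψ a b‖ ^ 2 := by
    rw [parseval ψ hψ, mul_div_cancel₀ _ (pow_pos hq0 n).ne']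
  calc q ^ n * ∑ b, ∑ S : NZ F G, (if Ann (P.LL S.1) b then ‖fc ψ a b‖ ^ 2 else 0)
      ≤ q ^ n * ∑ b, (Fintype.card (NZ F G) : ℝ) / q ^ 2 * ‖fc ψ a b‖ ^ 2 :=
        mul_le_mul_of_nonneg_left (Finset.sum_le_sum fun b _ => h2 b) (by positivity)
    _ = _ := by rw [h3, ← Finset.mul_sum]; ring

/-- **The second singular value of the gap instances.** -/
lemma spectral (ψ : AddChar F ℂ) (hψ : ψ.IsPrimitive) (L : ℝ) (hL0 : 0 < L)
    (hL : ∀ S : NZ F G, (Fintype.card (P.LL S.1) : ℝ) = L)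
    (φ : NZ F G × (Fin n → F) → ℝ) (g : (Fin n → F) → ℝ) (h0 : ∑ e ∈ P.edges, φ e.1 = 0) :
    ∑ e ∈ P.edges, φ e.1 * g e.2 ≤
      1 / (Fintype.card F : ℝ) * √(∑ e ∈ P.edges, φ e.1 ^ 2) * √(∑ e ∈ P.edges, g e.2 ^ 2) := by
  set q : ℝ := (Fintype.card F : ℝ) with hq
  have hq0 : 0 < q := qpos
  set M : ℝ := (Fintype.card (NZ F G) : ℝ) with hM
  have hM0 : 0 ≤ M := Nat.cast_nonneg _
  set m : ℝ := (∑ f, g f) / q ^ n with hm
  set a : (Fin n → F) → ℝ := fun f => g f - m with ha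
  have hN : ∑ f : Fin n → F, (1 : ℝ) = q ^ n := by
    rw [Finset.sum_const, Finset.card_univ, nsmul_eq_mul, mul_one, card_fun]
  have hmq : m * q ^ n = ∑ f, g f := by rw [hm, div_mul_cancel₀ _ (pow_pos hq0 n).ne']
  have ha0 : ∑ f, a f = 0 := by
    rw [ha, Finset.sum_sub_distrib, ← hmq, ← hN, Finset.mul_sum]
    simp
  have ha2 : ∑ f, a f ^ 2 ≤ ∑ f, g f ^ 2 := by
    have e1 : ∑ f, a f ^ 2 = ∑ f, g f ^ 2 - m ^ 2 * q ^ n := by
      have e2 : ∀ f, a f ^ 2 = g f ^ 2 - 2 * m * g f + m ^ 2 * 1 := fun f => by rw [ha]; ring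
      rw [Finset.sum_congr rfl fun f _ => e2 f, Finset.sum_add_distrib, Finset.sum_sub_distrib,
        ← Finset.mul_sum, ← Finset.mul_sum, hN, ← hmq]
      ring
    rw [e1]
    have : 0 ≤ m ^ 2 * q ^ n := by positivity
    linarith
  have h1 : ∑ e ∈ P.edges, φ e.1 * g e.2 = ∑ e ∈ P.edges, φ e.1 * a e.2 := by
    have e1 : ∀ e : (NZ F G × (Fin n → F)) × (Fin n → F),
        φ e.1 * g e.2 = φ e.1 * a e.2 + m * φ e.1 := fun e => by rw [ha]; ring
    rw [Finset.sum_congr rfl fun e _ => e1 e, Finset.sum_add_distrib, ← Finset.mul_sum, h0]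
    ring
  have h2 : ∑ e ∈ P.edges, φ e.1 * a e.2 =
      L * ∑ v : NZ F G × (Fin n → F), φ v * savg (P.LL v.1.1) a v.2 := by
    rw [P.sum_edges, Fintype.sum_prod_type, Finset.mul_sum]
    refine Finset.sum_congr rfl fun S _ => ?_
    rw [Finset.mul_sum]
    refine Finset.sum_congr rfl fun h _ => ?_
    change ∑ k : P.LL S.1, φ (S, h) * a (h + k) = L * (φ (S, h) * savg (P.LL S.1) a h)
    rw [← Finset.mul_sum]
    have e1 : ∑ k : P.LL S.1, a (h + k) = L * savg (P.LL S.1) a h := by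
      rw [savg, hL S, mul_div_cancel₀ _ hL0.ne']
    rw [e1]; ring
  have h3 : ∑ v : NZ F G × (Fin n → F), φ v * savg (P.LL v.1.1) a v.2 ≤
      √(∑ v, φ v ^ 2) * √(M / q ^ 2 * ∑ f, g f ^ 2) := by
    refine (Real.sum_mul_le_sqrt_mul_sqrt _ _ _).trans ?_
    refine mul_le_mul_of_nonneg_left (Real.sqrt_le_sqrt ?_) (Real.sqrt_nonneg _)
    rw [Fintype.sum_prod_type]
    exact (P.sum_savg_le ψ hψ a ha0).trans (mul_le_mul_of_nonneg_left ha2 (by positivity))
  rw [h1, h2, P.sum_edges_left L hL (fun v => φ v ^ 2),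
    P.sum_edges_right L hL (fun f => g f ^ 2)]
  calc L * ∑ v : NZ F G × (Fin n → F), φ v * savg (P.LL v.1.1) a v.2
      ≤ L * (√(∑ v, φ v ^ 2) * √(M / q ^ 2 * ∑ f, g f ^ 2)) :=
        mul_le_mul_of_nonneg_left h3 hL0.le
    _ = 1 / q * √(L * ∑ v, φ v ^ 2) * √(M * L * ∑ f, g f ^ 2) := by
        have e1 : √(M / q ^ 2 * ∑ f, g f ^ 2) = 1 / q * √(M * ∑ f, g f ^ 2) := by
          have : M / q ^ 2 * ∑ f, g f ^ 2 = (1 / q) ^ 2 * (M * ∑ f, g f ^ 2) := by
            field_simp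
          rw [this, Real.sqrt_mul (by positivity), Real.sqrt_sq (by positivity)]
        have e2 : M * L * ∑ f, g f ^ 2 = L * (M * ∑ f, g f ^ 2) := by ring
        rw [e1, e2, Real.sqrt_mul hL0.le, Real.sqrt_mul hL0.le]
        have e3 : √L * √L = L := Real.mul_self_sqrt hL0.le
        calc L * (√(∑ v, φ v ^ 2) * (1 / q * √(M * ∑ f, g f ^ 2)))
            = (√L * √L) * (√(∑ v, φ v ^ 2) * (1 / q * √(M * ∑ f, g f ^ 2))) := by rw [e3]
          _ = _ := by ring

end Frame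

end

end Pool.Agent.H76.DTO
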